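import Mathlib
import Pool.Agent.Helper294.HX.HCDefs

set_option autoImplicit false
set_option linter.unusedSectionVars false
set_option linter.unusedVariables false

namespace Pool.Agent.Helper946.S4

open Module Pool.Agent.Helper946.HC

section noeth

variable {K G A : Type} [DivisionRing K] [Group G] [AddCommGroup A] [Module K A]
    [DistribMulAction G A]

theorem mem_gm (hs : ∀ g : G, Semi K (ac g : A ≃+ A)) (g : G) (V : Submodule K A) (y : A) :
    y ∈ (gm g V : Submodule K A) ↔ ∃ x ∈ V, y = g • x := by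
  constructor
  · intro h
    obtain ⟨σ, hσ⟩ := hs g
    have hσ' : ∀ (k : K) (x : A), g • (k • x) = σ k • g • x := hσ
    induction h using Submodule.span_induction with
    | mem y h => exact h
    | zero => exact ⟨0, V.zero_mem, (smul_zero g).symm⟩
    | add a b _ _ ha hb =>
      obtain ⟨x, hx, rfl⟩ := ha
      obtain ⟨x', hx', rfl⟩ := hb
      exact ⟨x + x', V.add_mem hx hx', (smul_add g x x').symm⟩
    | smul k a _ ha =>
      obtain ⟨x, hx, rfl⟩ := ha
      refine ⟨σ.symm k • x, V.smul_mem _ hx, ?_⟩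
      rw [hσ', σ.apply_symm_apply]
  · rintro ⟨x, hx, rfl⟩
    exact Submodule.subset_span ⟨x, hx, rfl⟩

theorem NoethFor.mono {T T' : Set G} {M M' : Submodule K A} (h : NoethFor T M)
    (hT : ∀ g ∈ T, g ∈ T') (hM : M' ≤ M) : NoethFor T' M' := by
  intro f hf hst
  exact h f hf fun n => ⟨(hst n).1.trans hM, fun g hg => (hst n).2 g (hT g hg)⟩

theorem noeth_fd {T : Set G} {M : Submodule K A} [FiniteDimensional K M] : NoethFor T M := by
  intro f hf hst
  have hN : IsNoetherian K M := inferInstance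
  obtain ⟨n, hn⟩ := monotone_stabilizes_iff_noetherian.mpr hN
    ⟨fun n => (f n).comap M.subtype, fun i j hij => Submodule.comap_mono (hf hij)⟩
  refine ⟨n, fun m hm => ?_⟩
  have h1 : (f n).comap M.subtype = (f m).comap M.subtype := hn m hm
  have h2 := congrArg (Submodule.map M.subtype) h1
  rw [Submodule.map_comap_subtype, Submodule.map_comap_subtype, inf_eq_right.mpr (hst n).1,
    inf_eq_right.mpr (hst m).1] at h2
  exact h2.symm

/-- partial sums `∑_{i<n} t^i M₀`. -/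
noncomputable def Dn (t : G) (M₀ : Submodule K A) : ℕ → Submodule K A
  | 0 => ⊥
  | n + 1 => Dn t M₀ n ⊔ gm (t ^ n) M₀

theorem Dn_mono (t : G) (M₀ : Submodule K A) : Monotone (Dn t M₀) :=
  monotone_nat_of_le_succ fun n => by
    show Dn t M₀ n ≤ Dn t M₀ n ⊔ gm (t ^ n) M₀
    exact le_sup_left

theorem Dn_stable (hs : ∀ g : G, Semi K (ac g : A ≃+ A)) {T : Set G} {t : G}
    (hT : ∀ g ∈ T, t⁻¹ * g * t ∈ T) {M₀ : Submodule K A} (hM : ∀ g ∈ T, ∀ x ∈ M₀, g • x ∈ M₀)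
    (n : ℕ) : ∀ g ∈ T, ∀ x ∈ Dn t M₀ n, g • x ∈ Dn t M₀ n := by
  have hTn : ∀ (n : ℕ), ∀ g ∈ T, (t ^ n)⁻¹ * g * t ^ n ∈ T := by
    intro n
    induction n with
    | zero => intro g hg; simpa using hg
    | succ n ih =>
      intro g hg
      have := hT _ (ih g hg)
      have h2 : t⁻¹ * ((t ^ n)⁻¹ * g * t ^ n) * t = (t ^ (n + 1))⁻¹ * g * t ^ (n + 1) := by
        rw [pow_succ]; group
      rwa [h2] at this
  induction n with
  | zero =>
    intro g _ x hx
    have hx0 : x = 0 := by simpa [Dn] using hx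
    rw [hx0, smul_zero]; exact Submodule.zero_mem _
  | succ n ih =>
    intro g hg x hx
    have hx' : x ∈ Dn t M₀ n ⊔ gm (t ^ n) M₀ := hx
    obtain ⟨a, ha, b, hb, rfl⟩ := Submodule.mem_sup.mp hx'
    obtain ⟨m, hm, rfl⟩ := (mem_gm hs _ _ _).mp hb
    rw [smul_add]
    refine Submodule.add_mem_sup (ih g hg a ha) ((mem_gm hs _ _ _).mpr
      ⟨((t ^ n)⁻¹ * g * t ^ n) • m, hM _ (hTn n g hg) m hm, ?_⟩)
    rw [smul_smul, smul_smul]
    congr 1
    group

theorem Dn_t (hs : ∀ g : G, Semi K (ac g : A ≃+ A)) {t : G} {M₀ : Submodule K A}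
    (n : ℕ) : ∀ x ∈ Dn t M₀ n, t • x ∈ Dn t M₀ (n + 1) := by
  induction n with
  | zero =>
    intro x hx
    have hx0 : x = 0 := by simpa [Dn] using hx
    rw [hx0, smul_zero]; exact Submodule.zero_mem _
  | succ n ih =>
    intro x hx
    have hx' : x ∈ Dn t M₀ n ⊔ gm (t ^ n) M₀ := hx
    obtain ⟨a, ha, b, hb, rfl⟩ := Submodule.mem_sup.mp hx'
    obtain ⟨m, hm, rfl⟩ := (mem_gm hs _ _ _).mp hb
    rw [smul_add]
    refine Submodule.add_mem_sup (ih a ha) ((mem_gm hs _ _ _).mpr ⟨m, hm, ?_⟩)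
    rw [smul_smul, pow_succ' t n]

/-- the skew Hilbert basis step. -/
theorem noeth_step (hs : ∀ g : G, Semi K (ac g : A ≃+ A)) {T : Set G} {t : G}
    (hT : ∀ g ∈ T, t * g * t⁻¹ ∈ T) (hT' : ∀ g ∈ T, t⁻¹ * g * t ∈ T) {M₀ : Submodule K A}
    (hM : ∀ g ∈ T, ∀ x ∈ M₀, g • x ∈ M₀) (hN : NoethFor T M₀) :
    NoethFor (insert t T) (⨆ n : ℕ, (gm (t ^ n) M₀ : Submodule K A)) := by
  intro S hS hst
  have hTn : ∀ (n : ℕ), ∀ g ∈ T, t ^ n * g * (t ^ n)⁻¹ ∈ T := by
    intro n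
    induction n with
    | zero => intro g hg; simpa using hg
    | succ n ih =>
      intro g hg
      have := hT _ (ih g hg)
      have h2 : t * (t ^ n * g * (t ^ n)⁻¹) * t⁻¹ = t ^ (n + 1) * g * (t ^ (n + 1))⁻¹ := by
        rw [pow_succ' t n]; group
      rwa [h2] at this
  have hSt : ∀ k, ∀ x ∈ S k, t • x ∈ S k := fun k => (hst k).2 t (Set.mem_insert _ _)
  have hST : ∀ k, ∀ g ∈ T, ∀ x ∈ S k, g • x ∈ S k := fun k g hg =>
    (hst k).2 g (Set.mem_insert_of_mem _ hg)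
  let L : ℕ → ℕ → Submodule K A := fun k n =>
    { carrier := {m | m ∈ M₀ ∧ t ^ n • m ∈ S k ⊔ Dn t M₀ n}
      add_mem' := by
        rintro a b ⟨ha, ha'⟩ ⟨hb, hb'⟩
        exact ⟨M₀.add_mem ha hb, by rw [smul_add]; exact Submodule.add_mem _ ha' hb'⟩
      zero_mem' := ⟨M₀.zero_mem, by rw [smul_zero]; exact Submodule.zero_mem _⟩
      smul_mem' := by
        rintro c a ⟨ha, ha'⟩
        obtain ⟨σ, hσ⟩ := hs (t ^ n)
        have hσ' : ∀ (k : K) (x : A), t ^ n • (k • x) = σ k • t ^ n • x := hσ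
        exact ⟨M₀.smul_mem c ha, by rw [hσ']; exact Submodule.smul_mem _ _ ha'⟩ }
  have hLM : ∀ k n, L k n ≤ M₀ := fun k n m hm => hm.1
  have hLT : ∀ k n, ∀ g ∈ T, ∀ x ∈ L k n, g • x ∈ L k n := by
    rintro k n g hg x ⟨hx, hx'⟩
    refine ⟨hM g hg x hx, ?_⟩
    obtain ⟨s, hs1, δ, hδ, hsum⟩ := Submodule.mem_sup.mp hx'
    have h1 : t ^ n • (g • x) = (t ^ n * g * (t ^ n)⁻¹) • (t ^ n • x) := by
      rw [smul_smul, smul_smul]; congr 1; group
    rw [h1, ← hsum, smul_add]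
    exact Submodule.add_mem_sup (hST k _ (hTn n g hg) s hs1)
      (Dn_stable hs hT' hM n _ (hTn n g hg) δ hδ)
  have hLk : ∀ n k k', k ≤ k' → L k n ≤ L k' n := by
    rintro n k k' hk m ⟨hm, hm'⟩
    exact ⟨hm, sup_le_sup_right (hS hk) _ hm'⟩
  have hLn1 : ∀ k n, L k n ≤ L k (n + 1) := by
    rintro k n m ⟨hm, hm'⟩
    refine ⟨hm, ?_⟩
    obtain ⟨s, hs1, δ, hδ, hsum⟩ := Submodule.mem_sup.mp hm'
    rw [pow_succ' t n, mul_smul, ← hsum, smul_add]
    exact Submodule.add_mem_sup (hSt k s hs1) (Dn_t hs n δ hδ)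
  have hLn : ∀ k n n', n ≤ n' → L k n ≤ L k n' := fun k =>
    fun n n' h => monotone_nat_of_le_succ (hLn1 k) h
  obtain ⟨k0, hk0⟩ := hN (fun k => L k k)
    (fun i j hij => (hLk i i j hij).trans (hLn j i j hij))
    (fun k => ⟨hLM k k, hLT k k⟩)
  have hbig : ∀ k n, k0 ≤ k → k0 ≤ n → L k n = L k0 k0 := by
    intro k n hk hn
    apply le_antisymm
    · have h1 : L k n ≤ L (max k n) (max k n) :=
        (hLk n k _ (le_max_left _ _)).trans (hLn _ n _ (le_max_right _ _))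
      have h2 : L (max k n) (max k n) = L k0 k0 := hk0 _ (hk.trans (le_max_left _ _))
      exact h1.trans_eq h2
    · exact (hLk k0 k0 k hk).trans (hLn k k0 n hn)
  have hsmall : ∀ n, ∃ kn, ∀ k, kn ≤ k → L k n = L kn n := by
    intro n
    exact hN (fun k => L k n) (fun i j hij => hLk n i j hij) (fun k => ⟨hLM k n, hLT k n⟩)
  choose κ hκ using hsmall
  let k1 := max k0 ((Finset.range k0).sup κ)
  have hk1 : ∀ k n, k1 ≤ k → L k n = L k1 n := by
    intro k n hk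
    by_cases hn : k0 ≤ n
    · rw [hbig k n ((le_max_left _ _).trans hk) hn, hbig k1 n (le_max_left _ _) hn]
    · push Not at hn
      have h1 : κ n ≤ k1 :=
        (Finset.le_sup (f := κ) (Finset.mem_range.mpr hn)).trans (le_max_right _ _)
      rw [hκ n k (h1.trans hk), hκ n k1 h1]
  have hkey : ∀ k, k1 ≤ k → ∀ n, ∀ x, x ∈ S k → x ∈ Dn t M₀ n → x ∈ S k1 := by
    intro k hk n
    induction n with
    | zero =>
      intro x _ hx
      have hx0 : x = 0 := by simpa [Dn] using hx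
      rw [hx0]; exact Submodule.zero_mem _
    | succ n ih =>
      intro x hxS hx
      have hx' : x ∈ Dn t M₀ n ⊔ gm (t ^ n) M₀ := hx
      obtain ⟨a, ha, b, hb, rfl⟩ := Submodule.mem_sup.mp hx'
      obtain ⟨m, hm, rfl⟩ := (mem_gm hs _ _ _).mp hb
      have h1 : m ∈ L k n := by
        refine ⟨hm, ?_⟩
        have : t ^ n • m = (a + t ^ n • m) + (-a) := by abel
        rw [this]
        exact Submodule.add_mem_sup hxS (Submodule.neg_mem _ ha)
      rw [hk1 k n hk] at h1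
      obtain ⟨s, hs1, δ, hδ, hsum⟩ := Submodule.mem_sup.mp h1.2
      have h2 : a + t ^ n • m - s = a + δ := by rw [← hsum]; abel
      have h3 : a + t ^ n • m - s ∈ S k := Submodule.sub_mem _ hxS (hS hk hs1)
      have h4 : a + t ^ n • m - s ∈ Dn t M₀ n := by rw [h2]; exact Submodule.add_mem _ ha hδ
      have h5 := ih _ h3 h4
      have h6 : a + t ^ n • m = (a + t ^ n • m - s) + s := by abel
      rw [h6]
      exact Submodule.add_mem _ h5 hs1
  refine ⟨k1, fun k hk => le_antisymm ?_ (hS hk)⟩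
  intro x hx
  have h1 : x ∈ ⨆ n : ℕ, (gm (t ^ n) M₀ : Submodule K A) := (hst k).1 hx
  have h2 : (⨆ n : ℕ, (gm (t ^ n) M₀ : Submodule K A)) ≤ ⨆ n : ℕ, Dn t M₀ n := by
    apply iSup_le
    intro n
    refine le_trans ?_ (le_iSup (Dn t M₀) (n + 1))
    show gm (t ^ n) M₀ ≤ Dn t M₀ n ⊔ gm (t ^ n) M₀
    exact le_sup_right
  obtain ⟨n, hn⟩ := (Submodule.mem_iSup_of_directed _ (Dn_mono t M₀).directed_le).mp (h2 h1)
  exact hkey k hk n x hx hn

end noeth

end Pool.Agent.Helper946.S4
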