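import Mathlib
import Pool.Agent.Helper294.HX.HCDefs
import Pool.Agent.Helper294.HX.HCNoeth

set_option autoImplicit false
set_option linter.unusedSectionVars false
set_option linter.unusedVariables false

namespace Pool.Agent.Helper946.S4

open Module Pool.Agent.Helper946.HC

section tr

variable {K G A Q : Type} [DivisionRing K] [Group G] [AddCommGroup A] [Module K A]
    [DistribMulAction G A] [Group Q] {ρ : G →* Q} {r : ℕ}
    {ε : Multiplicative (Fin r → ℤ) →* Q}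

theorem tr_gen {F : Set (Fin r → ℤ)} {w : A} {g : G} {f : Fin r → ℤ} (hf : f ∈ F)
    (hg : ρ g = ε (Multiplicative.ofAdd f)) : g • w ∈ (tr ρ ε F w : Submodule K A) :=
  Submodule.subset_span ⟨g, f, hf, hg, rfl⟩

theorem tr_le {F : Set (Fin r → ℤ)} {w : A} {V : Submodule K A}
    (h : ∀ g f, f ∈ F → ρ g = ε (Multiplicative.ofAdd f) → g • w ∈ V) :
    (tr ρ ε F w : Submodule K A) ≤ V := by
  apply Submodule.span_le.mpr
  rintro y ⟨g, f, hf, hg, rfl⟩
  exact h g f hf hg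

theorem tr_mono {F F' : Set (Fin r → ℤ)} (h : ∀ f ∈ F, f ∈ F') (w : A) :
    (tr ρ ε F w : Submodule K A) ≤ tr ρ ε F' w :=
  tr_le fun g f hf hg => tr_gen (h f hf) hg

theorem smul_tr (hs : ∀ g : G, Semi K (ac g : A ≃+ A)) {F : Set (Fin r → ℤ)} {w : A}
    {V : Submodule K A} {g : G}
    (h : ∀ g' f, f ∈ F → ρ g' = ε (Multiplicative.ofAdd f) → (g * g') • w ∈ V) {ξ : A}
    (hξ : ξ ∈ (tr ρ ε F w : Submodule K A)) : g • ξ ∈ V := by
  obtain ⟨σ, hσ⟩ := hs g
  have hσ' : ∀ (k : K) (x : A), g • (k • x) = σ k • g • x := hσ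
  have hξ' : ξ ∈ Submodule.span K {y | ∃ g : G, ∃ f ∈ F, ρ g = ε (Multiplicative.ofAdd f) ∧
    y = g • w} := hξ
  induction hξ' using Submodule.span_induction with
  | mem y hy =>
    obtain ⟨g', f, hf, hg', rfl⟩ := hy
    rw [smul_smul]
    exact h g' f hf hg'
  | zero => rw [smul_zero]; exact V.zero_mem
  | add a b h1 h2 ha hb => rw [smul_add]; exact V.add_mem (ha h1) (hb h2)
  | smul k a h1 ha => rw [hσ']; exact V.smul_mem _ (ha h1)

theorem rho_mul {g g' : G} {v f : Fin r → ℤ} (hg : ρ g = ε (Multiplicative.ofAdd v))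
    (hg' : ρ g' = ε (Multiplicative.ofAdd f)) : ρ (g * g') = ε (Multiplicative.ofAdd (v + f)) := by
  rw [map_mul, hg, hg', ← map_mul, ← ofAdd_add]

theorem rho_inv {g : G} {v : Fin r → ℤ} (hg : ρ g = ε (Multiplicative.ofAdd v)) :
    ρ g⁻¹ = ε (Multiplicative.ofAdd (-v)) := by
  rw [map_inv, hg, ← map_inv, ← ofAdd_neg]

theorem rho_one : ρ (1 : G) = ε (Multiplicative.ofAdd (0 : Fin r → ℤ)) := by
  rw [map_one, ofAdd_zero, map_one]

theorem rho_pow {g : G} {v : Fin r → ℤ} (hg : ρ g = ε (Multiplicative.ofAdd v)) (n : ℕ) :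
    ρ (g ^ n) = ε (Multiplicative.ofAdd (n • v)) := by
  rw [map_pow, hg, ← map_pow, ← ofAdd_nsmul]

theorem smul_tr_shift (hs : ∀ g : G, Semi K (ac g : A ≃+ A)) {F F' : Set (Fin r → ℤ)} {w : A}
    {g : G} {v : Fin r → ℤ} (hg : ρ g = ε (Multiplicative.ofAdd v)) (h : ∀ f ∈ F, v + f ∈ F')
    {ξ : A} (hξ : ξ ∈ (tr ρ ε F w : Submodule K A)) : g • ξ ∈ (tr ρ ε F' w : Submodule K A) :=
  smul_tr hs (fun g' f hf hg' => tr_gen (h f hf) (rho_mul hg hg')) hξ

theorem tr_trans (hs : ∀ g : G, Semi K (ac g : A ≃+ A)) {S F U : Set (Fin r → ℤ)} {w w' : A}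
    (hw : w ∈ (tr ρ ε F w' : Submodule K A)) (h : ∀ s ∈ S, ∀ f ∈ F, s + f ∈ U) :
    (tr ρ ε S w : Submodule K A) ≤ tr ρ ε U w' :=
  tr_le fun g s hs' hg => smul_tr_shift hs hg (h s hs') hw

theorem tr_finite {S : Set (Fin r → ℤ)} {w ξ : A} (hξ : ξ ∈ (tr ρ ε S w : Submodule K A)) :
    ∃ F : Finset (Fin r → ℤ), (∀ f ∈ F, f ∈ S) ∧
      ξ ∈ (tr ρ ε (F : Set (Fin r → ℤ)) w : Submodule K A) := by
  classical
  have hξ' : ξ ∈ Submodule.span K {y | ∃ g : G, ∃ f ∈ S, ρ g = ε (Multiplicative.ofAdd f) ∧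
    y = g • w} := hξ
  clear hξ
  induction hξ' using Submodule.span_induction with
  | mem y hy =>
    obtain ⟨g', f, hf, hg', rfl⟩ := hy
    refine ⟨{f}, fun f' hf' => ?_, tr_gen (by simp) hg'⟩
    rw [Finset.mem_singleton.mp hf']; exact hf
  | zero => exact ⟨∅, by simp, Submodule.zero_mem _⟩
  | add a b _ _ ha hb =>
    obtain ⟨F, h1, h2⟩ := ha
    obtain ⟨F', h1', h2'⟩ := hb
    refine ⟨F ∪ F', fun f hf => ?_, Submodule.add_mem _ (tr_mono ?_ w h2) (tr_mono ?_ w h2')⟩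
    · rcases Finset.mem_union.mp hf with h | h
      · exact h1 f h
      · exact h1' f h
    · intro f hf; exact Finset.mem_coe.mpr (Finset.mem_union_left _ hf)
    · intro f hf; exact Finset.mem_coe.mpr (Finset.mem_union_right _ hf)
  | smul k a _ ha =>
    obtain ⟨F, h1, h2⟩ := ha
    exact ⟨F, h1, Submodule.smul_mem _ _ h2⟩

theorem mem_tr_self {S : Set (Fin r → ℤ)} (h0 : (0 : Fin r → ℤ) ∈ S) (w : A) :
    w ∈ (tr ρ ε S w : Submodule K A) := by
  have := tr_gen (K := K) (A := A) (w := w) h0 (rho_one (ρ := ρ) (ε := ε))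
  rwa [one_smul] at this

theorem tr_empty (w : A) : (tr ρ ε (∅ : Set (Fin r → ℤ)) w : Submodule K A) = ⊥ := by
  rw [eq_bot_iff]
  exact tr_le fun g f hf _ => absurd hf (Set.notMem_empty f)

theorem tr_zero (S : Set (Fin r → ℤ)) : (tr ρ ε S (0 : A) : Submodule K A) = ⊥ := by
  rw [eq_bot_iff]
  exact tr_le fun g f hf _ => by rw [smul_zero]; exact Submodule.zero_mem _

/-- description by chosen lifts. -/
theorem tr_eq (hs : ∀ g : G, Semi K (ac g : A ≃+ A))
    (hsc : ∀ g : G, ρ g = 1 → ∃ c : K, ∀ a : A, g • a = c • a)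
    {y : (Fin r → ℤ) → G} (hy : ∀ v, ρ (y v) = ε (Multiplicative.ofAdd v))
    (S : Set (Fin r → ℤ)) (w : A) :
    (tr ρ ε S w : Submodule K A) = Submodule.span K ((fun v => y v • w) '' S) := by
  apply le_antisymm
  · apply tr_le
    intro g f hf hg
    have h1 : ρ ((y f)⁻¹ * g) = 1 := by rw [map_mul, map_inv, hy, hg, inv_mul_cancel]
    obtain ⟨c, hc⟩ := hsc _ h1
    obtain ⟨σ, hσ⟩ := hs (y f)
    have hσ' : ∀ (k : K) (x : A), y f • (k • x) = σ k • y f • x := hσ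
    have h2 : g • w = σ c • (y f • w) := by
      rw [← hσ', ← hc, smul_smul]
      congr 1
      group
    rw [h2]
    exact Submodule.smul_mem _ _ (Submodule.subset_span ⟨f, hf, rfl⟩)
  · apply Submodule.span_le.mpr
    rintro _ ⟨v, hv, rfl⟩
    exact tr_gen hv (hy v)

theorem tr_fd (hs : ∀ g : G, Semi K (ac g : A ≃+ A))
    (hsc : ∀ g : G, ρ g = 1 → ∃ c : K, ∀ a : A, g • a = c • a)
    (hρ : ∀ v : Fin r → ℤ, ∃ g : G, ρ g = ε (Multiplicative.ofAdd v))
    {S : Set (Fin r → ℤ)} (hS : S.Finite) (w : A) :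
    FiniteDimensional K (tr ρ ε S w : Submodule K A) := by
  choose y hy using hρ
  rw [tr_eq hs hsc hy]
  exact FiniteDimensional.span_of_finite K (hS.image _)

/-- goodness of an element for a character. -/
def GoodE (K : Type) {G A Q : Type} [DivisionRing K] [Group G] [AddCommGroup A] [Module K A]
    [DistribMulAction G A] [Group Q] (ρ : G →* Q) {r : ℕ}
    (ε : Multiplicative (Fin r → ℤ) →* Q) (φ : (Fin r → ℤ) →+ ℝ) (w : A) : Prop :=
  ∃ F : Finset (Fin r → ℤ), (∀ f ∈ F, 0 < φ f) ∧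
    w ∈ (tr ρ ε (F : Set (Fin r → ℤ)) w : Submodule K A)

theorem good_push (hs : ∀ g : G, Semi K (ac g : A ≃+ A)) {φ : (Fin r → ℤ) →+ ℝ} {w : A}
    (h : GoodE K ρ ε φ w) (R : ℝ) :
    ∃ F : Finset (Fin r → ℤ), (∀ f ∈ F, R < φ f) ∧
      w ∈ (tr ρ ε (F : Set (Fin r → ℤ)) w : Submodule K A) := by
  classical
  obtain ⟨F, hF, hw⟩ := h
  obtain ⟨δ, hδ, hFδ⟩ : ∃ δ : ℝ, 0 < δ ∧ ∀ f ∈ F, δ ≤ φ f := by
    by_cases hne : F.Nonempty
    · obtain ⟨f0, hf0, hmin⟩ := Finset.exists_min_image F φ hne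
      exact ⟨φ f0, hF f0 hf0, hmin⟩
    · rw [Finset.not_nonempty_iff_eq_empty] at hne
      exact ⟨1, one_pos, by simp [hne]⟩
  have key : ∀ n : ℕ, ∃ Fn : Finset (Fin r → ℤ), (∀ f ∈ Fn, n * δ ≤ φ f) ∧
      w ∈ (tr ρ ε (Fn : Set (Fin r → ℤ)) w : Submodule K A) := by
    intro n
    induction n with
    | zero =>
      refine ⟨{0}, ?_, mem_tr_self (by simp) w⟩
      intro f hf
      rw [Finset.mem_singleton.mp hf, map_zero]; simp
    | succ n ih =>
      obtain ⟨Fn, h1, h2⟩ := ih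
      have h3 := tr_trans hs (S := (Fn : Set (Fin r → ℤ)))
        (U := {u | ∃ s ∈ Fn, ∃ f ∈ F, u = s + f}) hw (fun s hs f hf => ⟨s, hs, f, hf, rfl⟩) h2
      obtain ⟨F', h4, h5⟩ := tr_finite h3
      refine ⟨F', fun u hu => ?_, h5⟩
      obtain ⟨s, hs, f, hf, rfl⟩ := h4 u hu
      rw [map_add]
      have e1 := h1 s hs
      have e2 := hFδ f hf
      push_cast
      linarith
  obtain ⟨n, hn⟩ := exists_nat_gt (R / δ)
  obtain ⟨Fn, h1, h2⟩ := key n
  refine ⟨Fn, fun f hf => lt_of_lt_of_le ?_ (h1 f hf), h2⟩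
  rwa [div_lt_iff₀ hδ] at hn

/-- the monoid algebra of a finitely generated cone is noetherian. -/
theorem noeth_cone (hs : ∀ g : G, Semi K (ac g : A ≃+ A))
    (hsc : ∀ g : G, ρ g = 1 → ∃ c : K, ∀ a : A, g • a = c • a)
    (hρ : ∀ v : Fin r → ℤ, ∃ g : G, ρ g = ε (Multiplicative.ofAdd v))
    (Gen : Finset (Fin r → ℤ)) (w : A) :
    NoethFor {g : G | ∃ c ∈ AddSubmonoid.closure (Gen : Set (Fin r → ℤ)),
        ρ g = ε (Multiplicative.ofAdd c)}
      (tr ρ ε (AddSubmonoid.closure (Gen : Set (Fin r → ℤ)) : Set (Fin r → ℤ)) w :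
        Submodule K A) := by
  classical
  induction Gen using Finset.induction_on with
  | empty =>
    have : FiniteDimensional K (tr ρ ε (AddSubmonoid.closure
        ((∅ : Finset (Fin r → ℤ)) : Set (Fin r → ℤ)) : Set (Fin r → ℤ)) w : Submodule K A) := by
      apply tr_fd hs hsc hρ
      rw [Finset.coe_empty, AddSubmonoid.closure_empty, AddSubmonoid.coe_bot]
      exact Set.finite_singleton 0
    exact noeth_fd
  | insert a Gen ha ih =>
    obtain ⟨t, ht⟩ := hρ a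
    have hcl : ∀ c, c ∈ AddSubmonoid.closure ((insert a Gen : Finset (Fin r → ℤ)) :
        Set (Fin r → ℤ)) ↔ ∃ n : ℕ, ∃ c' ∈ AddSubmonoid.closure (Gen : Set (Fin r → ℤ)),
        n • a + c' = c := by
      intro c
      rw [Finset.coe_insert, Set.insert_eq, AddSubmonoid.closure_union, AddSubmonoid.mem_sup]
      constructor
      · rintro ⟨y, hy, z, hz, rfl⟩
        obtain ⟨n, rfl⟩ := AddSubmonoid.mem_closure_singleton.mp hy
        exact ⟨n, z, hz, rfl⟩
      · rintro ⟨n, c', hc', rfl⟩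
        exact ⟨n • a, AddSubmonoid.mem_closure_singleton.mpr ⟨n, rfl⟩, c', hc', rfl⟩
    have h1 := noeth_step hs (t := t) (T := {g : G | ∃ c ∈ AddSubmonoid.closure
      (Gen : Set (Fin r → ℤ)), ρ g = ε (Multiplicative.ofAdd c)})
      (by
        rintro g ⟨c, hc, hg⟩
        refine ⟨c, hc, ?_⟩
        rw [rho_mul (rho_mul ht hg) (rho_inv ht)]
        congr 2; abel)
      (by
        rintro g ⟨c, hc, hg⟩
        refine ⟨c, hc, ?_⟩
        rw [rho_mul (rho_mul (rho_inv ht) hg) ht]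
        congr 2; abel)
      (M₀ := (tr ρ ε (AddSubmonoid.closure (Gen : Set (Fin r → ℤ)) : Set (Fin r → ℤ)) w :
        Submodule K A))
      (by
        rintro g ⟨c, hc, hg⟩ x hx
        exact smul_tr_shift hs hg (fun f hf => AddSubmonoid.add_mem _ hc hf) hx) ih
    refine NoethFor.mono h1 ?_ ?_
    · intro g hg
      rcases Set.mem_insert_iff.mp hg with h | h
      · refine ⟨a, (hcl a).mpr ⟨1, 0, AddSubmonoid.zero_mem _, by simp⟩, ?_⟩
        rw [h]; exact ht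
      · obtain ⟨c, hc, hg'⟩ := h
        exact ⟨c, (hcl c).mpr ⟨0, c, hc, by simp⟩, hg'⟩
    · apply tr_le
      intro g f hf hg
      obtain ⟨n, c', hc', hsum⟩ := (hcl f).mp hf
      apply Submodule.mem_iSup_of_mem n
      apply (mem_gm hs _ _ _).mpr
      refine ⟨((t ^ n)⁻¹ * g) • w, ?_, ?_⟩
      · apply tr_gen hc'
        rw [rho_mul (rho_inv (rho_pow ht n)) hg, ← hsum]
        congr 2; abel
      · rw [smul_smul]; congr 1; group

theorem add_closure_top (H : AddSubmonoid (Fin r → ℤ))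
    (h1 : ∀ i, Pi.single i (1 : ℤ) ∈ H) (h2 : ∀ i, Pi.single i (-1 : ℤ) ∈ H)
    (v : Fin r → ℤ) : v ∈ H := by
  classical
  have key : ∀ (i : Fin r) (n : ℤ), Pi.single i n ∈ H := by
    intro i n
    obtain ⟨m, rfl | rfl⟩ := Int.eq_nat_or_neg n
    · have := H.nsmul_mem (h1 i) m
      rw [← Pi.single_smul] at this
      simpa using this
    · have := H.nsmul_mem (h2 i) m
      rw [← Pi.single_smul] at this
      simpa using this
  rw [← Finset.univ_sum_single v]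
  exact H.sum_mem fun i _ => key i _

theorem noeth_sup {T : Set G} {M M' : Submodule K A} (hM : ∀ g ∈ T, ∀ x ∈ M, g • x ∈ M)
    (hM' : ∀ g ∈ T, ∀ x ∈ M', g • x ∈ M') (h : NoethFor T M) (h' : NoethFor T M') :
    NoethFor T (M ⊔ M') := by
  intro S hS hst
  obtain ⟨n1, hn1⟩ := h (fun k => S k ⊓ M) (fun i j hij => inf_le_inf_right _ (hS hij))
    (fun k => ⟨inf_le_right, fun g hg x hx => ⟨(hst k).2 g hg x hx.1, hM g hg x hx.2⟩⟩)
  obtain ⟨n2, hn2⟩ := h' (fun k => (S k ⊔ M) ⊓ M')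
    (fun i j hij => inf_le_inf_right _ (sup_le_sup_right (hS hij) _))
    (fun k => ⟨inf_le_right, fun g hg x hx => ⟨by
      obtain ⟨s, hs, m, hm, hsum⟩ := Submodule.mem_sup.mp hx.1
      rw [← hsum, smul_add]
      exact Submodule.add_mem_sup ((hst k).2 g hg s hs) (hM g hg m hm), hM' g hg x hx.2⟩⟩)
  refine ⟨max n1 n2, fun k hk => le_antisymm ?_ (hS hk)⟩
  intro x hx
  obtain ⟨m, hm, m', hm', hsum⟩ := Submodule.mem_sup.mp ((hst k).1 hx)
  have e1 : S k ⊓ M = S (max n1 n2) ⊓ M :=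
    (hn1 k ((le_max_left _ _).trans hk)).trans (hn1 (max n1 n2) (le_max_left _ _)).symm
  have e2 : (S k ⊔ M) ⊓ M' = (S (max n1 n2) ⊔ M) ⊓ M' :=
    (hn2 k ((le_max_right _ _).trans hk)).trans (hn2 (max n1 n2) (le_max_right _ _)).symm
  have h1 : m' ∈ (S k ⊔ M) ⊓ M' := by
    refine ⟨?_, hm'⟩
    have : m' = x + (-m) := by rw [← hsum]; abel
    rw [this]
    exact Submodule.add_mem_sup hx (Submodule.neg_mem _ hm)
  rw [e2] at h1
  obtain ⟨s1, hs1, m1, hm1, hsum1⟩ := Submodule.mem_sup.mp h1.1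
  have h2 : x - s1 ∈ S k ⊓ M := by
    refine ⟨Submodule.sub_mem _ hx (hS hk hs1), ?_⟩
    have : x - s1 = m + m1 := by rw [← hsum, ← hsum1]; abel
    rw [this]
    exact M.add_mem hm hm1
  rw [e1] at h2
  have h3 : x = (x - s1) + s1 := by abel
  rw [h3]
  exact Submodule.add_mem _ h2.1 hs1

/-- (G3): goodness passes to all elements of the module generated by two good elements. -/
theorem good_two (hs : ∀ g : G, Semi K (ac g : A ≃+ A))
    (hsc : ∀ g : G, ρ g = 1 → ∃ c : K, ∀ a : A, g • a = c • a)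
    (hρ : ∀ v : Fin r → ℤ, ∃ g : G, ρ g = ε (Multiplicative.ofAdd v))
    {φ : (Fin r → ℤ) →+ ℝ} {w1 w2 : A} (hw1 : GoodE K ρ ε φ w1) (hw2 : GoodE K ρ ε φ w2) :
    ∀ w' ∈ (tr ρ ε Set.univ w1 ⊔ tr ρ ε Set.univ w2 : Submodule K A), GoodE K ρ ε φ w' := by
  classical
  intro w' hw'
  by_cases hw0 : w' = 0
  · rw [hw0]
    exact ⟨∅, by simp, Submodule.zero_mem _⟩
  let b : Fin r → (Fin r → ℤ) := fun i => Pi.single i (1 : ℤ)
  let b' : Fin r → (Fin r → ℤ) := fun i => Pi.single i (-1 : ℤ)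
  have hbb : ∀ i, b' i = - b i := by
    intro i
    show (Pi.single i (-1 : ℤ) : Fin r → ℤ) = - (Pi.single i (1 : ℤ) : Fin r → ℤ)
    rw [← Pi.single_neg]
  let B : ℝ := ∑ i, |φ (b i)|
  have hB0 : 0 ≤ B := Finset.sum_nonneg fun i _ => abs_nonneg _
  have hB : ∀ i, |φ (b i)| ≤ B := fun i =>
    Finset.single_le_sum (f := fun i => |φ (b i)|) (fun i _ => abs_nonneg _) (Finset.mem_univ i)
  obtain ⟨F1, hF1, hwF1⟩ := good_push hs hw1 B
  obtain ⟨F2, hF2, hwF2⟩ := good_push hs hw2 B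
  let F := F1 ∪ F2
  have hF : ∀ f ∈ F, B < φ f := by
    intro f hf
    rcases Finset.mem_union.mp hf with h | h
    · exact hF1 f h
    · exact hF2 f h
  have hFne : F.Nonempty := by
    by_contra hne
    rw [Finset.not_nonempty_iff_eq_empty, Finset.union_eq_empty] at hne
    rw [hne.1, Finset.coe_empty, tr_empty, Submodule.mem_bot] at hwF1
    rw [hne.2, Finset.coe_empty, tr_empty, Submodule.mem_bot] at hwF2
    rw [hwF1, hwF2, tr_zero, sup_idem, Submodule.mem_bot] at hw'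
    exact hw0 hw'
  obtain ⟨f0, hf0⟩ := hFne
  let Gen : Finset (Fin r → ℤ) := F ∪ (Finset.image (fun p : (Fin r → ℤ) × Fin r => p.1 + b p.2)
    (F ×ˢ Finset.univ)) ∪ (Finset.image (fun p : (Fin r → ℤ) × Fin r => p.1 + b' p.2)
    (F ×ˢ Finset.univ))
  have hGen1 : ∀ f ∈ F, f ∈ Gen := fun f hf =>
    Finset.mem_union_left _ (Finset.mem_union_left _ hf)
  have hGen2 : ∀ f ∈ F, ∀ i, f + b i ∈ Gen := fun f hf i =>
    Finset.mem_union_left _ (Finset.mem_union_right _ (Finset.mem_image.mpr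
      ⟨(f, i), Finset.mem_product.mpr ⟨hf, Finset.mem_univ _⟩, rfl⟩))
  have hGen3 : ∀ f ∈ F, ∀ i, f + b' i ∈ Gen := fun f hf i =>
    Finset.mem_union_right _ (Finset.mem_image.mpr
      ⟨(f, i), Finset.mem_product.mpr ⟨hf, Finset.mem_univ _⟩, rfl⟩)
  have hGenpos : ∀ c ∈ Gen, 0 < φ c := by
    intro c hc
    rcases Finset.mem_union.mp hc with hc | hc
    · rcases Finset.mem_union.mp hc with hc | hc
      · exact hB0.trans_lt (hF c hc)
      · obtain ⟨⟨f, i⟩, hp, rfl⟩ := Finset.mem_image.mp hc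
        have h1 := hF f (Finset.mem_product.mp hp).1
        have h2 := abs_le.mp (hB i)
        show 0 < φ (f + b i)
        rw [map_add]; linarith [h2.1]
    · obtain ⟨⟨f, i⟩, hp, rfl⟩ := Finset.mem_image.mp hc
      have h1 := hF f (Finset.mem_product.mp hp).1
      have h2 := abs_le.mp (hB i)
      show 0 < φ (f + b' i)
      rw [map_add, hbb, map_neg]; linarith [h2.2]
  set C := AddSubmonoid.closure (Gen : Set (Fin r → ℤ)) with hC
  have hGC : ∀ c ∈ Gen, c ∈ C := fun c hc => AddSubmonoid.subset_closure hc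
  have hCpos : ∀ c ∈ C, 0 ≤ φ c := by
    intro c hc
    induction hc using AddSubmonoid.closure_induction with
    | mem c hc => exact (hGenpos c hc).le
    | zero => rw [map_zero]
    | add a b _ _ ha hb => rw [map_add]; exact add_nonneg ha hb
  -- the cone generates everything
  have hcone : ∀ (w : A) (Fw : Finset (Fin r → ℤ)), (∀ f ∈ Fw, f ∈ F) →
      w ∈ (tr ρ ε (Fw : Set (Fin r → ℤ)) w : Submodule K A) →
      ∀ (g : G) (v : Fin r → ℤ), ρ g = ε (Multiplicative.ofAdd v) →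
        ∀ ξ ∈ (tr ρ ε (C : Set (Fin r → ℤ)) w : Submodule K A),
          g • ξ ∈ (tr ρ ε (C : Set (Fin r → ℤ)) w : Submodule K A) := by
    intro w Fw hFw hwF
    let H : AddSubmonoid (Fin r → ℤ) :=
      { carrier := {v | ∀ g : G, ρ g = ε (Multiplicative.ofAdd v) →
          ∀ ξ ∈ (tr ρ ε (C : Set (Fin r → ℤ)) w : Submodule K A),
            g • ξ ∈ (tr ρ ε (C : Set (Fin r → ℤ)) w : Submodule K A)}
        zero_mem' := by
          intro g hg ξ hξ
          exact smul_tr_shift hs hg (fun f hf => by rw [zero_add]; exact hf) hξ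
        add_mem' := by
          intro u v hu hv g hg ξ hξ
          obtain ⟨g1, hg1⟩ := hρ u
          have hg2 : ρ (g1⁻¹ * g) = ε (Multiplicative.ofAdd v) := by
            rw [rho_mul (rho_inv hg1) hg]; congr 2; abel
          have h1 := hu g1 hg1 _ (hv _ hg2 ξ hξ)
          rw [smul_smul] at h1
          have h2 : g1 * (g1⁻¹ * g) = g := by group
          rwa [h2] at h1 }
    have hHgen : ∀ u : Fin r → ℤ, (∀ f ∈ F, f + u ∈ Gen) → u ∈ H := by
      intro u hu g hg ξ hξ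
      refine smul_tr hs (F := (C : Set (Fin r → ℤ))) ?_ hξ
      intro g' c hc hg'
      refine smul_tr_shift hs (rho_mul hg hg') ?_ hwF
      intro f hf
      have : u + c + f = (f + u) + c := by abel
      rw [this]
      exact C.add_mem (hGC _ (hu f (hFw f hf))) hc
    have hHtop : ∀ v, v ∈ H := add_closure_top H (fun i => hHgen _ fun f hf => hGen2 f hf i)
      (fun i => hHgen _ fun f hf => hGen3 f hf i)
    exact fun g v hg => hHtop v g hg
  have hst1 := hcone w1 F1 (fun f hf => Finset.mem_union_left _ hf) hwF1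
  have hst2 := hcone w2 F2 (fun f hf => Finset.mem_union_right _ hf) hwF2
  set V : Submodule K A := tr ρ ε (C : Set (Fin r → ℤ)) w1 ⊔ tr ρ ε (C : Set (Fin r → ℤ)) w2
    with hV
  have hVall : (tr ρ ε Set.univ w1 ⊔ tr ρ ε Set.univ w2 : Submodule K A) ≤ V := by
    apply sup_le
    · exact tr_le fun g v _ hg =>
        Submodule.mem_sup_left (hst1 g v hg w1 (mem_tr_self C.zero_mem w1))
    · exact tr_le fun g v _ hg =>
        Submodule.mem_sup_right (hst2 g v hg w2 (mem_tr_self C.zero_mem w2))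
  have hVst : ∀ (g : G) (v : Fin r → ℤ), ρ g = ε (Multiplicative.ofAdd v) →
      ∀ ξ ∈ V, g • ξ ∈ V := by
    intro g v hg ξ hξ
    obtain ⟨a, ha, c, hc, rfl⟩ := Submodule.mem_sup.mp hξ
    rw [smul_add]
    exact Submodule.add_mem_sup (hst1 g v hg a ha) (hst2 g v hg c hc)
  obtain ⟨y, hy⟩ := hρ (-f0)
  have hf0C : f0 ∈ C := hGC f0 (hGen1 f0 hf0)
  have hN : NoethFor {g : G | ∃ c ∈ C, ρ g = ε (Multiplicative.ofAdd c)} V := by
    apply noeth_sup
    · rintro g ⟨c, hc, hg⟩ x hx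
      exact smul_tr_shift hs hg (fun f hf => C.add_mem hc hf) hx
    · rintro g ⟨c, hc, hg⟩ x hx
      exact smul_tr_shift hs hg (fun f hf => C.add_mem hc hf) hx
    · exact noeth_cone hs hsc hρ Gen w1
    · exact noeth_cone hs hsc hρ Gen w2
  obtain ⟨n, hn⟩ := hN (fun n => (tr ρ ε (C : Set (Fin r → ℤ)) (y ^ n • w') : Submodule K A))
    (by
      apply monotone_nat_of_le_succ
      intro n
      apply tr_le
      intro g c hc hg
      have h1 : g • y ^ n • w' = (g * y⁻¹) • (y ^ (n + 1) • w') := by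
        rw [smul_smul, smul_smul]; congr 1; rw [pow_succ' y n]; group
      rw [h1]
      refine tr_gen (f := c + f0) (C.add_mem hc hf0C) ?_
      rw [rho_mul hg (rho_inv hy)]; congr 2; abel)
    (fun n => ⟨by
      apply tr_le
      intro g c hc hg
      apply hVst g c hg
      exact hVst _ _ (rho_pow hy n) _ (hVall hw'), by
      rintro g ⟨c, hc, hg⟩ x hx
      exact smul_tr_shift hs hg (fun f hf => C.add_mem hc hf) hx⟩)
  have h1 : y ^ (n + 1) • w' ∈ (tr ρ ε (C : Set (Fin r → ℤ)) (y ^ n • w') : Submodule K A) := by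
    have h2 : (tr ρ ε (C : Set (Fin r → ℤ)) (y ^ (n + 1) • w') : Submodule K A)
        = tr ρ ε (C : Set (Fin r → ℤ)) (y ^ n • w') := hn (n + 1) (Nat.le_succ n)
    rw [← h2]
    exact mem_tr_self C.zero_mem _
  have h2 : (y ^ (n + 1))⁻¹ • (y ^ (n + 1) • w') ∈
      (tr ρ ε {u : Fin r → ℤ | ∃ c ∈ C, u = c + f0} w' : Submodule K A) := by
    refine smul_tr hs (F := (C : Set (Fin r → ℤ))) ?_ h1
    intro g c hc hg
    rw [smul_smul]
    refine tr_gen (f := c + f0) ⟨c, hc, rfl⟩ ?_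
    rw [rho_mul (rho_mul (rho_inv (rho_pow hy (n + 1))) hg) (rho_pow hy n)]
    congr 2
    rw [add_smul, one_smul, smul_neg]; abel
  rw [inv_smul_smul] at h2
  obtain ⟨F', hF', hw''⟩ := tr_finite h2
  refine ⟨F', fun u hu => ?_, hw''⟩
  obtain ⟨c, hc, rfl⟩ := hF' u hu
  rw [map_add]
  have e1 := hCpos c hc
  have e2 := hGenpos f0 (hGen1 f0 hf0)
  linarith

theorem good_all (hs : ∀ g : G, Semi K (ac g : A ≃+ A))
    (hsc : ∀ g : G, ρ g = 1 → ∃ c : K, ∀ a : A, g • a = c • a)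
    (hρ : ∀ v : Fin r → ℤ, ∃ g : G, ρ g = ε (Multiplicative.ofAdd v))
    {φ : (Fin r → ℤ) →+ ℝ} {w : A} (hw : GoodE K ρ ε φ w) :
    ∀ w' ∈ (tr ρ ε Set.univ w : Submodule K A), GoodE K ρ ε φ w' := by
  intro w' hw'
  exact good_two hs hsc hρ hw hw w' (Submodule.mem_sup_left hw')

end tr

end Pool.Agent.Helper946.S4
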