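import Mathlib
import Pool.Agent.Helper294.HX.HCDefs
import Pool.Agent.Helper294.HX.HCNoeth
import Pool.Agent.Helper294.HX.HCTr

set_option autoImplicit false
set_option linter.unusedSectionVars false
set_option linter.unusedVariables false

namespace Pool.Agent.Helper946.S4

open Module Pool.Agent.Helper946.HC

section

variable {K G A Q : Type} [DivisionRing K] [Group G] [AddCommGroup A] [Module K A]
    [DistribMulAction G A] [Group Q] {ρ : G →* Q} {r : ℕ}
    {ε : Multiplicative (Fin r → ℤ) →* Q}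

/-- (G4): a torsion element is good for all characters outside finitely many hyperplanes. -/
theorem tors_cover (hs : ∀ g : G, Semi K (ac g : A ≃+ A))
    (hsc : ∀ g : G, ρ g = 1 → ∃ c : K, ∀ a : A, g • a = c • a)
    (hρ : ∀ v : Fin r → ℤ, ∃ g : G, ρ g = ε (Multiplicative.ofAdd v)) {w : A}
    (hT : Tors (K := K) ρ ε w) :
    ∃ D : Finset (Fin r → ℤ), (∀ d ∈ D, d ≠ 0) ∧
      ∀ φ : (Fin r → ℤ) →+ ℝ, (∀ d ∈ D, φ d ≠ 0) → GoodE K ρ ε φ w := by
  classical
  choose y hy using hρ
  let Y : (Fin r → ℤ) → A := fun v => y v • w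
  have htr : ∀ S : Finset (Fin r → ℤ), (tr ρ ε (S : Set (Fin r → ℤ)) w : Submodule K A)
      = Submodule.span K (Y '' (S : Set (Fin r → ℤ))) := fun S => tr_eq hs hsc hy _ w
  let 𝒮 : Set (Finset (Fin r → ℤ)) := {S | ∃ v ∈ S, Y v ∈ Submodule.span K
    (Y '' ((S.erase v : Finset (Fin r → ℤ)) : Set (Fin r → ℤ)))}
  have hne : 𝒮.Nonempty := by
    obtain ⟨F, v, hv, g, hg, hgw⟩ := hT
    refine ⟨insert v F, v, Finset.mem_insert_self _ _, ?_⟩
    rw [Finset.erase_insert hv, ← htr]
    have h1 : ρ (g⁻¹ * y v) = 1 := by rw [map_mul, map_inv, hy, hg, inv_mul_cancel]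
    obtain ⟨c, hc⟩ := hsc _ h1
    obtain ⟨σ, hσ⟩ := hs g
    have hσ' : ∀ (k : K) (x : A), g • (k • x) = σ k • g • x := hσ
    have h2 : Y v = σ c • (g • w) := by
      rw [← hσ', ← hc, smul_smul]
      show y v • w = _
      congr 1
      group
    rw [h2]
    exact Submodule.smul_mem _ _ hgw
  obtain ⟨S, ⟨v, hv, hvS⟩, hmin⟩ :=
    (measure (fun S : Finset (Fin r → ℤ) => S.card)).wf.has_min 𝒮 hne
  have hall : ∀ e ∈ S, Y e ∈ Submodule.span K
      (Y '' ((S.erase e : Finset (Fin r → ℤ)) : Set (Fin r → ℤ))) := by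
    intro e he
    by_cases hev : e = v
    · rw [hev]; exact hvS
    have h1 : S.erase v = insert e ((S.erase v).erase e) :=
      (Finset.insert_erase (Finset.mem_erase.mpr ⟨hev, he⟩)).symm
    have h2 : S.erase e = insert v ((S.erase v).erase e) := by
      rw [Finset.erase_right_comm]
      exact (Finset.insert_erase (Finset.mem_erase.mpr ⟨Ne.symm hev, hv⟩)).symm
    rw [h1, Finset.coe_insert, Set.image_insert_eq] at hvS
    rw [h2, Finset.coe_insert, Set.image_insert_eq]
    apply mem_span_insert_exchange hvS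
    intro h3
    apply hmin (S.erase e)
    · refine ⟨v, Finset.mem_erase.mpr ⟨Ne.symm hev, hv⟩, ?_⟩
      rwa [Finset.erase_right_comm]
    · exact Finset.card_erase_lt_of_mem he
  refine ⟨((S ×ˢ S).filter fun p => p.1 ≠ p.2).image fun p => p.1 - p.2, ?_, ?_⟩
  · intro d hd
    obtain ⟨p, hp, rfl⟩ := Finset.mem_image.mp hd
    exact sub_ne_zero.mpr (Finset.mem_filter.mp hp).2
  · intro φ hφ
    obtain ⟨e0, he0, hmin0⟩ := Finset.exists_min_image S φ ⟨v, hv⟩
    have h1 := hall e0 he0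
    rw [← htr] at h1
    refine ⟨(S.erase e0).image fun e => e - e0, ?_, ?_⟩
    · intro f hf
      obtain ⟨e, he, rfl⟩ := Finset.mem_image.mp hf
      obtain ⟨hne', heS⟩ := Finset.mem_erase.mp he
      have h2 := hφ (e - e0) (Finset.mem_image.mpr ⟨(e, e0), Finset.mem_filter.mpr
        ⟨Finset.mem_product.mpr ⟨heS, he0⟩, hne'⟩, rfl⟩)
      have h3 := hmin0 e heS
      rw [map_sub] at h2 ⊢
      rcases h3.lt_or_eq with h4 | h4
      · linarith
      · exact absurd (by rw [h4, sub_self]) h2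
    · have h2 : (y e0)⁻¹ • (y e0 • w) ∈ (tr ρ ε (((S.erase e0).image fun e => e - e0 :
          Finset (Fin r → ℤ)) : Set (Fin r → ℤ)) w : Submodule K A) := by
        refine smul_tr_shift hs (rho_inv (hy e0)) ?_ h1
        intro f hf
        rw [Finset.coe_image]
        exact ⟨f, hf, by show f - e0 = -e0 + f; abel⟩
      rwa [inv_smul_smul] at h2

/-- a real vector as a character. -/
def phi {r : ℕ} (x : Fin r → ℝ) : (Fin r → ℤ) →+ ℝ where
  toFun := fun v => ∑ i, x i * (v i : ℝ)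
  map_zero' := by simp
  map_add' := by
    intro a b
    rw [← Finset.sum_add_distrib]
    exact Finset.sum_congr rfl fun i _ => by simp [mul_add]

theorem phi_apply {r : ℕ} (x : Fin r → ℝ) (v : Fin r → ℤ) : phi x v = ∑ i, x i * (v i : ℝ) := rfl

/-- squared length. -/
def nrm {r : ℕ} (e : Fin r → ℤ) : ℕ := ∑ i, (e i).natAbs ^ 2

theorem nrm_cast {r : ℕ} (e : Fin r → ℤ) : (nrm e : ℝ) = ∑ i, (e i : ℝ) ^ 2 := by
  unfold nrm
  push_cast
  refine Finset.sum_congr rfl fun i _ => ?_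
  have h : (((e i).natAbs : ℤ) : ℝ) ^ 2 = ((e i : ℤ) : ℝ) ^ 2 := by
    exact_mod_cast congrArg (fun z : ℤ => (z : ℝ)) (Int.natAbs_sq (e i))
  rw [← h]; norm_cast

theorem nrm_finite {r : ℕ} (R : ℕ) : {u : Fin r → ℤ | nrm u ≤ R}.Finite := by
  apply Set.Finite.subset (Set.finite_Icc (fun _ => -(R : ℤ)) (fun _ => (R : ℤ)))
  intro u hu
  have h1 : ∀ i, (u i).natAbs ≤ R := by
    intro i
    have h2 : (u i).natAbs ^ 2 ≤ nrm u :=
      Finset.single_le_sum (f := fun i => (u i).natAbs ^ 2) (fun i _ => Nat.zero_le _)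
        (Finset.mem_univ i)
    have h3 : (u i).natAbs ^ 2 ≤ R := h2.trans hu
    nlinarith [Nat.zero_le (u i).natAbs]
  refine ⟨fun i => ?_, fun i => ?_⟩
  · have := h1 i; show -(R : ℤ) ≤ u i; omega
  · have := h1 i; show u i ≤ (R : ℤ); omega

/-- (G5): if all nonzero characters are good then the cyclic module is finite dimensional. -/
theorem all_good_fd (hs : ∀ g : G, Semi K (ac g : A ≃+ A))
    (hsc : ∀ g : G, ρ g = 1 → ∃ c : K, ∀ a : A, g • a = c • a)
    (hρ : ∀ v : Fin r → ℤ, ∃ g : G, ρ g = ε (Multiplicative.ofAdd v)) {w : A}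
    (h : ∀ φ : (Fin r → ℤ) →+ ℝ, φ ≠ 0 → GoodE K ρ ε φ w) :
    FiniteDimensional K (tr ρ ε Set.univ w : Submodule K A) := by
  classical
  let Sp : Set (Fin r → ℝ) := {x | ∑ i, x i ^ 2 = 1}
  have hcont : Continuous fun x : Fin r → ℝ => ∑ i, x i ^ 2 := by fun_prop
  have hclosed : IsClosed Sp := isClosed_eq hcont continuous_const
  have hbdd : Bornology.IsBounded Sp := by
    apply (Metric.isBounded_closedBall (x := (0 : Fin r → ℝ)) (r := 1)).subset
    intro x hx
    rw [mem_closedBall_zero_iff, pi_norm_le_iff_of_nonneg zero_le_one]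
    intro i
    have h1 : x i ^ 2 ≤ 1 := by
      have h2 : ∑ i, x i ^ 2 = 1 := hx
      rw [← h2]
      exact Finset.single_le_sum (f := fun i => x i ^ 2) (fun i _ => sq_nonneg _)
        (Finset.mem_univ i)
    rw [Real.norm_eq_abs]
    exact abs_le_one_iff_mul_self_le_one.mpr (by nlinarith)
  have hcomp : IsCompact Sp := Metric.isCompact_of_isClosed_isBounded hclosed hbdd
  have hne : ∀ x ∈ Sp, phi x ≠ 0 := by
    intro x hx h0
    have h1 : ∀ i, x i = 0 := by
      intro i
      have h2 := congrArg (fun f : (Fin r → ℤ) →+ ℝ => f (Pi.single i 1)) h0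
      simp only [phi_apply, AddMonoidHom.zero_apply] at h2
      rw [Finset.sum_eq_single i] at h2
      · simpa using h2
      · intro j _ hj
        rw [Pi.single_eq_of_ne hj]; simp
      · intro hi; exact absurd (Finset.mem_univ i) hi
    have h2 : ∑ i, x i ^ 2 = 1 := hx
    simp [h1] at h2
  have hch : ∀ x : Fin r → ℝ, ∃ (F : Finset (Fin r → ℤ)) (δ : ℝ), 0 < δ ∧ (x ∈ Sp →
      (∀ f ∈ F, δ < phi x f) ∧ w ∈ (tr ρ ε (F : Set (Fin r → ℤ)) w : Submodule K A)) := by
    intro x
    by_cases hx : x ∈ Sp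
    · obtain ⟨F, hF, hw⟩ := h _ (hne x hx)
      by_cases hFne : F.Nonempty
      · obtain ⟨f0, hf0, hmin⟩ := Finset.exists_min_image F (phi x) hFne
        refine ⟨F, phi x f0 / 2, half_pos (hF f0 hf0), fun _ => ⟨fun f hf => ?_, hw⟩⟩
        have := hmin f hf
        have := hF f0 hf0
        linarith
      · rw [Finset.not_nonempty_iff_eq_empty] at hFne
        refine ⟨F, 1, one_pos, fun _ => ⟨fun f hf => ?_, hw⟩⟩
        rw [hFne] at hf
        exact absurd hf (Finset.notMem_empty f)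
    · exact ⟨∅, 1, one_pos, fun hx' => absurd hx' hx⟩
  choose F δ hδ hFδ using hch
  obtain ⟨t, htS, hcover⟩ := hcomp.elim_nhds_subcover
    (fun x => {z | ∀ f ∈ F x, δ x < phi z f}) (by
      intro x hx
      apply IsOpen.mem_nhds
      · have : {z : Fin r → ℝ | ∀ f ∈ F x, δ x < phi z f}
            = ⋂ f ∈ F x, {z : Fin r → ℝ | δ x < phi z f} := by
          ext z; simp
        rw [this]
        apply isOpen_biInter_finset
        intro f _
        apply isOpen_lt continuous_const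
        show Continuous fun z : Fin r → ℝ => ∑ i, z i * (f i : ℝ)
        fun_prop
      · exact (hFδ x hx).1)
  obtain ⟨δ0, hδ0, hδ0t⟩ : ∃ δ0 : ℝ, 0 < δ0 ∧ ∀ x ∈ t, δ0 ≤ δ x := by
    by_cases hne' : t.Nonempty
    · obtain ⟨x0, hx0, hmin⟩ := Finset.exists_min_image t δ hne'
      exact ⟨δ x0, hδ x0, hmin⟩
    · rw [Finset.not_nonempty_iff_eq_empty] at hne'
      exact ⟨1, one_pos, by simp [hne']⟩
  obtain ⟨D2, hD2⟩ : ∃ D2 : ℝ, ∀ x ∈ t, ∀ f ∈ F x, (nrm f : ℝ) ≤ D2 := by
    obtain ⟨M, hM⟩ := Finset.exists_le ((t.biUnion F).image fun f => (nrm f : ℝ))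
    exact ⟨M, fun x hx f hf => hM _ (Finset.mem_image_of_mem _
      (Finset.mem_biUnion.mpr ⟨x, hx, hf⟩))⟩
  obtain ⟨R, hR⟩ := exists_nat_gt ((max D2 0 / (2 * δ0)) ^ 2)
  have hstep : ∀ n : ℕ, ∀ e : Fin r → ℤ, nrm e = n → ∀ g : G,
      ρ g = ε (Multiplicative.ofAdd e) →
      g • w ∈ (tr ρ ε {u | nrm u ≤ R} w : Submodule K A) := by
    intro n
    induction n using Nat.strong_induction_on with
    | _ n ih =>
    intro e he g hg
    by_cases hle : nrm e ≤ R
    · exact tr_gen hle hg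
    push Not at hle
    have hpos : (0 : ℝ) < nrm e := by
      have : 0 < nrm e := by omega
      exact_mod_cast this
    set s := Real.sqrt (nrm e) with hs'
    have hs0 : 0 < s := Real.sqrt_pos.mpr hpos
    have hss : s * s = nrm e := Real.mul_self_sqrt hpos.le
    have hslarge : max D2 0 / (2 * δ0) < s := by
      apply Real.lt_sqrt_of_sq_lt
      refine hR.trans ?_
      exact_mod_cast hle
    let x : Fin r → ℝ := fun i => -(e i : ℝ) / s
    have hx : x ∈ Sp := by
      show ∑ i, (-(e i : ℝ) / s) ^ 2 = 1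
      have : ∀ i, (-(e i : ℝ) / s) ^ 2 = (e i : ℝ) ^ 2 / (s * s) := by
        intro i; rw [div_pow, neg_sq, sq s]
      rw [Finset.sum_congr rfl fun i _ => this i, ← Finset.sum_div, ← nrm_cast, hss]
      exact div_self hpos.ne'
    obtain ⟨xj, hxj, hxU⟩ : ∃ xj ∈ t, ∀ f ∈ F xj, δ xj < phi x f := by
      have := hcover hx
      simp only [Set.mem_iUnion, Set.mem_ofPred_eq] at this
      obtain ⟨xj, hxj, h3⟩ := this
      exact ⟨xj, hxj, h3⟩
    have hw := (hFδ xj (htS xj hxj)).2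
    have hlt : ∀ f ∈ F xj, nrm (e + f) < nrm e := by
      intro f hf
      have h1 := hxU f hf
      have h2 := hδ0t xj hxj
      have h3 := hD2 xj hxj f hf
      have h4 : phi x f = -(∑ i, (e i : ℝ) * (f i : ℝ)) / s := by
        rw [phi_apply, ← Finset.sum_neg_distrib, Finset.sum_div]
        exact Finset.sum_congr rfl fun i _ => by
          show -(e i : ℝ) / s * (f i : ℝ) = _
          ring
      have h5 : δ0 * s < -(∑ i, (e i : ℝ) * (f i : ℝ)) := by
        have h6 : δ0 < -(∑ i, (e i : ℝ) * (f i : ℝ)) / s := by rw [← h4]; linarith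
        exact (lt_div_iff₀ hs0).mp h6
      have h6 : (nrm (e + f) : ℝ) = nrm e + 2 * (∑ i, (e i : ℝ) * (f i : ℝ)) + nrm f := by
        rw [nrm_cast, nrm_cast, nrm_cast, Finset.mul_sum, ← Finset.sum_add_distrib,
          ← Finset.sum_add_distrib]
        refine Finset.sum_congr rfl fun i _ => ?_
        rw [Pi.add_apply]; push_cast; ring
      have h7 : D2 < 2 * δ0 * s := by
        have h8 : max D2 0 < s * (2 * δ0) := (div_lt_iff₀ (by linarith)).mp hslarge
        have h9 := le_max_left D2 0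
        linarith
      have h8 : (nrm (e + f) : ℝ) < nrm e := by rw [h6]; linarith
      exact_mod_cast h8
    have h1 := smul_tr_shift hs (F' := {u | ∃ f ∈ F xj, u = e + f}) hg
      (fun f hf => ⟨f, hf, rfl⟩) hw
    refine (tr_le (V := (tr ρ ε {u | nrm u ≤ R} w : Submodule K A)) ?_) h1
    rintro g' u ⟨f, hf, rfl⟩ hg'
    exact ih (nrm (e + f)) (by rw [← he]; exact hlt f hf) (e + f) rfl g' hg'
  have hle : (tr ρ ε Set.univ w : Submodule K A) ≤ tr ρ ε {u | nrm u ≤ R} w :=
    tr_le fun g v _ hg => hstep _ v rfl g hg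
  have := tr_fd hs hsc hρ (nrm_finite R) w
  exact Submodule.finiteDimensional_of_le hle

end

end Pool.Agent.Helper946.S4
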