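import Mathlib
import Pool.Agent.Helper294.HX.HCDefs

set_option autoImplicit false
set_option linter.unusedVariables false

namespace Pool.Agent.Helper946.HC

open Module


/-! job 14108 -/

theorem hl_sub {Q : Type} [Group Q] {n : ℕ} (h : HL Q n) (H : Subgroup Q) : HL H n := by
  intro F hF s hs
  refine h (fun i => (F i).map H.subtype) (fun i j hij => Subgroup.map_mono (hF hij)) s ?_
  intro i hi
  show ((F i).map H.subtype).relIndex ((F (i + 1)).map H.subtype) = 0
  rw [Subgroup.relIndex_map_map_of_injective _ _ H.subtype_injective]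
  exact hs i hi

/-! job 14109 -/

theorem hl_zero {Q : Type} [Group Q] (h : HL Q 0) : Finite Q := by
  by_contra hQ
  rw [not_finite_iff_infinite] at hQ
  have h1 := h (fun i => if i = 0 then ⊥ else ⊤) (by
    intro i j hij
    by_cases hi : i = 0
    · simp [hi]
    · have hj : j ≠ 0 := by omega
      simp [hi, hj]) {0} (by
    intro i hi
    rw [Finset.mem_singleton] at hi
    subst hi
    simp only [if_true, zero_add, one_ne_zero, if_false]
    rw [Subgroup.relIndex_top_right, Subgroup.index_bot]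
    exact Nat.card_eq_zero_of_infinite)
  simp at h1

/-! job 14110 -/

theorem hl_index {Q : Type} [Group Q] {n : ℕ} (h : HL Q n) (H : Subgroup Q) (hH : H.index = 0) :
    ∃ m < n, HL H m := by
  have key : ∀ K : ℕ → Subgroup H, Monotone K → ∀ s : Finset ℕ,
      (∀ i ∈ s, (K i).relIndex (K (i + 1)) = 0) → s.card + 1 ≤ n := by
    intro K hK s hs
    set N := s.sup id + 1 with hN
    have hsN : ∀ i ∈ s, i < N := fun i hi => Nat.lt_succ_of_le (Finset.le_sup (f := id) hi)
    have hNs : N ∉ s := fun hi => lt_irrefl _ (hsN N hi)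
    have hmono : Monotone (fun i => if i ≤ N then (K i).map H.subtype else (⊤ : Subgroup Q)) := by
      intro i j hij
      dsimp only
      by_cases hj : j ≤ N
      · rw [if_pos (hij.trans hj), if_pos hj]
        exact Subgroup.map_mono (hK hij)
      · rw [if_neg hj]
        exact le_top
    have := h (fun i => if i ≤ N then (K i).map H.subtype else (⊤ : Subgroup Q)) hmono
      (insert N s) (by
        intro i hi
        rw [Finset.mem_insert] at hi
        rcases hi with rfl | hi
        · rw [if_pos le_rfl, if_neg (by omega), Subgroup.relIndex_top_right]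
          have h1 : (K N).map H.subtype ≤ H := by
            rintro _ ⟨x, -, rfl⟩
            exact x.2
          have h2 := Subgroup.index_dvd_of_le h1
          rw [hH] at h2
          exact zero_dvd_iff.1 h2
        · have h1 := hsN i hi
          rw [if_pos h1.le, if_pos (Nat.succ_le_of_lt h1),
            Subgroup.relIndex_map_map_of_injective _ _ H.subtype_injective]
          exact hs i hi)
    rwa [Finset.card_insert_of_notMem hNs] at this
  have hn : 0 < n := by
    have := key (fun _ => ⊥) (fun _ _ _ => le_rfl) ∅ (by simp)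
    omega
  refine ⟨n - 1, by omega, fun K hK s hs => ?_⟩
  have := key K hK s hs
  omega

/-! job 14112 -/

theorem hl_quot {Q : Type} [Group Q] {n : ℕ} (h : HL Q n) (E : Subgroup Q) [E.Normal]
    (hE : Infinite E) : ∃ m < n, HL (Q ⧸ E) m := by
  have key : ∀ K : ℕ → Subgroup (Q ⧸ E), Monotone K → ∀ s : Finset ℕ,
      (∀ i ∈ s, (K i).relIndex (K (i + 1)) = 0) → s.card + 1 ≤ n := by
    intro K hK s hs
    have hker : ∀ i, E ≤ (K i).comap (QuotientGroup.mk' E) := by
      intro i x hx
      rw [Subgroup.mem_comap]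
      have : QuotientGroup.mk' E x = 1 := by
        rw [← MonoidHom.mem_ker, QuotientGroup.ker_mk']
        exact hx
      rw [this]
      exact (K i).one_mem
    let H : ℕ → Subgroup Q := fun i => match i with
      | 0 => ⊥
      | (i + 1) => (K i).comap (QuotientGroup.mk' E)
    have hH : Monotone H := by
      apply monotone_nat_of_le_succ
      intro i
      rcases i with _ | i
      · exact bot_le
      · exact Subgroup.comap_mono (hK (Nat.le_succ i))
    have hj : ∀ i ∈ insert 0 (s.map ⟨Nat.succ, Nat.succ_injective⟩),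
        (H i).relIndex (H (i + 1)) = 0 := by
      intro i hi
      rcases i with _ | i
      · change (⊥ : Subgroup Q).relIndex ((K 0).comap (QuotientGroup.mk' E)) = 0
        rw [Subgroup.relIndex_bot_left]
        have : Infinite ((K 0).comap (QuotientGroup.mk' E)) :=
          Infinite.of_injective (Subgroup.inclusion (hker 0)) (Subgroup.inclusion_injective _)
        exact Nat.card_eq_zero_of_infinite
      · have hi' : i ∈ s := by
          simp only [Finset.mem_insert, Finset.mem_map, Function.Embedding.coeFn_mk] at hi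
          rcases hi with hi | ⟨a, ha, hai⟩
          · omega
          · have : a = i := by simpa using hai
            rwa [← this]
        change ((K i).comap (QuotientGroup.mk' E)).relIndex
          ((K (i + 1)).comap (QuotientGroup.mk' E)) = 0
        rw [Subgroup.relIndex_comap, Subgroup.map_comap_eq_self_of_surjective
          (QuotientGroup.mk'_surjective E)]
        exact hs i hi'
    have := h H hH _ hj
    rw [Finset.card_insert_of_notMem, Finset.card_map] at this
    · exact this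
    · simp
  have hn : 1 ≤ n := by
    have := key (fun _ => ⊥) monotone_const ∅ (by simp)
    simpa using this
  refine ⟨n - 1, by omega, fun K hK s hs => ?_⟩
  have := key K hK s hs
  omega

/-! job 14113 -/

theorem pc_sub {Q : Type} [Group Q] (h : PC Q) (H : Subgroup Q) : PC H := by
  obtain ⟨h1, h2⟩ := h
  have : Group.IsSolvable Q := h1
  refine ⟨Group.isSolvable_of_isSolvable_injective (f := H.subtype) H.subtype_injective,
    fun K => ?_⟩
  have h3 : Group.FG (K.map H.subtype) := (Group.fg_iff_subgroup_fg _).2 (h2 _)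
  rw [← Group.fg_iff_subgroup_fg]
  exact Group.fg_of_surjective (f := (K.equivMapOfInjective H.subtype
    H.subtype_injective).symm.toMonoidHom) (K.equivMapOfInjective H.subtype
    H.subtype_injective).symm.surjective

/-! job 14115 -/

theorem pc_surj {Q Q' : Type} [Group Q] [Group Q'] (h : PC Q) (f : Q →* Q')
    (hf : Function.Surjective f) : PC Q' := by
  obtain ⟨h1, h2⟩ := h
  have h1' : Group.IsSolvable Q := h1
  have h3 : Group.IsSolvable Q' := Group.isSolvable_of_surjective hf
  refine ⟨h3, fun H => ?_⟩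
  have e : (H.comap f).map f = H := Subgroup.map_comap_eq_self_of_surjective hf H
  rw [← e]
  obtain ⟨S, hS⟩ := h2 (H.comap f)
  classical
  refine ⟨S.image f, ?_⟩
  rw [Finset.coe_image, ← MonoidHom.map_closure, hS]

/-! job 14111 -/

/-- abelian case with conjugation -/
theorem plinth_pre_ab {Q : Type} [Group Q] (Z : Subgroup Q) (hZn : Z.Normal)
    (hcomm : ∀ a ∈ Z, ∀ b ∈ Z, a * b = b * a) (hfg : Z.FG) (hinf : Infinite Z) :
    ∃ (r : ℕ) (ε : Multiplicative (Fin r → ℤ) →* Q), 0 < r ∧ Function.Injective ε ∧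
      ε.range.Normal := by
  classical
  letI : CommGroup Z := { (inferInstance : Group Z) with
    mul_comm := fun a b => Subtype.ext (hcomm a.1 a.2 b.1 b.2) }
  haveI : Group.FG Z := (Group.fg_iff_subgroup_fg Z).2 hfg
  haveI : AddGroup.FG (Additive Z) := inferInstance
  obtain ⟨r, ι, _, p, hp, e, ⟨f⟩⟩ := AddCommGroup.equiv_free_prod_directSum_zmod (Additive Z)
  set m : ℕ := ∏ i, p i ^ e i with hm
  have hm0 : 0 < m := Finset.prod_pos (fun i _ => pow_pos (hp i).pos _)
  have hkill : ∀ d : DirectSum ι (fun i => ZMod (p i ^ e i)), m • d = 0 := by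
    intro d
    refine DFinsupp.ext (fun i => ?_)
    have h1 : (m • d) i = m • (d i) := rfl
    rw [h1, nsmul_eq_mul]
    have h2 : ((m : ℕ) : ZMod (p i ^ e i)) = 0 := by
      rw [ZMod.natCast_eq_zero_iff]
      exact Finset.dvd_prod_of_mem _ (Finset.mem_univ i)
    rw [h2, zero_mul]
    rfl
  let g : (Fin r → ℤ) →+ Additive Z :=
    { toFun := fun v => m • f.symm (Finsupp.equivFunOnFinite.symm v, 0)
      map_zero' := by
        have : (Finsupp.equivFunOnFinite.symm (0 : Fin r → ℤ), (0 : DirectSum ι (fun i => ZMod (p i ^ e i))))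
            = 0 := by
          ext <;> rfl
        rw [this, map_zero, nsmul_zero]
      map_add' := by
        intro u v
        rw [← nsmul_add, ← map_add]
        congr 2
        ext <;> simp }
  have hginj : Function.Injective g := by
    rw [injective_iff_map_eq_zero]
    intro v hv
    have h1 : m • f.symm (Finsupp.equivFunOnFinite.symm v, 0) = 0 := hv
    rw [← map_nsmul] at h1
    have h2 := (EmbeddingLike.map_eq_zero_iff).1 h1
    have h3 := congrArg Prod.fst h2
    funext i
    have h4 := DFunLike.congr_fun h3 i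
    have h5 : (m : ℤ) * v i = 0 := by
      simpa using h4
    rcases mul_eq_zero.1 h5 with h | h
    · exfalso; have : m = 0 := by exact_mod_cast h
      omega
    · exact h
  have hgrange : ∀ z : Additive Z, ∃ v, g v = m • z := by
    intro z
    refine ⟨Finsupp.equivFunOnFinite (f z).1, ?_⟩
    show m • f.symm (Finsupp.equivFunOnFinite.symm (Finsupp.equivFunOnFinite (f z).1), 0) = m • z
    rw [Equiv.symm_apply_apply]
    apply f.injective
    rw [map_nsmul, map_nsmul, AddEquiv.apply_symm_apply]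
    refine Prod.ext rfl ?_
    show m • (0 : DirectSum ι (fun i => ZMod (p i ^ e i))) = m • (f z).2
    rw [hkill, hkill]
  let ε : Multiplicative (Fin r → ℤ) →* Q := Z.subtype.comp
    { toFun := fun v => Additive.toMul (g (Multiplicative.toAdd v))
      map_one' := by
        show Additive.toMul (g 0) = 1
        rw [map_zero]; rfl
      map_mul' := fun u v => by
        show Additive.toMul (g (Multiplicative.toAdd u + Multiplicative.toAdd v)) = _
        rw [map_add]; rfl }
  have hε : ∀ v, ε v = ((Additive.toMul (g (Multiplicative.toAdd v)) : Z) : Q) := fun v => rfl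
  have hεr : ∀ q : Q, q ∈ ε.range ↔ ∃ z : Z, q = (z : Q) ^ m := by
    intro q
    constructor
    · rintro ⟨v, rfl⟩
      refine ⟨Additive.toMul (f.symm (Finsupp.equivFunOnFinite.symm (Multiplicative.toAdd v), 0)), ?_⟩
      rw [hε]
      rfl
    · rintro ⟨z, rfl⟩
      obtain ⟨v, hv⟩ := hgrange (Additive.ofMul z)
      refine ⟨Multiplicative.ofAdd v, ?_⟩
      rw [hε]
      show ((Additive.toMul (g v) : Z) : Q) = _
      rw [hv]
      rfl
  refine ⟨r, ε, ?_, ?_, ?_⟩
  · rw [Nat.pos_iff_ne_zero]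
    rintro rfl
    have htor : Monoid.IsTorsion Z := by
      intro z
      rw [isOfFinOrder_iff_pow_eq_one]
      refine ⟨m, hm0, ?_⟩
      obtain ⟨v, hv⟩ := hgrange (Additive.ofMul z)
      have hv0 : v = 0 := Subsingleton.elim _ _
      rw [hv0, map_zero] at hv
      exact hv.symm
    have := CommGroup.finite_of_fg_torsion Z htor
    exact not_finite Z
  · intro u v huv
    rw [hε, hε] at huv
    have h1 := hginj (Additive.toMul.injective (Subtype.ext huv))
    exact Multiplicative.toAdd.injective h1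
  · constructor
    intro q hq x
    rw [hεr] at hq ⊢
    obtain ⟨z, rfl⟩ := hq
    refine ⟨⟨x * z * x⁻¹, hZn.conj_mem z z.2 x⟩, ?_⟩
    show x * (z : Q) ^ m * x⁻¹ = (x * z * x⁻¹) ^ m
    rw [conj_pow]

/-- an infinite polycyclic group has a nontrivial free abelian normal subgroup. -/
theorem plinth_pre {Q : Type} [Group Q] (h : PC Q) (hinf : Infinite Q) :
    ∃ (r : ℕ) (ε : Multiplicative (Fin r → ℤ) →* Q), 0 < r ∧ Function.Injective ε ∧
      ε.range.Normal := by
  classical
  obtain ⟨hsol, hfg⟩ := h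
  obtain ⟨n, hn⟩ := hsol
  have hex : ∃ k, Infinite (derivedSeries Q k) ∧ Finite (derivedSeries Q (k + 1)) := by
    by_contra hcon
    push Not at hcon
    have hall : ∀ k, Infinite (derivedSeries Q k) := by
      intro k
      induction k with
      | zero =>
        rw [derivedSeries_zero]
        exact Infinite.of_injective (fun q : Q => (⟨q, Subgroup.mem_top q⟩ : (⊤ : Subgroup Q)))
          (fun a b hab => congrArg Subtype.val hab)
      | succ k ih =>
        exact hcon k ih
    have := hall n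
    rw [hn] at this
    exact not_finite (⊥ : Subgroup Q)
  obtain ⟨k, hk, hk1⟩ := hex
  set N := derivedSeries Q k with hN
  have hNn : N.Normal := derivedSeries_normal Q k
  haveI : Group.FG N := (Group.fg_iff_subgroup_fg N).2 (hfg N)
  haveI : Finite (commutatorSet N) := by
    have hsub : ∀ x : commutatorSet N, ((x : N) : Q) ∈ derivedSeries Q (k + 1) := by
      rintro ⟨x, a, b, rfl⟩
      rw [derivedSeries_succ]
      exact Subgroup.commutator_mem_commutator a.2 b.2
    exact Finite.of_injective (fun x : commutatorSet N =>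
      (⟨((x : N) : Q), hsub x⟩ : derivedSeries Q (k + 1))) (by
        intro a b hab
        have := congrArg Subtype.val hab
        exact Subtype.ext (Subtype.ext this))
  have hfi : (Subgroup.center N).FiniteIndex := inferInstance
  have hZinf : Infinite (Subgroup.center N) := by
    rw [← not_finite_iff_infinite]
    intro hfin
    have : Finite N := by
      apply Nat.finite_of_card_ne_zero
      rw [← Subgroup.card_mul_index (Subgroup.center N)]
      exact mul_ne_zero Nat.card_pos.ne' hfi.index_ne_zero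
    exact not_finite N
  have hZnormal : ((Subgroup.center N).map N.subtype).Normal :=
    ConjAct.normal_of_characteristic_of_normal
  refine plinth_pre_ab ((Subgroup.center N).map N.subtype) hZnormal ?_ (hfg _) ?_
  · rintro a ⟨a', ha', rfl⟩ b ⟨b', hb', rfl⟩
    rw [← map_mul, ← map_mul]
    congr 1
    exact ((Subgroup.mem_center_iff.1 ha') b').symm
  · exact Infinite.of_injective (fun z : Subgroup.center N =>
      (⟨((z : N) : Q), ⟨z.1, z.2, rfl⟩⟩ : (Subgroup.center N).map N.subtype))
      (fun a b hab => by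
        have := congrArg Subtype.val hab
        exact Subtype.ext (Subtype.ext this))

/-! job 14116 -/

theorem iter_mod3 {E : Type} [AddCommGroup E] (M : E →+ E) (hM : ∀ v, ∃ w, M v = v + 3 • w) (i : ℕ)
    (v : E) : ∃ w, (⇑M)^[i] v = v + 3 • w := by
  induction i with
  | zero => exact ⟨0, by simp⟩
  | succ i ih =>
    obtain ⟨w, hw⟩ := ih
    obtain ⟨w', hw'⟩ := hM ((⇑M)^[i] v)
    refine ⟨w + w', ?_⟩
    rw [Function.iterate_succ_apply', hw', hw, smul_add, add_assoc]

theorem iter_nsmul {E : Type} [AddCommGroup E] (M : E →+ E) (i k : ℕ) (v : E) :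
    (⇑M)^[i] (k • v) = k • (⇑M)^[i] v := by
  induction i with
  | zero => rfl
  | succ i ih => rw [Function.iterate_succ_apply', Function.iterate_succ_apply', ih, map_nsmul]

theorem mink_prime {E : Type} [AddCommGroup E] (htf : ∀ (n : ℕ) (v : E), 0 < n → n • v = 0 → v = 0)
    (hres : ∀ v : E, (∀ k : ℕ, ∃ w : E, v = (3 ^ k : ℕ) • w) → v = 0)
    (M : E →+ E) (hM : ∀ v, ∃ w, M v = v + 3 • w) (q : ℕ) (hq : q.Prime) (v : E)
    (hv : (⇑M)^[q] v = v) : M v = v := by
  -- divisibility step
  have step : ∀ d : E, ∑ i ∈ Finset.range q, (⇑M)^[i] d = 0 → ∃ d' : E, d = 3 • d' := by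
    intro d hd
    by_cases h3 : q = 3
    · subst h3
      rw [Finset.sum_range_succ, Finset.sum_range_succ, Finset.sum_range_succ, Finset.sum_range_zero,
        zero_add] at hd
      obtain ⟨e, he⟩ := hM d
      obtain ⟨f, hf⟩ := hM e
      have h1 : (⇑M)^[0] d = d := rfl
      have h2 : (⇑M)^[1] d = d + 3 • e := he
      have h4 : (⇑M)^[2] d = d + 3 • e + 3 • (e + 3 • f) := by
        show M (M d) = _
        rw [he, map_add, map_nsmul, he, hf]
      rw [h1, h2, h4] at hd
      refine ⟨-(e + f), ?_⟩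
      have h5 : 3 • (d - 3 • (-(e + f))) = 0 := by
        rw [← hd]
        module
      exact sub_eq_zero.1 (htf 3 _ (by norm_num) h5)
    · have hco : Nat.Coprime q 3 := (Nat.coprime_primes hq Nat.prime_three).2 h3
      choose e he using fun i => iter_mod3 M hM i d
      have h1 : ∑ i ∈ Finset.range q, (⇑M)^[i] d = q • d + 3 • ∑ i ∈ Finset.range q, e i := by
        rw [Finset.sum_congr rfl (fun i _ => he i), Finset.sum_add_distrib, Finset.sum_const,
          Finset.card_range, Finset.smul_sum]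
      rw [h1] at hd
      have h2 : (q : ℤ) * q.gcdA 3 + (3 : ℕ) * q.gcdB 3 = 1 := by
        rw [← Nat.gcd_eq_gcd_ab, hco]; rfl
      set S := ∑ i ∈ Finset.range q, e i
      refine ⟨(- q.gcdA 3) • S + q.gcdB 3 • d, ?_⟩
      have h3' : (q : ℤ) • d = - ((3 : ℤ) • S) := by
        have : (q : ℤ) • d + (3 : ℤ) • S = 0 := by
          rw [← hd]
          push_cast [← natCast_zsmul]
          rfl
        exact eq_neg_of_add_eq_zero_left this
      have h4 : d = ((q : ℤ) * q.gcdA 3 + (3 : ℕ) * q.gcdB 3) • d := by rw [h2, one_smul]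
      calc d = ((q : ℤ) * q.gcdA 3 + (3 : ℕ) * q.gcdB 3) • d := h4
        _ = (q.gcdA 3) • ((q : ℤ) • d) + (3 : ℤ) • ((q.gcdB 3) • d) := by push_cast; module
        _ = _ := by rw [h3']; module
  have hall : ∀ k : ℕ, ∃ w : E, M v - v = (3 ^ k : ℕ) • w ∧ ∑ i ∈ Finset.range q, (⇑M)^[i] w = 0 := by
    intro k
    induction k with
    | zero =>
      refine ⟨M v - v, by simp, ?_⟩
      have h1 : ∀ i, (⇑M)^[i] (M v - v) = (⇑M)^[i + 1] v - (⇑M)^[i] v := by
        intro i
        rw [iterate_map_sub, Function.iterate_succ_apply]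
      rw [Finset.sum_congr rfl (fun i _ => h1 i), Finset.sum_range_sub (fun i => (⇑M)^[i] v), hv]
      simp
    | succ k ih =>
      obtain ⟨w, hw, hs⟩ := ih
      obtain ⟨w', hw'⟩ := step w hs
      refine ⟨w', ?_, ?_⟩
      · rw [hw, hw', smul_smul, pow_succ]
      · apply htf 3 _ (by norm_num)
        rw [← hs, Finset.smul_sum]
        apply Finset.sum_congr rfl
        intro i _
        rw [hw', iter_nsmul]
  have := hres (M v - v) (fun k => by
    obtain ⟨w, hw, -⟩ := hall k
    exact ⟨w, hw⟩)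
  exact sub_eq_zero.1 this

/-- Minkowski: periodic points of a map congruent to the identity mod 3 are fixed. -/
theorem mink {E : Type} [AddCommGroup E] (htf : ∀ (n : ℕ) (v : E), 0 < n → n • v = 0 → v = 0)
    (hres : ∀ v : E, (∀ k : ℕ, ∃ w : E, v = (3 ^ k : ℕ) • w) → v = 0)
    (M : E →+ E) (hM : ∀ v, ∃ w, M v = v + 3 • w) (n : ℕ) (hn : 0 < n) (v : E)
    (hv : (⇑M)^[n] v = v) : M v = v := by
  revert v
  induction n using Nat.strong_induction_on with
  | _ n ih =>
    intro v hv
    by_cases h1 : n = 1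
    · subst h1
      exact hv
    · have hq : (n.minFac).Prime := Nat.minFac_prime h1
      obtain ⟨m, hm⟩ := Nat.minFac_dvd n
      have hm0 : 0 < m := by
        rcases Nat.eq_zero_or_pos m with h | h
        · rw [h, mul_zero] at hm; omega
        · exact h
      have hmn : m < n := by
        have := hq.two_le
        calc m < 2 * m := by omega
          _ ≤ n.minFac * m := Nat.mul_le_mul_right _ this
          _ = n := hm.symm
      let M' : E →+ E := AddMonoidHom.mk' ((⇑M)^[m]) (iterate_map_add M m)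
      have hM' : ∀ v, ∃ w, M' v = v + 3 • w := fun v => iter_mod3 M hM m v
      have h2 : (⇑M')^[n.minFac] v = v := by
        show ((⇑M)^[m])^[n.minFac] v = v
        rw [← Function.iterate_mul, mul_comm, ← hm]
        exact hv
      have h3 : (⇑M)^[m] v = v := mink_prime htf hres M' hM' n.minFac hq v h2
      exact ih m hmn hm0 v h3

/-! job 14125 -/

theorem fix_exp_perm {A : Type} [Finite A] (f : A → A) (hf : Function.Injective f) (x : A) :
    f^[Nat.card (Equiv.Perm A)] x = x := by
  have hb : Function.Bijective f := Finite.injective_iff_bijective.1 hf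
  have e : f = ⇑(Equiv.ofBijective f hb) := rfl
  rw [e, Equiv.Perm.iterate_eq_pow, pow_card_eq_one']
  rfl

/-- periodic points of automorphisms of a finitely generated abelian group have bounded period. -/
theorem fix_exp (E : Type) [AddCommGroup E] [Module.Finite ℤ E] :
    ∃ k : ℕ, 0 < k ∧ ∀ (l : E ≃+ E) (x : E), (∃ n : ℕ, 0 < n ∧ (⇑l)^[n] x = x) →
      (⇑l)^[k] x = x := by
  classical
  let T : Submodule ℤ E := Submodule.torsion ℤ E
  have hTf : Finite T := Module.finite_of_fg_torsion T Submodule.torsion_isTorsion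
  let P : Submodule ℤ (E ⧸ T) := LinearMap.range (LinearMap.lsmul ℤ (E ⧸ T) 3)
  have hPmem : ∀ v : E ⧸ T, v ∈ P ↔ ∃ w : E ⧸ T, (3:ℤ) • w = v := by
    intro v
    constructor
    · rintro ⟨w, hw⟩
      exact ⟨w, hw⟩
    · rintro ⟨w, hw⟩
      exact ⟨w, hw⟩
  have hRtors : Module.IsTorsion ℤ ((E ⧸ T) ⧸ P) := by
    intro r
    obtain ⟨v, rfl⟩ := Submodule.Quotient.mk_surjective P r
    refine ⟨⟨3, mem_nonZeroDivisors_of_ne_zero (by norm_num)⟩, ?_⟩
    show (3:ℤ) • (Submodule.Quotient.mk v : (E ⧸ T) ⧸ P) = 0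
    rw [← Submodule.Quotient.mk_smul, Submodule.Quotient.mk_eq_zero]
    exact (hPmem _).2 ⟨v, rfl⟩
  have hRf : Finite ((E ⧸ T) ⧸ P) := Module.finite_of_fg_torsion _ hRtors
  set k1 : ℕ := Nat.card (Equiv.Perm ((E ⧸ T) ⧸ P)) with hk1
  set k2 : ℕ := Nat.card (Equiv.Perm T) with hk2
  have hk1p : 0 < k1 := Nat.card_pos
  have hk2p : 0 < k2 := Nat.card_pos
  refine ⟨k1 * k2, Nat.mul_pos hk1p hk2p, ?_⟩
  rintro l x ⟨n, hn, hx⟩
  let L : E →ₗ[ℤ] E := l.toAddMonoidHom.toIntLinearMap
  have hLapp : ∀ y, L y = l y := fun y => rfl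
  have hT1 : ∀ y, y ∈ T → L y ∈ T := by
    intro y hy
    obtain ⟨a, ha⟩ := (Submodule.mem_torsion_iff _).1 hy
    refine (Submodule.mem_torsion_iff _).2 ⟨a, ?_⟩
    have ha' : (a : ℤ) • y = 0 := ha
    show (a : ℤ) • L y = 0
    rw [← map_smul, ha', map_zero]
  have hT : T ≤ T.comap L := fun y hy => hT1 y hy
  let lQ : (E ⧸ T) →ₗ[ℤ] (E ⧸ T) := T.mapQ T L hT
  have hlQ : ∀ y : E, lQ (Submodule.Quotient.mk y) = Submodule.Quotient.mk (L y) :=
    fun y => Submodule.mapQ_apply _ _ _ _
  have hP1 : ∀ v, v ∈ P → lQ v ∈ P := by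
    intro v hv
    obtain ⟨w, rfl⟩ := (hPmem _).1 hv
    rw [map_smul]
    exact (hPmem _).2 ⟨lQ w, rfl⟩
  have hP : P ≤ P.comap lQ := fun y hy => hP1 y hy
  let f : ((E ⧸ T) ⧸ P) →ₗ[ℤ] ((E ⧸ T) ⧸ P) := P.mapQ P lQ hP
  have hf : ∀ v : E ⧸ T, f (Submodule.Quotient.mk v) = Submodule.Quotient.mk (lQ v) :=
    fun y => Submodule.mapQ_apply _ _ _ _
  have hfs : Function.Surjective f := by
    intro r
    obtain ⟨v, rfl⟩ := Submodule.Quotient.mk_surjective P r
    obtain ⟨y, rfl⟩ := Submodule.Quotient.mk_surjective T v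
    refine ⟨Submodule.Quotient.mk (Submodule.Quotient.mk (l.symm y)), ?_⟩
    rw [hf, hlQ, hLapp, AddEquiv.apply_symm_apply]
  have hfi : Function.Injective f := Finite.injective_iff_surjective.2 hfs
  have hfk : ∀ r, (⇑f)^[k1] r = r := fun r => fix_exp_perm f hfi r
  have hsemi : ∀ (m : ℕ) (y : E), (⇑lQ)^[m] (Submodule.Quotient.mk y) =
      Submodule.Quotient.mk ((⇑l)^[m] y) := by
    intro m
    induction m with
    | zero => intro y; rfl
    | succ m ih =>
      intro y
      rw [Function.iterate_succ_apply, Function.iterate_succ_apply, hlQ, ih]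
      rfl
  have hsemi2 : ∀ (m : ℕ) (v : E ⧸ T), (⇑f)^[m] (Submodule.Quotient.mk v) =
      Submodule.Quotient.mk ((⇑lQ)^[m] v) := by
    intro m
    induction m with
    | zero => intro y; rfl
    | succ m ih =>
      intro y
      rw [Function.iterate_succ_apply, Function.iterate_succ_apply, hf, ih]
  let M : (E ⧸ T) →+ (E ⧸ T) := (lQ ^ k1).toAddMonoidHom
  have hMapp : ∀ v, M v = (⇑lQ)^[k1] v := fun v => Module.End.pow_apply lQ k1 v
  have hMfun : ⇑M = (⇑lQ)^[k1] := funext hMapp
  have hM : ∀ v, ∃ w, M v = v + 3 • w := by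
    intro v
    have h1 := hsemi2 k1 v
    rw [hfk, eq_comm, Submodule.Quotient.eq] at h1
    obtain ⟨w, hw⟩ := (hPmem _).1 h1
    refine ⟨w, ?_⟩
    rw [hMapp, ← sub_eq_iff_eq_add', ← hw]
    exact (natCast_zsmul w 3).symm ▸ rfl
  have htf : ∀ (n : ℕ) (v : E ⧸ T), 0 < n → n • v = 0 → v = 0 := by
    intro m v hm hv
    have h1 : (m : ℤ) • v = 0 := by rw [natCast_zsmul]; exact hv
    rcases smul_eq_zero.1 h1 with h | h
    · exact absurd h (by exact_mod_cast hm.ne')
    · exact h
  have hres : ∀ v : E ⧸ T, (∀ k : ℕ, ∃ w : E ⧸ T, v = (3 ^ k : ℕ) • w) → v = 0 := by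
    intro v hv
    have : Module.Free ℤ (E ⧸ T) := inferInstance
    let b := Module.Free.chooseBasis ℤ (E ⧸ T)
    apply b.repr.injective
    rw [map_zero]
    ext i
    rw [Finsupp.zero_apply]
    set c : ℤ := b.repr v i with hc
    obtain ⟨w, hw⟩ := hv c.natAbs
    have h1 : c = (3 ^ c.natAbs : ℕ) * b.repr w i := by
      conv_lhs => rw [hc, hw]
      rw [map_nsmul, Finsupp.smul_apply, nsmul_eq_mul]
    apply Int.eq_zero_of_abs_lt_dvd (m := ((3 ^ c.natAbs : ℕ) : ℤ)) ⟨_, h1⟩
    rw [Int.abs_eq_natAbs]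
    exact_mod_cast Nat.lt_pow_self (by norm_num)
  have hfix : M (Submodule.Quotient.mk x) = Submodule.Quotient.mk x := by
    apply mink htf hres M hM n hn
    rw [hMfun, ← Function.iterate_mul, mul_comm, Function.iterate_mul]
    have h1 : (⇑lQ)^[n] (Submodule.Quotient.mk x) = Submodule.Quotient.mk x := by
      rw [hsemi, hx]
    exact Function.iterate_fixed h1 k1
  rw [hMapp, hsemi, Submodule.Quotient.eq] at hfix
  -- now the torsion part
  set a : E → E := (⇑l)^[k1] with ha
  have hainj : Function.Injective a := l.injective.iterate k1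
  have haadd : ∀ y z, a (y + z) = a y + a z := by
    intro y z
    rw [ha]
    clear_value k1
    clear * -
    induction k1 generalizing y z with
    | zero => rfl
    | succ m ih => rw [Function.iterate_succ_apply, Function.iterate_succ_apply,
        Function.iterate_succ_apply, map_add, ih]
  have haT : ∀ t ∈ T, a t ∈ T := by
    intro t ht
    rw [ha]
    clear_value k1
    clear * - ht hT1 hLapp
    induction k1 generalizing t with
    | zero => exact ht
    | succ m ih => rw [Function.iterate_succ_apply]; exact ih _ (hT1 t ht)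
  let φ : T → T := fun t => ⟨(a x - x) + a t, T.add_mem hfix (haT t t.2)⟩
  have hφi : Function.Injective φ := by
    intro s t hst
    have h1 : (a x - x) + a s = (a x - x) + a t := congrArg Subtype.val hst
    exact Subtype.ext (hainj (add_left_cancel h1))
  have hφ : ∀ (m : ℕ) (t : T), (((φ^[m] t : T) : E)) = a^[m] (x + t) - x := by
    intro m
    induction m with
    | zero => intro t; simp
    | succ m ih =>
      intro t
      rw [Function.iterate_succ_apply, Function.iterate_succ_apply, ih]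
      have : x + ((φ t : T) : E) = a (x + t) := by
        show x + ((a x - x) + a t) = a (x + t)
        rw [haadd]; abel
      rw [this]
  have h2 := hφ k2 0
  rw [fix_exp_perm φ hφi 0] at h2
  rw [Function.iterate_mul]
  have h3 : a^[k2] (x + ((0:T):E)) - x = 0 := by rw [← h2]; rfl
  rw [sub_eq_zero] at h3
  simpa using h3

/-! job 14114 -/

theorem norm_exp_iter {E : Type} [AddCommGroup E] (l : E ≃+ E) (x : E) (a : ℕ)
    (h : (⇑l)^[a] x = x) (b : ℕ) : (⇑l)^[a * b] x = x := by
  induction b with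
  | zero => simp
  | succ b ih => rw [Nat.mul_succ, Function.iterate_add_apply, h, ih]

theorem norm_exp_sum {E : Type} [AddCommGroup E] (l : E ≃+ E) (x : E) (a : ℕ)
    (h : (⇑l)^[a] x = x) (b : ℕ) :
    ∑ i ∈ Finset.range (a * b), (⇑l)^[i] x = b • ∑ i ∈ Finset.range a, (⇑l)^[i] x := by
  induction b with
  | zero => simp
  | succ b ih =>
    rw [Nat.mul_succ, Finset.sum_range_add, ih, succ_nsmul]
    congr 1
    apply Finset.sum_congr rfl
    intro i _
    rw [add_comm (a * b) i, Function.iterate_add_apply, norm_exp_iter l x a h]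

theorem norm_exp_tors (E : Type) [AddCommGroup E] [Module.Finite ℤ E] :
    ∃ t : ℕ, 0 < t ∧ ∀ (y : E) (n : ℕ), 0 < n → n • y = 0 → t • y = 0 := by
  have hN : IsNoetherian ℤ E := isNoetherian_of_isNoetherianRing_of_finite ℤ E
  have hfin : Finite (Submodule.torsion ℤ E) :=
    Module.finite_of_fg_torsion _ (Submodule.torsion_isTorsion)
  refine ⟨Nat.card (Submodule.torsion ℤ E), Nat.card_pos, ?_⟩
  intro y n hn hy
  have hmem : y ∈ Submodule.torsion ℤ E := by
    rw [Submodule.mem_torsion_iff]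
    refine ⟨⟨(n : ℤ), mem_nonZeroDivisors_of_ne_zero (by exact_mod_cast hn.ne')⟩, ?_⟩
    show (n : ℤ) • y = 0
    rw [natCast_zsmul, hy]
  have h1 : Nat.card (Submodule.torsion ℤ E) • (⟨y, hmem⟩ : Submodule.torsion ℤ E) = 0 :=
    card_nsmul_eq_zero'
  exact congrArg Subtype.val h1

theorem norm_exp (E : Type) [AddCommGroup E] [Module.Finite ℤ E] :
    ∃ k : ℕ, 0 < k ∧ ∀ (l : E ≃+ E) (x : E),
      (∃ n : ℕ, 0 < n ∧ ∑ i ∈ Finset.range n, (⇑l)^[i] x = 0) →
      ∑ i ∈ Finset.range k, (⇑l)^[i] x = 0 := by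
  obtain ⟨k0, hk0, hfix⟩ := fix_exp E
  obtain ⟨t, ht, htors⟩ := norm_exp_tors E
  refine ⟨k0 * t, Nat.mul_pos hk0 ht, ?_⟩
  rintro l x ⟨n, hn, hsum⟩
  have h1 : (⇑l)^[n] x = x := by
    have e1 : ∑ i ∈ Finset.range n, (⇑l)^[i + 1] x = 0 := by
      have : ∀ i, (⇑l)^[i + 1] x = l ((⇑l)^[i] x) := fun i => Function.iterate_succ_apply' _ _ _
      simp only [this]
      rw [← map_sum, hsum, map_zero]
    have e2 := Finset.sum_range_succ (fun i => (⇑l)^[i] x) n
    have e3 := Finset.sum_range_succ' (fun i => (⇑l)^[i] x) n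
    rw [e2, hsum, e1] at e3
    simpa using e3
  have h2 := hfix l x ⟨n, hn, h1⟩
  have h3 := norm_exp_sum l x n h1 k0
  have h4 := norm_exp_sum l x k0 h2 n
  rw [hsum, smul_zero] at h3
  rw [mul_comm, h3] at h4
  rw [norm_exp_sum l x k0 h2 t]
  exact htors _ n hn h4.symm

/-! job 14117 -/

theorem iso_exp_aux (n : ℕ) : ∀ (Q : Type) [Group Q], PC Q → derivedSeries Q n = ⊥ →
    ∀ L : Subgroup Q, ∃ e : ℕ, 0 < e ∧ ∀ v : Q, (∃ n : ℕ, 0 < n ∧ v ^ n ∈ L) → v ^ e ∈ L := by
  induction n with
  | zero =>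
    intro Q _ _ hd L
    refine ⟨1, one_pos, ?_⟩
    intro v _
    have hv : v ∈ (⊥ : Subgroup Q) := by
      rw [← hd]; simp
    rw [Subgroup.mem_bot] at hv
    rw [hv]
    simp [L.one_mem]
  | succ n ih =>
    intro Q _ hPC hd L
    set A : Subgroup Q := derivedSeries Q n with hA
    have hAn : A.Normal := derivedSeries_normal Q n
    -- the quotient
    have hdq : derivedSeries (Q ⧸ A) n = ⊥ := by
      have h1 := map_derivedSeries_eq (f := QuotientGroup.mk' A) (QuotientGroup.mk'_surjective A) n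
      rw [← h1, ← hA]
      exact QuotientGroup.map_mk'_self A
    obtain ⟨e₁, he₁, hE₁⟩ := ih (Q ⧸ A) (pc_surj hPC (QuotientGroup.mk' A)
      (QuotientGroup.mk'_surjective A)) hdq (L.map (QuotientGroup.mk' A))
    -- commutativity of A
    have hcomm : ∀ x y : A, x * y = y * x := by
      intro x y
      have h1 := Subgroup.commutator_mem_commutator x.2 y.2
      have h2 : ⁅A, A⁆ = ⊥ := by
        rw [← hd]; rfl
      rw [h2, Subgroup.mem_bot, commutatorElement_eq_one_iff_mul_comm] at h1
      exact Subtype.ext h1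
    letI iA : CommGroup A := { (inferInstance : Group A) with mul_comm := hcomm }
    set B : Subgroup A := L.subgroupOf A with hB
    haveI hfgA : Group.FG A := (Group.fg_iff_subgroup_fg A).mpr (hPC.2 A)
    haveI : Group.FG (A ⧸ B) := QuotientGroup.fg B
    haveI : Module.Finite ℤ (Additive (A ⧸ B)) := by
      rw [Module.Finite.iff_addGroup_fg]
      exact GroupFG.iff_add_fg.mp inferInstance
    obtain ⟨k, hk, hK⟩ := norm_exp (Additive (A ⧸ B))
    refine ⟨e₁ * k, Nat.mul_pos he₁ hk, ?_⟩
    rintro v ⟨m, hm, hvm⟩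
    have h3 : (QuotientGroup.mk' A v) ^ e₁ ∈ L.map (QuotientGroup.mk' A) := by
      apply hE₁
      refine ⟨m, hm, ?_⟩
      rw [← map_pow]
      exact Subgroup.mem_map_of_mem _ hvm
    rw [← map_pow] at h3
    obtain ⟨l, hl, hlv⟩ := h3
    have h4 : l⁻¹ * v ^ e₁ ∈ A := by
      rw [← QuotientGroup.eq]
      exact hlv
    set a : A := ⟨l⁻¹ * v ^ e₁, h4⟩ with ha
    have hva : v ^ e₁ = l * a := by simp [ha]
    -- conjugation
    let cj : A ≃* A := MulAut.conjNormal l⁻¹
    have hcj : ∀ x : A, ((cj x : A) : Q) = l⁻¹ * x * l := by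
      intro x
      simp [cj, MulAut.conjNormal_apply]
    have hcB : B.map cj.toMonoidHom = B := by
      ext x
      constructor
      · rintro ⟨y, hy, rfl⟩
        rw [hB, Subgroup.mem_subgroupOf]
        have hy' : (y : Q) ∈ L := Subgroup.mem_subgroupOf.mp hy
        change ((cj y : A) : Q) ∈ L
        rw [hcj]
        exact L.mul_mem (L.mul_mem (L.inv_mem hl) hy') hl
      · intro hx
        have hx' : (x : Q) ∈ L := Subgroup.mem_subgroupOf.mp hx
        refine ⟨cj.symm x, ?_, ?_⟩
        · change cj.symm x ∈ L.subgroupOf A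
          rw [Subgroup.mem_subgroupOf]
          have h5 := hcj (cj.symm x)
          rw [MulEquiv.apply_symm_apply] at h5
          have h6 : ((cj.symm x : A) : Q) = l * x * l⁻¹ := by
            rw [h5]; group
          rw [h6]
          exact L.mul_mem (L.mul_mem hl hx') (L.inv_mem hl)
        · simp
    let c : (A ⧸ B) ≃* (A ⧸ B) := QuotientGroup.congr B B cj hcB
    let c' : Additive (A ⧸ B) ≃+ Additive (A ⧸ B) := MulEquiv.toAdditive c
    let P : ℕ → A := fun i => Nat.rec 1 (fun _ p => cj p * a) i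
    have hP0 : P 0 = 1 := rfl
    have hPs : ∀ i, P (i + 1) = cj (P i) * a := fun i => rfl
    have hpow : ∀ i : ℕ, (l * (a : Q)) ^ i = l ^ i * A.subtype (P i) := by
      intro i
      induction i with
      | zero => simp [hP0]
      | succ i ihi =>
        have h9 : A.subtype (cj (P i) * a) = l⁻¹ * A.subtype (P i) * l * (a : Q) := by
          rw [map_mul]
          have := hcj (P i)
          change ((cj (P i) : A) : Q) * (a : Q) = _
          rw [this]; rfl
        rw [pow_succ, ihi, hPs, h9, pow_succ]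
        group
    let x₀ : Additive (A ⧸ B) := Additive.ofMul (QuotientGroup.mk (s := B) a)
    have hsum : ∀ i : ℕ, Additive.ofMul (QuotientGroup.mk (s := B) (P i))
        = ∑ j ∈ Finset.range i, (⇑c')^[j] x₀ := by
      intro i
      induction i with
      | zero => simp [hP0]
      | succ i ihi =>
        rw [Finset.sum_range_succ', hPs]
        have h7 : ∀ j, (⇑c')^[j + 1] x₀ = c' ((⇑c')^[j] x₀) := by
          intro j
          exact Function.iterate_succ_apply' _ _ _
        simp only [h7]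
        rw [← map_sum, ← ihi]
        rfl
    have hmem : ∀ i : ℕ, (l * (a : Q)) ^ i ∈ L ↔
        ∑ j ∈ Finset.range i, (⇑c')^[j] x₀ = 0 := by
      intro i
      rw [← hsum, hpow]
      have h8 : (Additive.ofMul (QuotientGroup.mk (s := B) (P i)) = 0) ↔
          (QuotientGroup.mk (s := B) (P i)) = 1 := Iff.rfl
      rw [h8, QuotientGroup.eq_one_iff]
      rw [hB, Subgroup.mem_subgroupOf]
      exact L.mul_mem_cancel_left (L.pow_mem hl i)
    rw [pow_mul, hva, hmem]
    apply hK
    refine ⟨m, hm, ?_⟩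
    rw [← hmem, ← hva, ← pow_mul, mul_comm, pow_mul]
    exact L.pow_mem hvm _

/-- isolator exponents in polycyclic groups. -/
theorem iso_exp {Q : Type} [Group Q] (h : PC Q) (L : Subgroup Q) :
    ∃ e : ℕ, 0 < e ∧ ∀ v : Q, (∃ n : ℕ, 0 < n ∧ v ^ n ∈ L) → v ^ e ∈ L := by
  obtain ⟨n, hn⟩ := h.1.solvable
  exact iso_exp_aux n Q h hn L

/-! job 14118 -/

section PcInd

/-- The maximal condition on subgroups. -/
abbrev MaxC (G : Type*) [Group G] : Prop := ∀ S : Subgroup G, S.FG

variable {G : Type*} [Group G]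

theorem MaxC.fg (h : MaxC G) : Group.FG G := Group.fg_def.mpr (h ⊤)

theorem MaxC.sub (h : MaxC G) (S : Subgroup G) : Group.FG ↥S :=
  (Group.fg_iff_subgroup_fg S).mpr (h S)

theorem MaxC.of_injective {G' : Type*} [Group G'] (h : MaxC G) (f : G' →* G)
    (hf : Function.Injective f) : MaxC G' := by
  intro S
  rw [← Group.fg_iff_subgroup_fg]
  have h1 : Group.FG ↥(S.map f) := h.sub _
  let e := (Subgroup.equivMapOfInjective S f hf).symm
  exact Group.fg_of_surjective (f := e.toMonoidHom) e.surjective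

theorem MaxC.of_surjective {G' : Type*} [Group G'] (h : MaxC G) (f : G →* G')
    (hf : Function.Surjective f) : MaxC G' := by
  intro S
  rw [← Group.fg_iff_subgroup_fg]
  have h1 : Group.FG ↥(S.comap f) := h.sub _
  exact Group.fg_of_surjective (f := f.subgroupComap S)
    (f.subgroupComap_surjective_of_surjective S hf)

theorem MaxC.wf (h : MaxC G) : WellFoundedGT (Subgroup G) := by
  rw [wellFoundedGT_iff_monotone_chain_condition]
  intro a
  obtain ⟨s, hs⟩ := h (⨆ n, a n)
  have hdir : Directed (· ≤ ·) a := a.monotone.directed_le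
  have hmem : ∀ x ∈ s, ∃ n, x ∈ a n := by
    intro x hx
    have : x ∈ ⨆ n, a n := by rw [← hs]; exact Subgroup.subset_closure hx
    exact (Subgroup.mem_iSup_of_directed hdir).mp this
  choose! n hn using hmem
  refine ⟨s.sup n, fun m hm => le_antisymm (a.monotone hm) ?_⟩
  refine (le_iSup a m).trans ?_
  rw [← hs, Subgroup.closure_le]
  intro x hx
  exact a.monotone (Finset.le_sup hx) (hn x hx)

theorem MaxC.exists_max (h : MaxC G) (𝒮 : Set (Subgroup G)) (hne : 𝒮.Nonempty) :
    ∃ M ∈ 𝒮, ∀ S ∈ 𝒮, M ≤ S → S ≤ M := by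
  obtain ⟨M, hM, hmax⟩ := h.wf.wf.has_min 𝒮 hne
  refine ⟨M, hM, fun S hS hle => ?_⟩
  by_contra hc
  exact hmax S hS (lt_of_le_not_ge hle hc)

/-! ### Virtual covering -/

theorem zpow_conj_mem {S : Subgroup G} {t : G} (ht : t ∈ Subgroup.normalizer (S : Set G)) (k : ℤ)
    {x : G} (hx : x ∈ S) : t ^ k * x * t ^ (-k) ∈ S := by
  have h := Subgroup.zpow_mem _ ht k
  have := (Subgroup.mem_normalizer_iff.mp h x).mp hx
  rwa [← zpow_neg] at this

theorem zpow_conj_mem' {S : Subgroup G} {t : G} (ht : t ∈ Subgroup.normalizer (S : Set G)) (k : ℤ)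
    {x : G} (hx : x ∈ S) : t ^ (-k) * x * t ^ k ∈ S := by
  have := zpow_conj_mem ht (-k) hx
  rwa [neg_neg] at this

/-- The subgroup generated by `S` and an element normalising it. -/
def adj (S : Subgroup G) (t : G) (ht : t ∈ Subgroup.normalizer (S : Set G)) : Subgroup G where
  carrier := {x | ∃ k : ℤ, t ^ (-k) * x ∈ S}
  one_mem' := ⟨0, by simp⟩
  mul_mem' := by
    rintro x y ⟨k, hk⟩ ⟨l, hl⟩
    refine ⟨k + l, ?_⟩
    have := S.mul_mem (zpow_conj_mem' ht l hk) hl
    convert this using 1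
    rw [neg_add, add_comm, zpow_add]
    simp [mul_assoc]
  inv_mem' := by
    rintro x ⟨k, hk⟩
    refine ⟨-k, ?_⟩
    have := zpow_conj_mem ht k (S.inv_mem hk)
    convert this using 1
    simp [mul_assoc]

theorem mem_adj {S : Subgroup G} {t : G} {ht : t ∈ Subgroup.normalizer (S : Set G)} {x : G} :
    x ∈ adj S t ht ↔ ∃ k : ℤ, t ^ (-k) * x ∈ S := Iff.rfl

theorem le_adj {S : Subgroup G} {t : G} {ht : t ∈ Subgroup.normalizer (S : Set G)} :
    S ≤ adj S t ht := fun x hx => ⟨0, by simpa using hx⟩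

theorem self_mem_adj {S : Subgroup G} {t : G} {ht : t ∈ Subgroup.normalizer (S : Set G)} :
    t ∈ adj S t ht := ⟨1, by simp⟩

theorem polyInd (hG : MaxC G) (hs : Group.IsSolvable G) (Pr : Subgroup G → Prop) (h0 : Pr ⊥)
    (hstep : ∀ (R : Subgroup G) (t : G) (ht : t ∈ Subgroup.normalizer (R : Set G)),
      Pr R → Pr (adj R t ht)) : Pr ⊤ := by
  obtain ⟨n, hn⟩ := hs.solvable
  have key : ∀ i ≤ n, Pr (derivedSeries G (n - i)) := by
    intro i
    induction i with
    | zero => intro _; rw [Nat.sub_zero, hn]; exact h0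
    | succ i ih =>
      intro hi
      have ihi := ih (by omega)
      set j := n - (i + 1) with hj
      have hj1 : n - i = j + 1 := by omega
      rw [hj1] at ihi
      obtain ⟨M, ⟨hM1, hM2, hM3⟩, hmax⟩ := hG.exists_max
        {R | derivedSeries G (j + 1) ≤ R ∧ R ≤ derivedSeries G j ∧ Pr R}
        ⟨_, le_rfl, derivedSeries_antitone G (Nat.le_succ j), ihi⟩
      by_contra hcon
      have hne : ∃ t ∈ derivedSeries G j, t ∉ M := by
        by_contra hc
        push Not at hc
        exact hcon (le_antisymm hM2 hc ▸ hM3)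
      obtain ⟨t, htD, htM⟩ := hne
      have hcomm : ∀ x ∈ derivedSeries G j, ∀ y ∈ derivedSeries G j, x * y * x⁻¹ * y⁻¹ ∈ M := by
        intro x hx y hy
        apply hM1
        rw [derivedSeries_succ]
        exact Subgroup.commutator_mem_commutator hx hy
      have ht : t ∈ Subgroup.normalizer (M : Set G) := by
        rw [Subgroup.mem_normalizer_iff]
        intro x
        constructor
        · intro hx
          have := M.mul_mem (hcomm t htD x (hM2 hx)) hx
          simpa using this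
        · intro hx
          have h1 : x ∈ derivedSeries G j := by
            have := (derivedSeries G j).mul_mem ((derivedSeries G j).mul_mem
              ((derivedSeries G j).inv_mem htD) (hM2 hx)) htD
            simpa [mul_assoc] using this
          have := M.mul_mem (M.inv_mem (hcomm t htD x h1)) hx
          simpa [mul_assoc] using this
      have h2 := hmax (adj M t ht) ⟨hM1.trans le_adj, ?_, hstep M t ht hM3⟩ le_adj
      · exact htM (h2 self_mem_adj)
      · rintro x ⟨k, hk⟩
        have := (derivedSeries G j).mul_mem ((derivedSeries G j).zpow_mem htD k) (hM2 hk)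
        simpa using this
  have := key n le_rfl
  rwa [Nat.sub_self, derivedSeries_zero] at this

end PcInd

/-- polycyclic induction. -/
theorem poly_ind {Q : Type} [Group Q] (h : PC Q) (Pr : Subgroup Q → Prop) (h0 : Pr ⊥)
    (hstep : ∀ (R P : Subgroup Q) (t : Q), R ≤ P → t ∈ P → (∀ x, x ∈ R ↔ t * x * t⁻¹ ∈ R) →
      (∀ x ∈ P, ∃ k : ℤ, t ^ (-k) * x ∈ R) → Pr R → Pr P) : Pr ⊤ := by
  apply polyInd h.2 h.1 Pr h0
  intro R t ht hR
  exact hstep R (adj R t ht) t le_adj self_mem_adj (Subgroup.mem_normalizer_iff.mp ht)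
    (fun x hx => hx) hR

/-! job 14119 -/

/-- a subgroup of `ℤ^r` is free of rank at most `r`, with equality only for torsion quotient. -/
theorem sub_rank {r : ℕ} (F : AddSubgroup (Fin r → ℤ)) :
    ∃ (s : ℕ) (δ : (Fin s → ℤ) →+ (Fin r → ℤ)), s ≤ r ∧ Function.Injective δ ∧
      (∀ v, v ∈ F ↔ ∃ w, δ w = v) ∧ (s = r → ∀ v, ∃ n : ℕ, 0 < n ∧ n • v ∈ F) ∧
      (F ≠ ⊥ → 0 < s) := by
  let M : Submodule ℤ (Fin r → ℤ) := AddSubgroup.toIntSubmodule F
  have hM : ∀ v, v ∈ M ↔ v ∈ F := fun v => Iff.rfl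
  let b := Module.finBasis ℤ M
  let e := b.equivFun
  refine ⟨finrank ℤ M, (M.subtype ∘ₗ e.symm.toLinearMap).toAddMonoidHom, ?_, ?_, ?_, ?_, ?_⟩
  · have h1 := Submodule.finrank_le M
    rwa [Module.finrank_fin_fun] at h1
  · intro x y h
    have h1 : M.subtype (e.symm x) = M.subtype (e.symm y) := h
    exact e.symm.injective (Subtype.ext h1)
  · intro v
    constructor
    · intro hv
      refine ⟨e ⟨v, (hM v).2 hv⟩, ?_⟩
      change M.subtype (e.symm (e ⟨v, (hM v).2 hv⟩)) = v
      rw [LinearEquiv.symm_apply_apply]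
      rfl
    · rintro ⟨w, rfl⟩
      exact (e.symm w).2
  · intro hs v
    have h1 := Submodule.finrank_quotient_add_finrank M
    rw [Module.finrank_fin_fun, hs] at h1
    have h2 : finrank ℤ ((Fin r → ℤ) ⧸ M) = 0 := by omega
    rw [Module.finrank_eq_zero_iff_isTorsion] at h2
    obtain ⟨a, ha⟩ := h2 (x := Submodule.Quotient.mk v)
    have ha0 : (a : ℤ) ≠ 0 := nonZeroDivisors.coe_ne_zero a
    have h3 : (a : ℤ) • v ∈ M := by
      rw [← Submodule.Quotient.mk_eq_zero, Submodule.Quotient.mk_smul]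
      exact ha
    refine ⟨(a : ℤ).natAbs, Int.natAbs_pos.2 ha0, ?_⟩
    rcases Int.natAbs_eq (a : ℤ) with h | h
    · have : ((a : ℤ).natAbs : ℤ) • v ∈ M := by rw [← h]; exact h3
      rw [natCast_zsmul] at this
      exact this
    · have : ((a : ℤ).natAbs : ℤ) • v ∈ M := by
        have h5 : ((a : ℤ).natAbs : ℤ) = - (a : ℤ) := by omega
        rw [h5, neg_smul]
        exact M.neg_mem h3
      rw [natCast_zsmul] at this
      exact this
  · intro hF
    rw [Module.finrank_pos_iff]
    by_contra hcon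
    rw [not_nontrivial_iff_subsingleton] at hcon
    apply hF
    rw [eq_bot_iff]
    intro x hx
    have := Subsingleton.elim (⟨x, (hM x).2 hx⟩ : M) 0
    have h2 := congrArg Subtype.val this
    simpa using h2

/-! job 14120 -/

theorem mod3_map {r : ℕ} (M : (Fin r → ℤ) ≃+ (Fin r → ℤ)) {v w : Fin r → ℤ}
    (h : ∃ u, w = v + 3 • u) : ∃ u, M w = M v + 3 • u := by
  obtain ⟨u, rfl⟩ := h
  exact ⟨M u, by rw [map_add, map_nsmul]⟩

theorem mod3_map_iter {r : ℕ} (M : (Fin r → ℤ) ≃+ (Fin r → ℤ)) (a : ℕ) {v w : Fin r → ℤ}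
    (h : ∃ u, w = v + 3 • u) : ∃ u, (⇑M)^[a] w = (⇑M)^[a] v + 3 • u := by
  induction a with
  | zero => exact h
  | succ a ih =>
    rw [Function.iterate_succ_apply', Function.iterate_succ_apply']
    exact mod3_map M ih

theorem mod3_cancel {r : ℕ} (M : (Fin r → ℤ) ≃+ (Fin r → ℤ)) (a : ℕ) {v w : Fin r → ℤ}
    (h : ∃ u, (⇑M)^[a] w = (⇑M)^[a] v + 3 • u) : ∃ u, w = v + 3 • u := by
  induction a with
  | zero => exact h
  | succ a ih =>
    rw [Function.iterate_succ_apply', Function.iterate_succ_apply'] at h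
    apply ih
    have h1 := mod3_map M.symm h
    rwa [AddEquiv.symm_apply_apply, AddEquiv.symm_apply_apply] at h1

/-- a fixed power of any automorphism of `ℤ^r` is the identity mod 3. -/
theorem mod3 (r : ℕ) (M : (Fin r → ℤ) ≃+ (Fin r → ℤ)) (v : Fin r → ℤ) :
    ∃ w, (⇑M)^[(3 ^ r).factorial] v = v + 3 • w := by
  have hpig : ∃ a b : ℕ, a < b ∧ b ≤ 3 ^ r ∧
      (fun i => (((⇑M)^[a] v i : ℤ) : ZMod 3)) = fun i => (((⇑M)^[b] v i : ℤ) : ZMod 3) := by
    have hcard : Fintype.card (Fin r → ZMod 3) < Fintype.card (Fin (3 ^ r + 1)) := by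
      rw [Fintype.card_fun, ZMod.card, Fintype.card_fin, Fintype.card_fin]
      exact Nat.lt_succ_self _
    obtain ⟨x, y, hxy, hf⟩ := Fintype.exists_ne_map_eq_of_card_lt
      (fun (j : Fin (3 ^ r + 1)) (i : Fin r) => (((⇑M)^[(j : ℕ)] v i : ℤ) : ZMod 3)) hcard
    rcases lt_or_gt_of_ne hxy with h | h
    · exact ⟨x, y, h, Nat.lt_succ_iff.mp y.2, hf⟩
    · exact ⟨y, x, h, Nat.lt_succ_iff.mp x.2, hf.symm⟩
  obtain ⟨a, b, hab, hb, hf⟩ := hpig
  have h1 : ∃ u, (⇑M)^[b] v = (⇑M)^[a] v + 3 • u := by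
    have h2 : ∀ i, ∃ c : ℤ, (⇑M)^[b] v i = (⇑M)^[a] v i + 3 * c := by
      intro i
      have h3 := congrFun hf i
      have h4 := (ZMod.intCast_eq_intCast_iff_dvd_sub _ _ 3).mp h3
      obtain ⟨c, hc⟩ := h4
      exact ⟨c, by push_cast at hc; linarith⟩
    choose c hc using h2
    refine ⟨c, ?_⟩
    funext i
    rw [hc i, Pi.add_apply, Pi.smul_apply, nsmul_eq_mul]
    rfl
  obtain ⟨d, rfl⟩ := Nat.exists_eq_add_of_lt hab
  have h2 : ∃ u, (⇑M)^[d + 1] v = v + 3 • u := by
    apply mod3_cancel M a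
    rw [← Function.iterate_add_apply, ← add_assoc]
    exact h1
  have h3 : d + 1 ∣ (3 ^ r).factorial := Nat.dvd_factorial (Nat.succ_pos d) (by omega)
  obtain ⟨k, hk⟩ := h3
  rw [hk, Function.iterate_mul]
  clear hk
  induction k with
  | zero => exact ⟨0, by simp⟩
  | succ k ih =>
    rw [Function.iterate_succ_apply']
    obtain ⟨u, hu⟩ := mod3_map_iter M (d + 1) ih
    obtain ⟨u', hu'⟩ := h2
    refine ⟨u' + u, ?_⟩
    rw [hu, hu', smul_add, add_assoc]

/-! job 14121 -/

/-- the action of `Q` on a normal `ℤ^r` by conjugation. -/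
theorem conj_mat {Q : Type} [Group Q] {r : ℕ} (ε : Multiplicative (Fin r → ℤ) →* Q)
    (hinj : Function.Injective ε) (hn : ε.range.Normal) (g : Q) :
    ∃ M : (Fin r → ℤ) ≃+ (Fin r → ℤ), ∀ v,
      g * ε (Multiplicative.ofAdd v) * g⁻¹ = ε (Multiplicative.ofAdd (M v)) := by
  have hex : ∀ (h : Q) (v : Fin r → ℤ), ∃ w : Fin r → ℤ,
      h * ε (Multiplicative.ofAdd v) * h⁻¹ = ε (Multiplicative.ofAdd w) := by
    intro h v
    have h1 : h * ε (Multiplicative.ofAdd v) * h⁻¹ ∈ ε.range :=
      hn.conj_mem _ ⟨_, rfl⟩ h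
    obtain ⟨w, hw⟩ := h1
    exact ⟨Multiplicative.toAdd w, hw.symm⟩
  choose f hf using hex
  have hinj' : ∀ v w : Fin r → ℤ,
      ε (Multiplicative.ofAdd v) = ε (Multiplicative.ofAdd w) → v = w := by
    intro v w h
    exact Multiplicative.ofAdd.injective (hinj h)
  have hinv : ∀ (h k : Q), k * h = 1 → ∀ v, f k (f h v) = v := by
    intro h k hk v
    apply hinj'
    rw [← hf k, ← hf h]
    have h2 : k * (h * ε (Multiplicative.ofAdd v) * h⁻¹) * k⁻¹
        = (k * h) * ε (Multiplicative.ofAdd v) * (k * h)⁻¹ := by group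
    rw [h2, hk]
    simp
  refine ⟨{ toFun := f g, invFun := f g⁻¹, left_inv := hinv g g⁻¹ (by group),
            right_inv := hinv g⁻¹ g (by group), map_add' := ?_ }, fun v => hf g v⟩
  intro v w
  apply hinj'
  rw [← hf g, ofAdd_add, map_mul, ofAdd_add, map_mul, ← hf g, ← hf g]
  group

/-! job 14123 -/

theorem hl_ext_key {Q : Type} [Group Q] (E : Subgroup Q) [E.Normal] (A B : Subgroup Q) (hAB : A ≤ B)
    (h1 : (A.subgroupOf E).relIndex (B.subgroupOf E) ≠ 0)
    (h2 : (A.map (QuotientGroup.mk' E)).relIndex (B.map (QuotientGroup.mk' E)) ≠ 0) :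
    A.relIndex B ≠ 0 := by
  have h1' : A.relIndex (B ⊓ E) ≠ 0 := by
    rw [← Subgroup.inf_subgroupOf_right B E, Subgroup.relIndex_subgroupOf inf_le_right] at h1
    exact h1
  rw [Subgroup.relIndex_map_map, QuotientGroup.ker_mk'] at h2
  have h3 : (A ⊔ E).relIndex B ≠ 0 := fun h0 => h2 (Subgroup.relIndex_eq_zero_of_le_right le_sup_left h0)
  have h4 : (B ⊓ (A ⊔ E)).relIndex B ≠ 0 := by
    rw [Subgroup.inf_relIndex_left]; exact h3
  have hle : B ⊓ E ≤ B ⊓ (A ⊔ E) := inf_le_inf_left B le_sup_right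
  have h5 : A.relIndex (B ⊓ (A ⊔ E)) ≠ 0 := by
    haveI hf : Finite (↥(B ⊓ E) ⧸ A.subgroupOf (B ⊓ E)) := by
      have : (A.subgroupOf (B ⊓ E)).index ≠ 0 := h1'
      exact Nat.finite_of_card_ne_zero this
    have hsurj : Function.Surjective (Subgroup.quotientSubgroupOfEmbeddingOfLE A hle) := by
      intro y
      induction y using QuotientGroup.induction_on with
      | H x =>
        obtain ⟨x, hx⟩ := x
        have hx2 : x ∈ E ⊔ A := by rw [sup_comm]; exact hx.2
        obtain ⟨e, he, a, ha, rfl⟩ := Subgroup.mem_sup_of_normal_left.1 hx2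
        have heB : e ∈ B := by
          have := B.mul_mem hx.1 (B.inv_mem (hAB ha))
          simpa using this
        refine ⟨QuotientGroup.mk (⟨e, heB, he⟩ : ↥(B ⊓ E)), ?_⟩
        rw [Subgroup.quotientSubgroupOfEmbeddingOfLE_apply_mk]
        rw [QuotientGroup.eq]
        rw [Subgroup.mem_subgroupOf]
        show (e)⁻¹ * (e * a) ∈ A
        simpa using ha
    have hf2 : Finite (↥(B ⊓ (A ⊔ E)) ⧸ A.subgroupOf (B ⊓ (A ⊔ E))) := Finite.of_surjective _ hsurj
    have : (A.subgroupOf (B ⊓ (A ⊔ E))).index ≠ 0 := by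
      exact Nat.card_pos.ne'
    exact this
  exact Subgroup.relIndex_ne_zero_trans h5 h4

theorem hl_ext {Q : Type} [Group Q] {a b : ℕ} (E : Subgroup Q) [E.Normal] (h1 : HL E a)
    (h2 : HL (Q ⧸ E) b) : HL Q (a + b) := by
  classical
  intro H hH s hs
  have e1 := h1 (fun i => (H i).subgroupOf E) (fun i j hij => Subgroup.comap_mono (hH hij))
    (s.filter (fun i => ((H i).subgroupOf E).relIndex ((H (i + 1)).subgroupOf E) = 0))
    (fun i hi => (Finset.mem_filter.1 hi).2)
  have e2 := h2 (fun i => (H i).map (QuotientGroup.mk' E)) (fun i j hij => Subgroup.map_mono (hH hij))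
    (s.filter (fun i => ((H i).map (QuotientGroup.mk' E)).relIndex
      ((H (i + 1)).map (QuotientGroup.mk' E)) = 0))
    (fun i hi => (Finset.mem_filter.1 hi).2)
  have hsub : s ⊆ s.filter (fun i => ((H i).subgroupOf E).relIndex ((H (i + 1)).subgroupOf E) = 0) ∪
      s.filter (fun i => ((H i).map (QuotientGroup.mk' E)).relIndex
      ((H (i + 1)).map (QuotientGroup.mk' E)) = 0) := by
    intro i hi
    rw [Finset.mem_union, Finset.mem_filter, Finset.mem_filter]
    by_contra hc
    push Not at hc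
    exact hl_ext_key E (H i) (H (i + 1)) (hH (Nat.le_succ i)) (hc.1 hi) (hc.2 hi) (hs i hi)
  calc s.card ≤ _ := Finset.card_le_card hsub
    _ ≤ _ := Finset.card_union_le _ _
    _ ≤ a + b := add_le_add e1 e2

/-! job 14122 -/

theorem hl_aux_index {C : Type} [Group C] (c : C) (hc : ∀ x : C, ∃ k : ℤ, x = c ^ k)
    (H : Subgroup C) (hH : H ≠ ⊥) : H.index ≠ 0 := by
  obtain ⟨x, hx, hx1⟩ : ∃ x, x ∈ H ∧ x ≠ 1 := by
    obtain ⟨a, ha⟩ := Subgroup.ne_bot_iff_exists_ne_one.mp hH
    exact ⟨a.1, a.2, fun h => ha (Subtype.ext h)⟩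
  obtain ⟨k, rfl⟩ := hc x
  have hk : k ≠ 0 := by
    rintro rfl
    simp at hx1
  have hfin : Finite (C ⧸ H) := by
    haveI : NeZero k.natAbs := ⟨by simpa using hk⟩
    refine Finite.of_surjective (fun r : Fin k.natAbs => (QuotientGroup.mk (c ^ (r : ℕ)) : C ⧸ H)) ?_
    intro q
    obtain ⟨y, rfl⟩ := QuotientGroup.mk_surjective q
    obtain ⟨m, rfl⟩ := hc y
    have h1 : 0 ≤ m % k := Int.emod_nonneg _ hk
    have h2 : m % k < |k| := Int.emod_lt_abs _ hk
    refine ⟨⟨(m % k).toNat, ?_⟩, ?_⟩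
    · zify
      rw [Int.toNat_of_nonneg h1]
      exact h2
    · simp only
      rw [QuotientGroup.eq]
      have h3 : (c ^ (m % k).toNat : C) = c ^ (m % k) := by
        rw [← zpow_natCast, Int.toNat_of_nonneg h1]
      rw [h3, ← zpow_neg, ← zpow_add]
      have h4 : -(m % k) + m = k * (m / k) := by
        have := Int.emod_add_mul_ediv m k
        linarith
      rw [h4, zpow_mul]
      exact H.zpow_mem hx _
  exact Subgroup.index_ne_zero_of_finite

theorem hl_aux_cyc {C : Type} [Group C] (c : C) (hc : ∀ x : C, ∃ k : ℤ, x = c ^ k) : HL C 1 := by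
  intro H hH s hs
  rw [Finset.card_le_one]
  by_contra hcon
  push Not at hcon
  obtain ⟨a, ha, b, hb, hab⟩ := hcon
  have key : ∀ i j : ℕ, i ∈ s → j ∈ s → i < j → False := by
    intro i j hi hj hij
    have h1 : H (i + 1) ≠ ⊥ := by
      intro h
      have h0 := hs i hi
      rw [h] at h0
      have : H i = ⊥ := le_bot_iff.mp (h ▸ hH (Nat.le_succ i))
      rw [this] at h0
      simp at h0
    have h2 : H j ≠ ⊥ := by
      intro h
      exact h1 (le_bot_iff.mp (h ▸ hH (Nat.succ_le_of_lt hij)))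
    have h3 := hl_aux_index c hc (H j) h2
    have h4 := hs j hj
    have h5 : (H j).relIndex (H (j + 1)) ∣ (H j).index := Subgroup.relIndex_dvd_index_of_le (hH (Nat.le_succ j))
    rw [h4] at h5
    exact h3 (Nat.eq_zero_of_zero_dvd h5)
  rcases lt_or_gt_of_ne hab with h | h
  · exact key a b ha hb h
  · exact key b a hb ha h

theorem hl_aux_equiv {C D : Type} [Group C] [Group D] (e : C ≃* D) {n : ℕ} (h : HL D n) :
    HL C n := by
  intro H hH s hs
  refine h (fun i => (H i).map (e : C →* D)) (fun i j hij => Subgroup.map_mono (hH hij)) s ?_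
  intro i hi
  have := hs i hi
  rw [Subgroup.relIndex_map_map_of_injective]
  · exact this
  · exact e.injective



theorem hl_exists {Q : Type} [Group Q] (h : PC Q) : ∃ n, HL Q n := by
  have main : ∃ n, HL (⊤ : Subgroup Q) n := by
    refine poly_ind h (fun R => ∃ n, HL R n) ?_ ?_
    · refine ⟨0, ?_⟩
      intro H hH s hs
      rw [Nat.le_zero, Finset.card_eq_zero]
      by_contra hne
      obtain ⟨i, hi⟩ := Finset.nonempty_iff_ne_empty.mpr hne
      have h1 := hs i hi
      have h2 : H i = H (i + 1) := Subsingleton.elim _ _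
      rw [h2] at h1
      simp at h1
    · rintro R P t hRP ht hconj hgen ⟨n, hn⟩
      refine ⟨n + 1, ?_⟩
      have hz : ∀ (k : ℤ) (x : Q), x ∈ R ↔ t ^ k * x * (t ^ k)⁻¹ ∈ R := by
        intro k
        induction k using Int.induction_on with
        | zero => intro x; simp
        | succ m ih =>
          intro x
          rw [hconj x, ih (t * x * t⁻¹)]
          have : t ^ (m : ℤ) * (t * x * t⁻¹) * (t ^ (m : ℤ))⁻¹
              = t ^ ((m : ℤ) + 1) * x * (t ^ ((m : ℤ) + 1))⁻¹ := by
            rw [zpow_add_one]; group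
          rw [this]
        | pred m ih =>
          intro x
          rw [hconj (t ^ (-(m : ℤ) - 1) * x * (t ^ (-(m : ℤ) - 1))⁻¹)]
          rw [ih x]
          have : t * (t ^ (-(m : ℤ) - 1) * x * (t ^ (-(m : ℤ) - 1))⁻¹) * t⁻¹
              = t ^ (-(m : ℤ)) * x * (t ^ (-(m : ℤ)))⁻¹ := by
            rw [zpow_sub_one]; group
          rw [this]
      haveI hE : (R.subgroupOf P).Normal := by
        refine ⟨?_⟩
        rintro ⟨x, hx⟩ hxR ⟨g, hg⟩
        rw [Subgroup.mem_subgroupOf] at hxR ⊢
        simp only [Subgroup.coe_mul, Subgroup.coe_inv] at hxR ⊢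
        obtain ⟨k, hk⟩ := hgen g hg
        have h1 : (t ^ (-k) * g) * x * (t ^ (-k) * g)⁻¹ ∈ R :=
          R.mul_mem (R.mul_mem hk hxR) (R.inv_mem hk)
        have h2 := (hz k _).mp h1
        have h3 : t ^ k * (t ^ (-k) * g * x * (t ^ (-k) * g)⁻¹) * (t ^ k)⁻¹ = g * x * g⁻¹ := by
          rw [zpow_neg]; group
        rwa [h3] at h2
      refine hl_ext (R.subgroupOf P) (hl_aux_equiv (Subgroup.subgroupOfEquivOfLe hRP) hn) ?_
      refine hl_aux_cyc ((QuotientGroup.mk (⟨t, ht⟩ : P)) : P ⧸ R.subgroupOf P) ?_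
      intro q
      obtain ⟨⟨y, hy⟩, rfl⟩ := QuotientGroup.mk_surjective q
      obtain ⟨k, hk⟩ := hgen y hy
      refine ⟨k, ?_⟩
      rw [← QuotientGroup.mk_zpow, eq_comm, QuotientGroup.eq, Subgroup.mem_subgroupOf]
      simpa [zpow_neg] using hk
  obtain ⟨n, hn⟩ := main
  exact ⟨n, hl_aux_equiv Subgroup.topEquiv.symm hn⟩

/-! job 14124 -/

theorem exists_plinth {Q : Type} [Group Q] (h : PC Q) (hinf : Infinite Q) :
    ∃ Q₁ : Subgroup Q, Q₁.index ≠ 0 ∧ ∃ (r : ℕ) (ε : Multiplicative (Fin r → ℤ) →* Q₁),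
      Plinth Q₁ r ε := by
  classical
  let P : ℕ → Prop := fun r => 0 < r ∧ ∃ Q₁ : Subgroup Q, Q₁.index ≠ 0 ∧
    ∃ ε : Multiplicative (Fin r → ℤ) →* Q, Function.Injective ε ∧ (∀ v, ε v ∈ Q₁) ∧
      ∀ g ∈ Q₁, ∀ v, ∃ w, ε w = g * ε v * g⁻¹
  have hP : ∃ r, P r := by
    obtain ⟨r, ε, hr, hinj, hn⟩ := plinth_pre h hinf
    refine ⟨r, hr, ⊤, by simp, ε, hinj, fun v => trivial, ?_⟩
    intro g _ v
    exact hn.conj_mem (ε v) ⟨v, rfl⟩ g
  obtain ⟨hr, Q₁, hQ₁, ε, hinj, hmem, hnorm⟩ := Nat.find_spec hP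
  have hmin : ∀ s, P s → Nat.find hP ≤ s := fun s hs => Nat.find_min' hP hs
  generalize Nat.find hP = r at *
  refine ⟨Q₁, hQ₁, r, ε.codRestrict Q₁ hmem, hr, ?_, ?_, ?_⟩
  · intro a b hab
    exact hinj (congrArg Subtype.val hab)
  · constructor
    rintro _ ⟨v, rfl⟩ g
    obtain ⟨w, hw⟩ := hnorm g g.2 v
    exact ⟨w, Subtype.ext hw⟩
  · intro H hH F hF hinv
    obtain ⟨s, δ, hsr, hδ, hFδ, hs1, hs2⟩ := sub_rank F
    rcases hsr.lt_or_eq with hlt | heq
    · exfalso
      -- the subgroup `ε F`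
      let EF : Subgroup Q := (AddSubgroup.toSubgroup F).map ε
      have hEF : ∀ q : Q, q ∈ EF ↔ ∃ v ∈ F, ε (Multiplicative.ofAdd v) = q := by
        intro q
        constructor
        · rintro ⟨v, hv, rfl⟩
          exact ⟨Multiplicative.toAdd v, hv, rfl⟩
        · rintro ⟨v, hv, rfl⟩
          exact ⟨Multiplicative.ofAdd v, hv, rfl⟩
      let Q₂ : Subgroup Q := Q₁ ⊓ Subgroup.normalizer (EF : Set Q)
      have hHQ : H.map Q₁.subtype ≤ Q₂ := by
        rintro _ ⟨g, hg, rfl⟩
        refine ⟨g.2, ?_⟩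
        have key : ∀ g ∈ H, ∀ q ∈ EF, (g : Q) * q * (g : Q)⁻¹ ∈ EF := by
          intro g hg q hq
          obtain ⟨v, hv, rfl⟩ := (hEF q).1 hq
          obtain ⟨w, hw, he⟩ := hinv g hg v hv
          rw [hEF]
          exact ⟨w, hw, (congrArg Subtype.val he).symm⟩
        show (g : Q) ∈ Subgroup.normalizer (EF : Set Q)
        rw [Subgroup.mem_normalizer_iff]
        intro q
        constructor
        · exact key g hg q
        · intro hq
          have := key g⁻¹ (H.inv_mem hg) _ hq
          have e : ((g⁻¹ : Q₁) : Q) * ((g : Q) * q * (g : Q)⁻¹) * ((g⁻¹ : Q₁) : Q)⁻¹ = q := by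
            rw [Subgroup.coe_inv]; group
          rwa [e] at this
      have hQ₂ : Q₂.index ≠ 0 := by
        intro h0
        have h1 := Subgroup.index_dvd_of_le hHQ
        rw [h0, Subgroup.index_map_subtype] at h1
        exact (mul_ne_zero hH hQ₁) (zero_dvd_iff.1 h1)
      have hle : EF ≤ Q₂ := by
        intro q hq
        refine ⟨?_, Subgroup.le_normalizer hq⟩
        obtain ⟨v, hv, rfl⟩ := (hEF q).1 hq
        exact hmem _
      let ε' : Multiplicative (Fin s → ℤ) →* Q := ε.comp (AddMonoidHom.toMultiplicative δ)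
      have hε' : ∀ v : Fin s → ℤ, ε' (Multiplicative.ofAdd v) = ε (Multiplicative.ofAdd (δ v)) :=
        fun v => rfl
      have hPs : P s := by
        refine ⟨hs2 hF, Q₂, hQ₂, ε', ?_, ?_, ?_⟩
        · intro a b hab
          have h1 := hinj hab
          exact hδ h1
        · intro v
          apply hle
          rw [hEF]
          exact ⟨δ (Multiplicative.toAdd v), (hFδ _).2 ⟨_, rfl⟩, rfl⟩
        · intro g hg v
          have hv : ε' v ∈ EF := by
            rw [hEF]
            exact ⟨δ (Multiplicative.toAdd v), (hFδ _).2 ⟨_, rfl⟩, rfl⟩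
          have h2 := (Subgroup.mem_normalizer_iff.1 hg.2 (ε' v)).1 hv
          obtain ⟨w, hw, he⟩ := (hEF _).1 h2
          obtain ⟨w', rfl⟩ := (hFδ w).1 hw
          exact ⟨Multiplicative.ofAdd w', he⟩
      exact absurd (hmin s hPs) (not_le.2 hlt)
    · exact hs1 heq

end Pool.Agent.Helper946.HC
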