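import Mathlib

set_option autoImplicit false

namespace Pool.Agent.Helper946.PH3

/-- evaluation of a formal sum `∑ k_v x_v`. -/
noncomputable def ev {K K' E : Type} [DivisionRing K] [DivisionRing K'] (ι : K →+* K')
    (x : E → K') (f : E →₀ K) : K' := f.sum fun v k => ι k * x v

/-- `K'` is the division ring of left fractions of the crossed product `∑ K x_v`, `v ∈ E`. -/
structure Cross {K K' E : Type} [DivisionRing K] [DivisionRing K'] [AddCommGroup E]
    (ι : K →+* K') (x : E → K') : Prop where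
  ne0 : ∀ v, x v ≠ 0
  conj : ∀ v k, ∃ k', x v * ι k = ι k' * x v
  conj' : ∀ v k, ∃ k', ι k * x v = x v * ι k'
  mul : ∀ v w, ∃ c, x v * x w = ι c * x (v + w)
  indep : ∀ f : E →₀ K, ev ι x f = 0 → f = 0
  frac : ∀ κ : K', ∃ f g : E →₀ K, f ≠ 0 ∧ ev ι x f * κ = ev ι x g

/-- `v` is the leading exponent of `f` for the order given by `φ`. -/
def IsLead {K E : Type} [DivisionRing K] [AddCommGroup E] (φ : E →+ ℝ) (f : E →₀ K) (v : E) :
    Prop := v ∈ f.support ∧ ∀ w ∈ f.support, φ w ≤ φ v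

/-- `p` is the exponent (value) of `κ` for the order given by `φ`. -/
def Exp {K K' E : Type} [DivisionRing K] [DivisionRing K'] [AddCommGroup E] (ι : K →+* K')
    (x : E → K') (φ : E →+ ℝ) (κ : K') (p : E) : Prop :=
  ∃ (f g : E →₀ K) (v w : E), IsLead φ f v ∧ IsLead φ g w ∧ ev ι x f * κ = ev ι x g ∧ p = w - v

end Pool.Agent.Helper946.PH3
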