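import Mathlib
import Pool.Agent.Helper294.HX.PHDefs
import Pool.Agent.Helper294.HX.PHCross

set_option autoImplicit false
set_option linter.unusedSectionVars false

namespace Pool.Agent.Helper946.PH3

open Module

section fil

variable {K K' E : Type} [DivisionRing K] [DivisionRing K'] [AddCommGroup E]
  {ι : K →+* K'} {x : E → K'}

/-- `μ` is zero or has exponent `< p`. -/
def LtE (ι : K →+* K') (x : E → K') (φ : E →+ ℝ) (p : E) (μ : K') : Prop :=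
  μ = 0 ∨ ∃ q, Exp ι x φ μ q ∧ φ q < φ p

/-- `μ` is zero or has exponent `≤ p`. -/
def LeE (ι : K →+* K') (x : E → K') (φ : E →+ ℝ) (p : E) (μ : K') : Prop :=
  μ = 0 ∨ ∃ q, Exp ι x φ μ q ∧ φ q ≤ φ p

theorem LtE.le {φ : E →+ ℝ} {p : E} {μ : K'} (h : LtE ι x φ p μ) : LeE ι x φ p μ := by
  rcases h with h | ⟨q, h, h'⟩
  · exact Or.inl h
  · exact Or.inr ⟨q, h, h'.le⟩

theorem LtE.mono {φ : E →+ ℝ} {p q : E} {μ : K'} (h : LtE ι x φ p μ) (hpq : φ p ≤ φ q) :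
    LtE ι x φ q μ := by
  rcases h with h | ⟨r, h, h'⟩
  · exact Or.inl h
  · exact Or.inr ⟨r, h, h'.trans_le hpq⟩

theorem LeE.mono {φ : E →+ ℝ} {p q : E} {μ : K'} (h : LeE ι x φ p μ) (hpq : φ p ≤ φ q) :
    LeE ι x φ q μ := by
  rcases h with h | ⟨r, h, h'⟩
  · exact Or.inl h
  · exact Or.inr ⟨r, h, h'.trans hpq⟩

theorem LeE.lt {φ : E →+ ℝ} {p q : E} {μ : K'} (h : LeE ι x φ p μ) (hpq : φ p < φ q) :
    LtE ι x φ q μ := by
  rcases h with h | ⟨r, h, h'⟩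
  · exact Or.inl h
  · exact Or.inr ⟨r, h, h'.trans_lt hpq⟩

theorem LtE.add (hC : Cross ι x) {φ : E →+ ℝ} (hφ : Function.Injective φ) {p : E} {a b : K'}
    (ha : LtE ι x φ p a) (hb : LtE ι x φ p b) : LtE ι x φ p (a + b) := by
  rcases ha with ha | ⟨q, ha, ha'⟩
  · rw [ha, zero_add]; exact hb
  rcases hb with hb | ⟨r, hb, hb'⟩
  · rw [hb, add_zero]; exact Or.inr ⟨q, ha, ha'⟩
  by_cases h0 : a + b = 0
  · exact Or.inl h0
  obtain ⟨s, hs⟩ := exp_exists hC φ h0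
  exact Or.inr ⟨s, hs, (exp_add hC hφ ha hb hs).trans_lt (max_lt ha' hb')⟩

theorem LeE.add (hC : Cross ι x) {φ : E →+ ℝ} (hφ : Function.Injective φ) {p : E} {a b : K'}
    (ha : LeE ι x φ p a) (hb : LeE ι x φ p b) : LeE ι x φ p (a + b) := by
  rcases ha with ha | ⟨q, ha, ha'⟩
  · rw [ha, zero_add]; exact hb
  rcases hb with hb | ⟨r, hb, hb'⟩
  · rw [hb, add_zero]; exact Or.inr ⟨q, ha, ha'⟩
  by_cases h0 : a + b = 0
  · exact Or.inl h0
  obtain ⟨s, hs⟩ := exp_exists hC φ h0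
  exact Or.inr ⟨s, hs, (exp_add hC hφ ha hb hs).trans (max_le ha' hb')⟩

theorem LeE.mul_lt (hC : Cross ι x) {φ : E →+ ℝ} (hφ : Function.Injective φ) {p q : E} {a b : K'}
    (ha : LeE ι x φ p a) (hb : LtE ι x φ q b) : LtE ι x φ (p + q) (a * b) := by
  rcases ha with ha | ⟨r, ha, ha'⟩
  · rw [ha, zero_mul]; exact Or.inl rfl
  rcases hb with hb | ⟨s, hb, hb'⟩
  · rw [hb, mul_zero]; exact Or.inl rfl
  refine Or.inr ⟨r + s, exp_mul hC hφ ha hb, ?_⟩
  rw [map_add, map_add]; linarith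

theorem LtE.mul_le (hC : Cross ι x) {φ : E →+ ℝ} (hφ : Function.Injective φ) {p q : E} {a b : K'}
    (ha : LtE ι x φ p a) (hb : LeE ι x φ q b) : LtE ι x φ (p + q) (a * b) := by
  rcases ha with ha | ⟨r, ha, ha'⟩
  · rw [ha, zero_mul]; exact Or.inl rfl
  rcases hb with hb | ⟨s, hb, hb'⟩
  · rw [hb, mul_zero]; exact Or.inl rfl
  refine Or.inr ⟨r + s, exp_mul hC hφ ha hb, ?_⟩
  rw [map_add, map_add]; linarith

theorem LeE.mul (hC : Cross ι x) {φ : E →+ ℝ} (hφ : Function.Injective φ) {p q : E} {a b : K'}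
    (ha : LeE ι x φ p a) (hb : LeE ι x φ q b) : LeE ι x φ (p + q) (a * b) := by
  rcases ha with ha | ⟨r, ha, ha'⟩
  · rw [ha, zero_mul]; exact Or.inl rfl
  rcases hb with hb | ⟨s, hb, hb'⟩
  · rw [hb, mul_zero]; exact Or.inl rfl
  refine Or.inr ⟨r + s, exp_mul hC hφ ha hb, ?_⟩
  rw [map_add, map_add]; linarith

theorem leE_iota (hC : Cross ι x) (φ : E →+ ℝ) (k : K) : LeE ι x φ 0 (ι k) := by
  by_cases hk : k = 0
  · left; rw [hk, map_zero]
  · exact Or.inr ⟨0, exp_iota hC φ hk, le_rfl⟩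

theorem leE_x (hC : Cross ι x) (φ : E →+ ℝ) (v : E) : LeE ι x φ v (x v) :=
  Or.inr ⟨v, exp_x hC φ v, le_rfl⟩

theorem leE_xinv (hC : Cross ι x) {φ : E →+ ℝ} (hφ : Function.Injective φ) (v : E) :
    LeE ι x φ (-v) (x v)⁻¹ :=
  Or.inr ⟨-v, exp_inv hC hφ (exp_x hC φ v), le_rfl⟩

theorem not_ltE (hC : Cross ι x) {φ : E →+ ℝ} (hφ : Function.Injective φ) {p : E} {a : K'}
    (ha : Exp ι x φ a p) : ¬ LtE ι x φ p a := by
  rintro (h | ⟨q, h, h'⟩)
  · exact exp_ne hC ha h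
  · rw [exp_unique hC hφ h ha] at h'
    exact lt_irrefl _ h'

theorem LtE.neg (hC : Cross ι x) {φ : E →+ ℝ} (hφ : Function.Injective φ) {p : E} {a : K'}
    (ha : LtE ι x φ p a) : LtE ι x φ p (-a) := by
  rcases ha with ha | ⟨q, ha, ha'⟩
  · left; rw [ha, neg_zero]
  · exact Or.inr ⟨q, exp_neg hC hφ ha, ha'⟩

/-- residue of an element of exponent `≤ 0`. -/
theorem residue (hC : Cross ι x) {φ : E →+ ℝ} (hφ : Function.Injective φ) {a : K'}
    (ha : LeE ι x φ 0 a) : ∃ k : K, LtE ι x φ 0 (a - ι k) := by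
  rcases ha with ha | ⟨q, ha, ha'⟩
  · exact ⟨0, Or.inl (by rw [ha, map_zero, sub_zero])⟩
  rcases ha'.lt_or_eq with h | h
  · exact ⟨0, by rw [map_zero, sub_zero]; exact Or.inr ⟨q, ha, h⟩⟩
  · have : q = 0 := hφ h
    subst this
    obtain ⟨k, -, hk | ⟨p, hp, hp'⟩⟩ := exp_residue hC hφ ha
    · exact ⟨k, Or.inl hk⟩
    · exact ⟨k, Or.inr ⟨p, hp, by rw [map_zero]; exact hp'⟩⟩

/-- residue at `p`. -/
theorem residue_p (hC : Cross ι x) {φ : E →+ ℝ} (hφ : Function.Injective φ) {p : E} {a : K'}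
    (ha : LeE ι x φ p a) : ∃ k : K, LtE ι x φ p (a - x p * ι k) := by
  have h1 : LeE ι x φ (-p + p) ((x p)⁻¹ * a) := (leE_xinv hC hφ p).mul hC hφ ha
  rw [neg_add_cancel] at h1
  obtain ⟨k, hk⟩ := residue hC hφ h1
  refine ⟨k, ?_⟩
  have h2 := (leE_x hC φ p).mul_lt hC hφ hk
  rw [add_zero, mul_sub, ← mul_assoc, mul_inv_cancel₀ (hC.ne0 p), one_mul] at h2
  exact h2

variable {X : Type} [AddCommGroup X] [Module K X] [Module K' X]

/-- the `K`-span of all `μ • n`, `n ∈ N`, `μ` of exponent `< p`. -/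
def Fl (ι : K →+* K') (x : E → K') (φ : E →+ ℝ) (p : E) (N : Submodule K X) : Submodule K X :=
  Submodule.span K {ξ | ∃ μ : K', ∃ n ∈ N, LtE ι x φ p μ ∧ ξ = μ • n}

/-- the `K`-span of all `μ • n`, `n ∈ N`, `μ` of exponent `≤ p`. -/
def Fe (ι : K →+* K') (x : E → K') (φ : E →+ ℝ) (p : E) (N : Submodule K X) : Submodule K X :=
  Submodule.span K {ξ | ∃ μ : K', ∃ n ∈ N, LeE ι x φ p μ ∧ ξ = μ • n}

theorem fl_gen {φ : E →+ ℝ} {p : E} {N : Submodule K X} {μ : K'} {n : X} (hn : n ∈ N)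
    (hμ : LtE ι x φ p μ) : μ • n ∈ Fl ι x φ p N :=
  Submodule.subset_span ⟨μ, n, hn, hμ, rfl⟩

theorem fe_gen {φ : E →+ ℝ} {p : E} {N : Submodule K X} {μ : K'} {n : X} (hn : n ∈ N)
    (hμ : LeE ι x φ p μ) : μ • n ∈ Fe ι x φ p N :=
  Submodule.subset_span ⟨μ, n, hn, hμ, rfl⟩

theorem fl_le_fe {φ : E →+ ℝ} {p : E} {N : Submodule K X} : Fl ι x φ p N ≤ Fe ι x φ p N := by
  apply Submodule.span_le.mpr
  rintro ξ ⟨μ, n, hn, hμ, rfl⟩
  exact fe_gen hn hμ.le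

theorem fe_le_fl {φ : E →+ ℝ} {p q : E} (h : φ p < φ q) {N : Submodule K X} :
    Fe ι x φ p N ≤ Fl ι x φ q N := by
  apply Submodule.span_le.mpr
  rintro ξ ⟨μ, n, hn, hμ, rfl⟩
  exact fl_gen hn (hμ.lt h)

theorem fe_mono {φ : E →+ ℝ} {p q : E} (h : φ p ≤ φ q) {N : Submodule K X} :
    Fe ι x φ p N ≤ Fe ι x φ q N := by
  apply Submodule.span_le.mpr
  rintro ξ ⟨μ, n, hn, hμ, rfl⟩
  exact fe_gen hn (hμ.mono h)

theorem fl_mono {φ : E →+ ℝ} {p q : E} (h : φ p ≤ φ q) {N : Submodule K X} :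
    Fl ι x φ p N ≤ Fl ι x φ q N := by
  apply Submodule.span_le.mpr
  rintro ξ ⟨μ, n, hn, hμ, rfl⟩
  exact fl_gen hn (hμ.mono h)

theorem smul_fl (hC : Cross ι x) (hι : ∀ (k : K) (ξ : X), k • ξ = ι k • ξ) {φ : E →+ ℝ}
    (hφ : Function.Injective φ) {p q : E} {N : Submodule K X} {ξ : X} (hξ : ξ ∈ Fl ι x φ p N) :
    ∀ μ : K', LeE ι x φ q μ → μ • ξ ∈ Fl ι x φ (q + p) N := by
  induction hξ using Submodule.span_induction with
  | mem ξ h =>
    obtain ⟨ν, n, hn, hν, rfl⟩ := h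
    intro μ hμ
    rw [smul_smul]
    exact fl_gen hn (hμ.mul_lt hC hφ hν)
  | zero => intro μ _; rw [smul_zero]; exact Submodule.zero_mem _
  | add a b _ _ ha hb => intro μ hμ; rw [smul_add]; exact Submodule.add_mem _ (ha μ hμ) (hb μ hμ)
  | smul k a _ ha =>
    intro μ hμ
    rw [hι, smul_smul]
    apply ha
    have := hμ.mul hC hφ (leE_iota hC φ k)
    rwa [add_zero] at this

theorem smul_fe (hC : Cross ι x) (hι : ∀ (k : K) (ξ : X), k • ξ = ι k • ξ) {φ : E →+ ℝ}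
    (hφ : Function.Injective φ) {p q : E} {N : Submodule K X} {ξ : X} (hξ : ξ ∈ Fe ι x φ p N) :
    ∀ μ : K', LeE ι x φ q μ → μ • ξ ∈ Fe ι x φ (q + p) N := by
  induction hξ using Submodule.span_induction with
  | mem ξ h =>
    obtain ⟨ν, n, hn, hν, rfl⟩ := h
    intro μ hμ
    rw [smul_smul]
    exact fe_gen hn (hμ.mul hC hφ hν)
  | zero => intro μ _; rw [smul_zero]; exact Submodule.zero_mem _
  | add a b _ _ ha hb => intro μ hμ; rw [smul_add]; exact Submodule.add_mem _ (ha μ hμ) (hb μ hμ)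
  | smul k a _ ha =>
    intro μ hμ
    rw [hι, smul_smul]
    apply ha
    have := hμ.mul hC hφ (leE_iota hC φ k)
    rwa [add_zero] at this

/-- leading term. -/
theorem fe_lead (hC : Cross ι x) (hι : ∀ (k : K) (ξ : X), k • ξ = ι k • ξ) {φ : E →+ ℝ}
    (hφ : Function.Injective φ) {p : E} {N : Submodule K X} {ξ : X} (hξ : ξ ∈ Fe ι x φ p N) :
    ∃ n ∈ N, ξ - x p • n ∈ Fl ι x φ p N := by
  induction hξ using Submodule.span_induction with
  | mem ξ h =>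
    obtain ⟨ν, n, hn, hν, rfl⟩ := h
    obtain ⟨k, hk⟩ := residue_p hC hφ hν
    refine ⟨k • n, N.smul_mem k hn, ?_⟩
    rw [hι, smul_smul, ← sub_smul]
    exact fl_gen hn hk
  | zero => exact ⟨0, N.zero_mem, by simp⟩
  | add a b _ _ ha hb =>
    obtain ⟨n, hn, h1⟩ := ha
    obtain ⟨m, hm, h2⟩ := hb
    refine ⟨n + m, N.add_mem hn hm, ?_⟩
    have : a + b - x p • (n + m) = (a - x p • n) + (b - x p • m) := by rw [smul_add]; abel
    rw [this]
    exact Submodule.add_mem _ h1 h2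
  | smul k a _ ha =>
    obtain ⟨n, hn, h1⟩ := ha
    obtain ⟨k', hk'⟩ := hC.conj' p k
    refine ⟨k' • n, N.smul_mem k' hn, ?_⟩
    have : k • a - x p • (k' • n) = k • (a - x p • n) := by
      rw [smul_sub, hι k' n, smul_smul, ← hk', ← smul_smul, ← hι]
    rw [this]
    exact Submodule.smul_mem _ _ h1

/-- if `x_p • n` has smaller exponent then `n` lies in `Fl 0`. -/
theorem fl_cancel (hC : Cross ι x) (hι : ∀ (k : K) (ξ : X), k • ξ = ι k • ξ) {φ : E →+ ℝ}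
    (hφ : Function.Injective φ) {p : E} {N : Submodule K X} {n : X}
    (h : x p • n ∈ Fl ι x φ p N) : n ∈ Fl ι x φ 0 N := by
  have := smul_fl hC hι hφ h _ (leE_xinv hC hφ p)
  rwa [neg_add_cancel, smul_smul, inv_mul_cancel₀ (hC.ne0 p), one_smul] at this

theorem x_mem_fe (hC : Cross ι x) {φ : E →+ ℝ} {p : E} {N : Submodule K X} {n : X} (hn : n ∈ N) :
    x p • n ∈ Fe ι x φ p N := fe_gen hn (leE_x hC φ p)

theorem le_fe_zero (hC : Cross ι x) (hι : ∀ (k : K) (ξ : X), k • ξ = ι k • ξ) {φ : E →+ ℝ}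
    {N : Submodule K X} : N ≤ Fe ι x φ 0 N := by
  intro n hn
  have h1 : (1 : K') • n ∈ Fe ι x φ 0 N := fe_gen hn (by rw [← map_one ι]; exact leE_iota hC φ 1)
  rwa [one_smul] at h1

/-- `K`-independent elements of `N` are `K'`-independent. -/
theorem indep_of_disjoint (hC : Cross ι x) (hι : ∀ (k : K) (ξ : X), k • ξ = ι k • ξ) {φ : E →+ ℝ}
    (hφ : Function.Injective φ) {N : Submodule K X} (hd : N ⊓ Fl ι x φ 0 N = ⊥) {α : Type*}
    (b : α → X) (hb : ∀ i, b i ∈ N) (hli : LinearIndependent K b) : LinearIndependent K' b := by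
  classical
  rw [linearIndependent_iff']
  intro s g hg
  by_contra hcon
  push Not at hcon
  obtain ⟨i0, hi0, hg0⟩ := hcon
  -- exponents
  have hex : ∀ i, ∃ p, g i ≠ 0 → Exp ι x φ (g i) p := by
    intro i
    by_cases h : g i = 0
    · exact ⟨0, fun h' => absurd h h'⟩
    · obtain ⟨p, hp⟩ := exp_exists hC φ h
      exact ⟨p, fun _ => hp⟩
  choose e he using hex
  obtain ⟨i1, hi1, hmax⟩ := Finset.exists_max_image (s.filter fun i => g i ≠ 0) (fun i => φ (e i))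
    ⟨i0, Finset.mem_filter.mpr ⟨hi0, hg0⟩⟩
  have hi1s := (Finset.mem_filter.mp hi1).1
  have hgi1 := (Finset.mem_filter.mp hi1).2
  set a := (g i1)⁻¹ with ha
  have hale : LeE ι x φ (-(e i1)) a := Or.inr ⟨_, exp_inv hC hφ (he i1 hgi1), le_rfl⟩
  have hle : ∀ i ∈ s, LeE ι x φ 0 (a * g i) := by
    intro i hi
    by_cases h : g i = 0
    · left; rw [h, mul_zero]
    · have h1 : LeE ι x φ (e i) (g i) := Or.inr ⟨_, he i h, le_rfl⟩
      have h2 := (hale.mul hC hφ h1)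
      refine h2.mono ?_
      rw [map_add, map_neg, map_zero]
      have := hmax i (Finset.mem_filter.mpr ⟨hi, h⟩)
      linarith
  have hk : ∀ i, ∃ k : K, (i ∈ s → LtE ι x φ 0 (a * g i - ι k)) ∧ (i = i1 → k = 1) := by
    intro i
    by_cases h : i = i1
    · refine ⟨1, fun _ => Or.inl ?_, fun _ => rfl⟩
      rw [h, ha, inv_mul_cancel₀ hgi1, map_one, sub_self]
    · by_cases his : i ∈ s
      · obtain ⟨k, hk⟩ := residue hC hφ (hle i his)
        exact ⟨k, fun _ => hk, fun h' => absurd h' h⟩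
      · exact ⟨0, fun h' => absurd h' his, fun h' => absurd h' h⟩
  choose k hk1 hk2 using hk
  have hmem1 : (∑ i ∈ s, k i • b i) ∈ N := Submodule.sum_mem _ fun i _ => N.smul_mem _ (hb i)
  have hmem2 : (∑ i ∈ s, k i • b i) ∈ Fl ι x φ 0 N := by
    have h0 : ∑ i ∈ s, (a * g i) • b i = 0 := by
      have : ∑ i ∈ s, (a * g i) • b i = a • ∑ i ∈ s, g i • b i := by
        rw [Finset.smul_sum]
        exact Finset.sum_congr rfl fun i _ => by rw [smul_smul]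
      rw [this, hg, smul_zero]
    have h1 : (∑ i ∈ s, k i • b i) = -(∑ i ∈ s, (a * g i - ι (k i)) • b i) := by
      have : ∑ i ∈ s, (a * g i - ι (k i)) • b i = ∑ i ∈ s, (a * g i) • b i - ∑ i ∈ s, k i • b i := by
        rw [← Finset.sum_sub_distrib]
        exact Finset.sum_congr rfl fun i _ => by rw [sub_smul, ← hι]
      rw [this, h0]; simp
    rw [h1]
    apply Submodule.neg_mem
    exact Submodule.sum_mem _ fun i hi => fl_gen (hb i) (hk1 i hi)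
  have h3 : (∑ i ∈ s, k i • b i) ∈ N ⊓ Fl ι x φ 0 N := ⟨hmem1, hmem2⟩
  rw [hd, Submodule.mem_bot] at h3
  have h4 := (linearIndependent_iff'.mp hli) s k h3 i1 hi1s
  rw [hk2 i1 rfl] at h4
  exact one_ne_zero h4

/-- a nonzero finite dimensional `N` is not inside `Fl 0 N`. -/
theorem not_le_fl (hC : Cross ι x) (hι : ∀ (k : K) (ξ : X), k • ξ = ι k • ξ) {φ : E →+ ℝ}
    (hφ : Function.Injective φ) {N : Submodule K X} [FiniteDimensional K N] (hN : N ≠ ⊥) :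
    ¬ N ≤ Fl ι x φ 0 N := by
  classical
  intro hle
  obtain ⟨n0, hn0, hn0'⟩ := Submodule.exists_mem_ne_zero_of_ne_bot hN
  -- a functional
  obtain ⟨f, hf⟩ : ∃ f : X →ₗ[K'] K', f n0 ≠ 0 := by
    let b := Basis.ofVectorSpace K' X
    have : b.repr n0 ≠ 0 := by
      intro h
      exact hn0' (b.repr.map_eq_zero_iff.mp h)
    obtain ⟨i, hi⟩ := Finsupp.ne_iff.mp this
    exact ⟨(Finsupp.lapply i).comp b.repr.toLinearMap, by simpa using hi⟩
  obtain ⟨S, hS⟩ := (Module.Finite.iff_fg (N := N)).mp inferInstance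
  have hSN : ∀ s ∈ S, s ∈ N := fun s hs => by rw [← hS]; exact Submodule.subset_span hs
  have hex : ∀ s, ∃ p, f s ≠ 0 → Exp ι x φ (f s) p := by
    intro s
    by_cases h : f s = 0
    · exact ⟨0, fun h' => absurd h h'⟩
    · obtain ⟨p, hp⟩ := exp_exists hC φ h
      exact ⟨p, fun _ => hp⟩
  choose e he using hex
  have hne : (S.filter fun s => f s ≠ 0).Nonempty := by
    by_contra hcon
    rw [Finset.not_nonempty_iff_eq_empty, Finset.filter_eq_empty_iff] at hcon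
    apply hf
    have : ∀ n ∈ Submodule.span K (S : Set X), f n = 0 := by
      intro n hn
      induction hn using Submodule.span_induction with
      | mem s h => simpa using hcon h
      | zero => exact map_zero f
      | add a b _ _ ha hb => rw [map_add, ha, hb, add_zero]
      | smul k a _ ha => rw [hι, map_smul, ha, smul_zero]
    exact this n0 (by rw [hS]; exact hn0)
  obtain ⟨s1, hs1, hmax⟩ := Finset.exists_max_image _ (fun s => φ (e s)) hne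
  obtain ⟨hs1S, hfs1⟩ := Finset.mem_filter.mp hs1
  have h1 : ∀ n ∈ Submodule.span K (S : Set X), LeE ι x φ (e s1) (f n) := by
    intro n hn
    induction hn using Submodule.span_induction with
    | mem s h =>
      by_cases h0 : f s = 0
      · exact Or.inl h0
      · exact Or.inr ⟨e s, he s h0, hmax s (Finset.mem_filter.mpr ⟨h, h0⟩)⟩
    | zero => exact Or.inl (map_zero f)
    | add a b _ _ ha hb => rw [map_add]; exact ha.add hC hφ hb
    | smul k a _ ha =>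
      rw [hι, map_smul, smul_eq_mul]
      have := (leE_iota hC φ k).mul hC hφ ha
      rwa [zero_add] at this
  have h2 : ∀ ξ ∈ Fl ι x φ 0 N, LtE ι x φ (e s1) (f ξ) := by
    intro ξ hξ
    induction hξ using Submodule.span_induction with
    | mem s h =>
      obtain ⟨μ, n, hn, hμ, rfl⟩ := h
      rw [map_smul, smul_eq_mul]
      have := hμ.mul_le hC hφ (h1 n (by rw [hS]; exact hn))
      rwa [zero_add] at this
    | zero => exact Or.inl (map_zero f)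
    | add a b _ _ ha hb => rw [map_add]; exact ha.add hC hφ hb
    | smul k a _ ha =>
      rw [hι, map_smul, smul_eq_mul]
      have := (leE_iota hC φ k).mul_lt hC hφ ha
      rwa [zero_add] at this
  exact not_ltE hC hφ (he s1 hfs1) (h2 s1 (hle (hSN s1 hs1S)))

/-- local constancy of membership in `Fl`. -/
theorem fl_local {φ : E →+ ℝ} (hφ : Function.Injective φ) {p : E} {N : Submodule K X} {ξ : X}
    (hξ : ξ ∈ Fl ι x φ p N) :
    ∃ Φ : Finset E, ∀ φ' : E →+ ℝ, (∀ v ∈ Φ, 0 < φ v → 0 < φ' v) → ξ ∈ Fl ι x φ' p N := by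
  classical
  induction hξ using Submodule.span_induction with
  | mem ξ h =>
    obtain ⟨ν, n, hn, hν, rfl⟩ := h
    rcases hν with hν | ⟨q, hq, hq'⟩
    · exact ⟨∅, fun φ' _ => fl_gen hn (Or.inl hν)⟩
    · obtain ⟨Φ, hΦ⟩ := exp_local hφ hq
      refine ⟨insert (p - q) Φ, fun φ' h' => fl_gen hn (Or.inr ⟨q, ?_, ?_⟩)⟩
      · exact hΦ φ' fun v hv => h' v (Finset.mem_insert_of_mem hv)
      · have := h' (p - q) (Finset.mem_insert_self _ _) (by rw [map_sub]; linarith)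
        rw [map_sub] at this
        linarith
  | zero => exact ⟨∅, fun φ' _ => Submodule.zero_mem _⟩
  | add a b _ _ ha hb =>
    obtain ⟨Φ, h1⟩ := ha
    obtain ⟨Ψ, h2⟩ := hb
    refine ⟨Φ ∪ Ψ, fun φ' h' => Submodule.add_mem _ (h1 φ' ?_) (h2 φ' ?_)⟩
    · exact fun v hv => h' v (Finset.mem_union_left _ hv)
    · exact fun v hv => h' v (Finset.mem_union_right _ hv)
  | smul k a _ ha =>
    obtain ⟨Φ, h1⟩ := ha
    exact ⟨Φ, fun φ' h' => Submodule.smul_mem _ _ (h1 φ' h')⟩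

theorem fe_local {φ : E →+ ℝ} (hφ : Function.Injective φ) {p : E} {N : Submodule K X} {ξ : X}
    (hξ : ξ ∈ Fe ι x φ p N) :
    ∃ Φ : Finset E, ∀ φ' : E →+ ℝ, (∀ v ∈ Φ, 0 < φ v → 0 < φ' v) → ξ ∈ Fe ι x φ' p N := by
  classical
  induction hξ using Submodule.span_induction with
  | mem ξ h =>
    obtain ⟨ν, n, hn, hν, rfl⟩ := h
    rcases hν with hν | ⟨q, hq, hq'⟩
    · exact ⟨∅, fun φ' _ => fe_gen hn (Or.inl hν)⟩
    · obtain ⟨Φ, hΦ⟩ := exp_local hφ hq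
      refine ⟨insert (p - q) Φ, fun φ' h' => fe_gen hn (Or.inr ⟨q, ?_, ?_⟩)⟩
      · exact hΦ φ' fun v hv => h' v (Finset.mem_insert_of_mem hv)
      · rcases hq'.lt_or_eq with h3 | h3
        · have := h' (p - q) (Finset.mem_insert_self _ _) (by rw [map_sub]; linarith)
          rw [map_sub] at this
          linarith
        · rw [hφ h3]
  | zero => exact ⟨∅, fun φ' _ => Submodule.zero_mem _⟩
  | add a b _ _ ha hb =>
    obtain ⟨Φ, h1⟩ := ha
    obtain ⟨Ψ, h2⟩ := hb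
    refine ⟨Φ ∪ Ψ, fun φ' h' => Submodule.add_mem _ (h1 φ' ?_) (h2 φ' ?_)⟩
    · exact fun v hv => h' v (Finset.mem_union_left _ hv)
    · exact fun v hv => h' v (Finset.mem_union_right _ hv)
  | smul k a _ ha =>
    obtain ⟨Φ, h1⟩ := ha
    exact ⟨Φ, fun φ' h' => Submodule.smul_mem _ _ (h1 φ' h')⟩

theorem le_fl_local {φ : E →+ ℝ} (hφ : Function.Injective φ) {p : E} {N P : Submodule K X}
    [FiniteDimensional K P] (hP : P ≤ Fl ι x φ p N) :
    ∃ Φ : Finset E, ∀ φ' : E →+ ℝ, (∀ v ∈ Φ, 0 < φ v → 0 < φ' v) → P ≤ Fl ι x φ' p N := by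
  classical
  obtain ⟨S, hS⟩ := (Module.Finite.iff_fg (N := P)).mp inferInstance
  have hSN : ∀ s ∈ S, s ∈ Fl ι x φ p N :=
    fun s hs => hP (by rw [← hS]; exact Submodule.subset_span hs)
  have : ∀ s, ∃ Φ : Finset E, s ∈ S → ∀ φ' : E →+ ℝ, (∀ v ∈ Φ, 0 < φ v → 0 < φ' v) →
      s ∈ Fl ι x φ' p N := by
    intro s
    by_cases hs : s ∈ S
    · obtain ⟨Φ, h⟩ := fl_local hφ (hSN s hs)
      exact ⟨Φ, fun _ => h⟩
    · exact ⟨∅, fun h => absurd h hs⟩
  choose Φ hΦ using this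
  refine ⟨S.biUnion Φ, fun φ' h' => ?_⟩
  rw [← hS]
  apply Submodule.span_le.mpr
  intro s hs
  exact hΦ s hs φ' fun v hv => h' v (Finset.mem_biUnion.mpr ⟨s, hs, hv⟩)

theorem le_fe_local {φ : E →+ ℝ} (hφ : Function.Injective φ) {p : E} {N P : Submodule K X}
    [FiniteDimensional K P] (hP : P ≤ Fe ι x φ p N) :
    ∃ Φ : Finset E, ∀ φ' : E →+ ℝ, (∀ v ∈ Φ, 0 < φ v → 0 < φ' v) → P ≤ Fe ι x φ' p N := by
  classical
  obtain ⟨S, hS⟩ := (Module.Finite.iff_fg (N := P)).mp inferInstance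
  have hSN : ∀ s ∈ S, s ∈ Fe ι x φ p N :=
    fun s hs => hP (by rw [← hS]; exact Submodule.subset_span hs)
  have : ∀ s, ∃ Φ : Finset E, s ∈ S → ∀ φ' : E →+ ℝ, (∀ v ∈ Φ, 0 < φ v → 0 < φ' v) →
      s ∈ Fe ι x φ' p N := by
    intro s
    by_cases hs : s ∈ S
    · obtain ⟨Φ, h⟩ := fe_local hφ (hSN s hs)
      exact ⟨Φ, fun _ => h⟩
    · exact ⟨∅, fun h => absurd h hs⟩
  choose Φ hΦ using this
  refine ⟨S.biUnion Φ, fun φ' h' => ?_⟩
  rw [← hS]
  apply Submodule.span_le.mpr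
  intro s hs
  exact hΦ s hs φ' fun v hv => h' v (Finset.mem_biUnion.mpr ⟨s, hs, hv⟩)

end fil

section act

variable {K K' E : Type} [DivisionRing K] [DivisionRing K'] [AddCommGroup E]
  {ι : K →+* K'} {x : E → K'} {X : Type} [AddCommGroup X] [Module K X] [Module K' X]

/-- `u` acts on `X` compatibly with an automorphism of `(K ⊂ K', x)` inducing `M` on `E`. -/
def Act (ι : K →+* K') (x : E → K') (u : X ≃+ X) (M : E ≃+ E) : Prop :=
  ∃ (σ : K' ≃+* K') (σ0 : K ≃+* K), (∀ (κ : K') (ξ : X), u (κ • ξ) = σ κ • u ξ) ∧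
    (∀ k, σ (ι k) = ι (σ0 k)) ∧ (∀ v, ∃ c, σ (x v) = ι c * x (M v))

theorem Act.comp {u u' : X ≃+ X} {M M' : E ≃+ E} (h : Act ι x u M) (h' : Act ι x u' M') :
    Act ι x (u.trans u') (M.trans M') := by
  obtain ⟨σ, σ0, h1, h2, h3⟩ := h
  obtain ⟨τ, τ0, h1', h2', h3'⟩ := h'
  refine ⟨σ.trans τ, σ0.trans τ0, ?_, ?_, ?_⟩
  · intro κ ξ
    simp [h1, h1']
  · intro k; simp [h2, h2']
  · intro v
    obtain ⟨c, hc⟩ := h3 v
    obtain ⟨d, hd⟩ := h3' (M v)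
    refine ⟨τ0 c * d, ?_⟩
    simp [hc, hd, h2', mul_assoc]

theorem Act.refl : Act ι x (AddEquiv.refl X) (AddEquiv.refl E) :=
  ⟨RingEquiv.refl _, RingEquiv.refl _, fun _ _ => rfl, fun _ => rfl, fun v => ⟨1, by simp⟩⟩

theorem Act.iter {u : X ≃+ X} {M : E ≃+ E} (h : Act ι x u M) (j : ℕ) :
    ∃ (uj : X ≃+ X) (Mj : E ≃+ E), Act ι x uj Mj ∧ (∀ ξ, uj ξ = (⇑u)^[j] ξ) ∧
      (∀ v, Mj v = (⇑M)^[j] v) := by
  induction j with
  | zero => exact ⟨_, _, Act.refl, fun _ => rfl, fun _ => rfl⟩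
  | succ j ih =>
    obtain ⟨uj, Mj, h1, h2, h3⟩ := ih
    refine ⟨uj.trans u, Mj.trans M, h1.comp h, ?_, ?_⟩
    · intro ξ
      rw [Function.iterate_succ_apply']
      simp [h2]
    · intro v
      rw [Function.iterate_succ_apply']
      simp [h3]

theorem Act.symm (hC : Cross ι x) {u : X ≃+ X} {M : E ≃+ E} (h : Act ι x u M) :
    Act ι x u.symm M.symm := by
  obtain ⟨σ, σ0, h1, h2, h3⟩ := h
  refine ⟨σ.symm, σ0.symm, ?_, ?_, ?_⟩
  · intro κ ξ
    apply u.injective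
    rw [u.apply_symm_apply, h1, σ.apply_symm_apply, u.apply_symm_apply]
  · intro k
    apply σ.injective
    rw [σ.apply_symm_apply, h2, σ0.apply_symm_apply]
  · intro v
    obtain ⟨c, hc⟩ := h3 (M.symm v)
    rw [M.apply_symm_apply] at hc
    have hc0 : c ≠ 0 := by
      intro h0
      rw [h0, map_zero, zero_mul, map_eq_zero_iff σ σ.injective] at hc
      exact hC.ne0 _ hc
    refine ⟨σ0.symm c⁻¹, ?_⟩
    apply σ.injective
    rw [σ.apply_symm_apply, map_mul, h2, σ0.apply_symm_apply, hc, ← mul_assoc, ← map_mul,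
      inv_mul_cancel₀ hc0, map_one, one_mul]

theorem Act.ltE (hC : Cross ι x) {σ : K' ≃+* K'} {σ0 : K ≃+* K}
    (h0 : ∀ k, σ (ι k) = ι (σ0 k)) {M : E ≃+ E} (hM : ∀ v, ∃ c, σ (x v) = ι c * x (M v))
    {φ : E →+ ℝ} {p : E} {μ : K'} (h : LtE ι x (φ.comp M.toAddMonoidHom) p μ) :
    LtE ι x φ (M p) (σ μ) := by
  rcases h with h | ⟨q, h, h'⟩
  · left; rw [h, map_zero]
  · exact Or.inr ⟨M q, exp_sigma hC σ σ0 h0 M hM h, h'⟩

theorem Act.leE (hC : Cross ι x) {σ : K' ≃+* K'} {σ0 : K ≃+* K}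
    (h0 : ∀ k, σ (ι k) = ι (σ0 k)) {M : E ≃+ E} (hM : ∀ v, ∃ c, σ (x v) = ι c * x (M v))
    {φ : E →+ ℝ} {p : E} {μ : K'} (h : LeE ι x (φ.comp M.toAddMonoidHom) p μ) :
    LeE ι x φ (M p) (σ μ) := by
  rcases h with h | ⟨q, h, h'⟩
  · left; rw [h, map_zero]
  · exact Or.inr ⟨M q, exp_sigma hC σ σ0 h0 M hM h, h'⟩

theorem Act.smulK (hι : ∀ (k : K) (ξ : X), k • ξ = ι k • ξ) {u : X ≃+ X} {σ : K' ≃+* K'}
    {σ0 : K ≃+* K} (h1 : ∀ (κ : K') (ξ : X), u (κ • ξ) = σ κ • u ξ)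
    (h0 : ∀ k, σ (ι k) = ι (σ0 k)) (k : K) (ξ : X) : u (k • ξ) = σ0 k • u ξ := by
  rw [hι, h1, h0, ← hι]

theorem Act.fl (hC : Cross ι x) (hι : ∀ (k : K) (ξ : X), k • ξ = ι k • ξ) {u : X ≃+ X}
    {M : E ≃+ E} (h : Act ι x u M) {φ : E →+ ℝ} {p : E} {N N' : Submodule K X}
    (hN : ∀ n ∈ N, u n ∈ N') {ξ : X} (hξ : ξ ∈ Fl ι x (φ.comp M.toAddMonoidHom) p N) :
    u ξ ∈ Fl ι x φ (M p) N' := by
  obtain ⟨σ, σ0, h1, h2, h3⟩ := h
  induction hξ using Submodule.span_induction with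
  | mem ξ h =>
    obtain ⟨ν, n, hn, hν, rfl⟩ := h
    rw [h1]
    exact fl_gen (hN n hn) (Act.ltE hC h2 h3 hν)
  | zero => rw [map_zero]; exact Submodule.zero_mem _
  | add a b _ _ ha hb => rw [map_add]; exact Submodule.add_mem _ ha hb
  | smul k a _ ha => rw [Act.smulK hι h1 h2]; exact Submodule.smul_mem _ _ ha

theorem Act.fe (hC : Cross ι x) (hι : ∀ (k : K) (ξ : X), k • ξ = ι k • ξ) {u : X ≃+ X}
    {M : E ≃+ E} (h : Act ι x u M) {φ : E →+ ℝ} {p : E} {N N' : Submodule K X}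
    (hN : ∀ n ∈ N, u n ∈ N') {ξ : X} (hξ : ξ ∈ Fe ι x (φ.comp M.toAddMonoidHom) p N) :
    u ξ ∈ Fe ι x φ (M p) N' := by
  obtain ⟨σ, σ0, h1, h2, h3⟩ := h
  induction hξ using Submodule.span_induction with
  | mem ξ h =>
    obtain ⟨ν, n, hn, hν, rfl⟩ := h
    rw [h1]
    exact fe_gen (hN n hn) (Act.leE hC h2 h3 hν)
  | zero => rw [map_zero]; exact Submodule.zero_mem _
  | add a b _ _ ha hb => rw [map_add]; exact Submodule.add_mem _ ha hb
  | smul k a _ ha => rw [Act.smulK hι h1 h2]; exact Submodule.smul_mem _ _ ha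

end act

end Pool.Agent.Helper946.PH3
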