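import Mathlib
import Pool.Agent.Helper294.HX.PHDefs
import Pool.Agent.Helper294.HX.PHCross
import Pool.Agent.Helper294.HX.PHFil
import Pool.Agent.Helper294.HX.PHMin
import Pool.Agent.Helper294.HX.HCRad

set_option autoImplicit false
set_option linter.unusedSectionVars false
set_option linter.unusedVariables false

namespace Pool.Agent.Helper946.PH3

open Module Pool.Agent.Helper946.HC

/-- rank-nullity for a subspace. -/
theorem finrank_map_add {K M N : Type} [DivisionRing K] [AddCommGroup M] [Module K M]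
    [AddCommGroup N] [Module K N] (f : M →ₗ[K] N) (W : Submodule K M) [FiniteDimensional K W] :
    finrank K (W.map f) + finrank K (W ⊓ LinearMap.ker f : Submodule K M) = finrank K W := by
  have h := LinearMap.finrank_range_add_finrank_ker (f.domRestrict W)
  rw [LinearMap.range_domRestrict, LinearMap.ker_domRestrict] at h
  have h2 : finrank K (W ⊓ LinearMap.ker f : Submodule K M)
      = finrank K ((LinearMap.ker f).comap W.subtype) := by
    rw [← Submodule.map_comap_subtype, Submodule.finrank_map_subtype_eq]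
  rw [h2, h]

section quot

variable {K' X : Type} [DivisionRing K'] [AddCommGroup X] [Module K' X]

/-- the automorphism of the quotient. -/
noncomputable def qEquiv (S : Submodule K' X) (u : X ≃+ X) (h : ∀ ξ, u ξ ∈ S ↔ ξ ∈ S) :
    (X ⧸ S) ≃+ (X ⧸ S) where
  toFun := Quotient.map' u (by
    intro a b hab
    rw [Submodule.quotientRel_def] at hab ⊢
    rw [← map_sub, h]; exact hab)
  invFun := Quotient.map' u.symm (by
    intro a b hab
    rw [Submodule.quotientRel_def] at hab ⊢
    rw [← map_sub, ← h, u.apply_symm_apply]; exact hab)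
  left_inv := by
    intro q
    induction q using Quotient.inductionOn' with
    | h a => simp [Quotient.map'_mk'']
  right_inv := by
    intro q
    induction q using Quotient.inductionOn' with
    | h a => simp [Quotient.map'_mk'']
  map_add' := by
    intro p q
    induction p using Quotient.inductionOn' with
    | h a =>
      induction q using Quotient.inductionOn' with
      | h b =>
        show Submodule.Quotient.mk (u (a + b)) = Submodule.Quotient.mk (u a) + Submodule.Quotient.mk (u b)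
        rw [map_add, Submodule.Quotient.mk_add]

theorem qEquiv_mk (S : Submodule K' X) (u : X ≃+ X) (h : ∀ ξ, u ξ ∈ S ↔ ξ ∈ S) (ξ : X) :
    qEquiv S u h (Submodule.Quotient.mk ξ) = Submodule.Quotient.mk (u ξ) := rfl

end quot

section

variable {K K' E : Type} [DivisionRing K] [DivisionRing K'] [AddCommGroup E]
  {ι : K →+* K'} {x : E → K'}

theorem Rec.pow {φ : E →+ ℝ} {M : E ≃+ E} (h : Rec φ M) {j : ℕ} (hj : 0 < j) {Mj : E ≃+ E}
    (hMj : ∀ v, Mj v = (⇑M)^[j] v) : Rec φ Mj := by
  intro Φ j1 hj1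
  obtain ⟨i, hi, hid, hiΦ⟩ := h Φ (j * j1) (Nat.mul_pos hj hj1)
  obtain ⟨c, rfl⟩ := hid
  refine ⟨j1 * c, ?_, dvd_mul_right _ _, ?_⟩
  · exact Nat.pos_of_ne_zero (by rintro h0; rw [mul_assoc, h0] at hi; simp at hi)
  · intro v hv hp
    have h1 := hiΦ v hv hp
    have h2 : (⇑Mj) = (⇑M)^[j] := funext hMj
    rw [h2, ← Function.iterate_mul, ← mul_assoc]
    exact h1

theorem Act.semiK {X : Type} [AddCommGroup X] [Module K X] [Module K' X]
    (hι : ∀ (k : K) (ξ : X), k • ξ = ι k • ξ) {u : X ≃+ X} {M : E ≃+ E} (h : Act ι x u M) :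
    Semi K u := by
  obtain ⟨σ, σ0, h1, h2, h3⟩ := h
  exact ⟨σ0, Act.smulK hι h1 h2⟩

/-- a `K'`-subspace seen as a `K`-subspace. -/
def rs {X : Type} [AddCommGroup X] [Module K X] [Module K' X]
    (hι : ∀ (k : K) (ξ : X), k • ξ = ι k • ξ) (S : Submodule K' X) : Submodule K X where
  carrier := S
  add_mem' := S.add_mem
  zero_mem' := S.zero_mem
  smul_mem' := by intro k ξ h; rw [hι]; exact S.smul_mem _ h

theorem span_stable (hC : Cross ι x) {X : Type} [AddCommGroup X] [Module K X] [Module K' X]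
    {u : X ≃+ X} {M : E ≃+ E} (hA : Act ι x u M) {N : Submodule K X}
    (hN : ∀ ξ, u ξ ∈ N ↔ ξ ∈ N) :
    ∀ ξ, u ξ ∈ Submodule.span K' (N : Set X) ↔ ξ ∈ Submodule.span K' (N : Set X) := by
  have key : ∀ (v : X ≃+ X) (M' : E ≃+ E), Act ι x v M' → (∀ ξ, ξ ∈ N → v ξ ∈ N) →
      ∀ ξ, ξ ∈ Submodule.span K' (N : Set X) → v ξ ∈ Submodule.span K' (N : Set X) := by
    rintro v M' ⟨σ, σ0, h1, -, -⟩ hv ξ hξ
    induction hξ using Submodule.span_induction with
    | mem n hn => exact Submodule.subset_span (hv n hn)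
    | zero => rw [map_zero]; exact Submodule.zero_mem _
    | add a b _ _ ha hb => rw [map_add]; exact Submodule.add_mem _ ha hb
    | smul k a _ ha => rw [h1]; exact Submodule.smul_mem _ _ ha
  intro ξ
  constructor
  · intro h
    have := key u.symm M.symm (hA.symm hC) (fun n hn => by rw [← hN, u.apply_symm_apply]; exact hn)
      _ h
    rwa [u.symm_apply_apply] at this
  · exact key u M hA (fun n hn => (hN n).mpr hn) ξ

theorem finrank_span_eq (hC : Cross ι x) {X : Type} [AddCommGroup X] [Module K X] [Module K' X]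
    (hι : ∀ (k : K) (ξ : X), k • ξ = ι k • ξ) {φ : E →+ ℝ}
    (hφ : Function.Injective φ) {N : Submodule K X} [FiniteDimensional K N]
    (hd : N ⊓ Fl ι x φ 0 N = ⊥) :
    finrank K' (Submodule.span K' (N : Set X)) = finrank K N := by
  let b := Module.finBasis K N
  have hli : LinearIndependent K' (fun i => (b i : X)) := by
    apply indep_of_disjoint hC hι hφ hd _ (fun i => (b i).2)
    exact b.linearIndependent.map' N.subtype (Submodule.ker_subtype N)
  have h1 : Submodule.span K' (N : Set X) = Submodule.span K' (Set.range fun i => (b i : X)) := by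
    apply le_antisymm
    · apply Submodule.span_le.mpr
      intro n hn
      obtain ⟨ν, hν⟩ := coords_span (ι := ι) hι b (Submodule.subset_span hn)
      show n ∈ _
      rw [hν]
      exact Submodule.sum_mem _ fun i _ => Submodule.smul_mem _ _ (Submodule.subset_span ⟨i, rfl⟩)
    · apply Submodule.span_mono
      rintro _ ⟨i, rfl⟩
      exact (b i).2
  rw [h1, finrank_span_eq_card hli, Fintype.card_fin]

theorem fd_span {X : Type} [AddCommGroup X] [Module K X] [Module K' X]
    (hι : ∀ (k : K) (ξ : X), k • ξ = ι k • ξ) (N : Submodule K X) [FiniteDimensional K N] :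
    FiniteDimensional K' (Submodule.span K' (N : Set X)) := by
  obtain ⟨S, hS⟩ := (Module.Finite.iff_fg (N := N)).mp inferInstance
  apply Module.Finite.iff_fg.mpr
  refine ⟨S, ?_⟩
  apply le_antisymm
  · apply Submodule.span_mono
    intro s hs
    rw [← hS]; exact Submodule.subset_span hs
  · apply Submodule.span_le.mpr
    intro n hn
    rw [← hS] at hn
    show n ∈ _
    induction hn using Submodule.span_induction with
    | mem s h => exact Submodule.subset_span h
    | zero => exact Submodule.zero_mem _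
    | add a b _ _ ha hb => exact Submodule.add_mem _ ha hb
    | smul k a _ ha => rw [hι]; exact Submodule.smul_mem _ _ ha

/-- the quotient system. -/
theorem Act.quot {X : Type} [AddCommGroup X] [Module K' X]
    {u : X ≃+ X} {M : E ≃+ E} (hA : Act ι x u M) (S : Submodule K' X)
    (h : ∀ ξ, u ξ ∈ S ↔ ξ ∈ S) : Act ι x (qEquiv S u h) M := by
  obtain ⟨σ, σ0, h1, h2, h3⟩ := hA
  refine ⟨σ, σ0, ?_, h2, h3⟩
  intro κ q
  obtain ⟨ξ, rfl⟩ := Submodule.Quotient.mk_surjective S q
  rw [← Submodule.Quotient.mk_smul, qEquiv_mk, qEquiv_mk, h1, Submodule.Quotient.mk_smul]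

/-- the projection as a `K`-linear map. -/
def qmap {X : Type} [AddCommGroup X] [Module K X] [Module K' X]
    (hι : ∀ (k : K) (ξ : X), k • ξ = ι k • ξ) (S : Submodule K' X) :
    letI : Module K (X ⧸ S) := Module.compHom (X ⧸ S) ι
    X →ₗ[K] (X ⧸ S) :=
  letI : Module K (X ⧸ S) := Module.compHom (X ⧸ S) ι
  { toFun := Submodule.Quotient.mk
    map_add' := fun a b => Submodule.Quotient.mk_add S
    map_smul' := by
      intro k ξ
      rw [hι, Submodule.Quotient.mk_smul]
      rfl }

/-- hyperbolic case: dimension bound. -/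
theorem partOH (hC : Cross ι x) {φ : E →+ ℝ} (hφ : Function.Injective φ) (n : ℕ) :
    ∀ (X : Type) [AddCommGroup X] [Module K X] [Module K' X]
    (hι : ∀ (k : K) (ξ : X), k • ξ = ι k • ξ) (u : X ≃+ X)
    (M : E ≃+ E) (hA : Act ι x u M) (hrec : Rec φ M)
    (hper : ∀ (v : E) (j : ℕ), 0 < j → (⇑M)^[j] v = v → v = 0)
    (W : Submodule K X) [FiniteDimensional K W] (hWst : ∀ ξ, u ξ ∈ W ↔ ξ ∈ W)
    (hn : finrank K W = n), finrank K W ≤ finrank K' (Submodule.span K' (W : Set X)) := by
  classical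
  induction n using Nat.strong_induction_on with
  | _ n ih =>
  intro X _ _ _ hι u M hA hrec hper W _ hWst hn
  by_cases hW : W = ⊥
  · subst hW; simp
  -- minimal power-stable subspace
  let 𝒮 : Set (Submodule K X) := {P | P ≤ W ∧ P ≠ ⊥ ∧ ∃ j, 0 < j ∧ ∀ ξ, (⇑u)^[j] ξ ∈ P ↔ ξ ∈ P}
  have hne : 𝒮.Nonempty := ⟨W, le_rfl, hW, 1, one_pos, fun ξ => by simpa using hWst ξ⟩
  obtain ⟨N, ⟨hNW, hN0, j0, hj0, hst⟩, hNmin⟩ :=
    (measure (fun P : Submodule K X => finrank K P)).wf.has_min 𝒮 hne
  have hNfd : FiniteDimensional K N := Submodule.finiteDimensional_of_le hNW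
  have hmin : ∀ P : Submodule K X, P ≤ N → P ≠ ⊥ →
      (∃ j, 0 < j ∧ ∀ ξ, (⇑u)^[j] ξ ∈ P ↔ ξ ∈ P) → P = N := by
    intro P hPN hP0 hPst
    by_contra hne'
    have hlt : P < N := lt_of_le_of_ne hPN hne'
    exact hNmin P ⟨hPN.trans hNW, hP0, hPst⟩ (Submodule.finrank_lt_finrank_of_lt hlt)
  have hd := partA hC hι hA hφ hrec hN0 hj0 hst hmin
  obtain ⟨uj, Mj, hAj, huj, hMj⟩ := hA.iter j0
  have hNj : ∀ ξ, uj ξ ∈ N ↔ ξ ∈ N := by intro ξ; rw [huj]; exact hst ξ
  have hWj' : ∀ ξ, (⇑u)^[j0] ξ ∈ W ↔ ξ ∈ W :=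
    iter_stable (⇑u) (W : Set X) (one_dvd j0) (fun ξ => by simpa using hWst ξ)
  have hWj : ∀ ξ, uj ξ ∈ W ↔ ξ ∈ W := by intro ξ; rw [huj]; exact hWj' ξ
  set S := Submodule.span K' (N : Set X) with hS
  have hSj := span_stable hC hAj hNj
  have hfS : finrank K' S = finrank K N := finrank_span_eq hC hι hφ hd
  have hNS : N ≤ rs hι S := fun n hn => Submodule.subset_span hn
  -- intersection
  have hfd1 : FiniteDimensional K (W ⊓ rs hι S : Submodule K X) :=
    Submodule.finiteDimensional_of_le inf_le_left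
  have hint : finrank K (W ⊓ rs hι S : Submodule K X) ≤ finrank K N := by
    apply partH hC hι hA hφ hrec hper hj0 hst hd (W := W ⊓ rs hι S) hj0
    · intro ξ
      rw [← huj]
      constructor
      · rintro ⟨h1, h2⟩; exact ⟨(hWj ξ).mp h1, (hSj ξ).mp h2⟩
      · rintro ⟨h1, h2⟩; exact ⟨(hWj ξ).mpr h1, (hSj ξ).mpr h2⟩
    · intro ξ hξ; exact hξ.2
  -- quotient
  letI : Module K (X ⧸ S) := Module.compHom (X ⧸ S) ι
  have hιq : ∀ (k : K) (ξ : X ⧸ S), k • ξ = ι k • ξ := fun k ξ => rfl
  let π : X →ₗ[K] (X ⧸ S) := qmap hι S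
  have hπ : ∀ ξ, π ξ = Submodule.Quotient.mk ξ := fun ξ => rfl
  have hker : LinearMap.ker π = rs hι S := by
    ext ξ
    rw [LinearMap.mem_ker, hπ, Submodule.Quotient.mk_eq_zero]
    rfl
  have hrk := finrank_map_add π W
  rw [hker] at hrk
  have hpos : 0 < finrank K (W ⊓ rs hι S : Submodule K X) := by
    have : N ≤ W ⊓ rs hι S := le_inf hNW hNS
    have h1 : 0 < finrank K N := by
      rw [Module.finrank_pos_iff]
      exact (Submodule.nontrivial_iff_ne_bot).mpr hN0
    exact h1.trans_le (Submodule.finrank_mono this)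
  have hlt : finrank K (W.map π) < n := by omega
  have hAq := hAj.quot S hSj
  have hWq : ∀ ξ, qEquiv S uj hSj ξ ∈ W.map π ↔ ξ ∈ W.map π := by
    intro q
    obtain ⟨ξ, rfl⟩ := Submodule.Quotient.mk_surjective S q
    rw [qEquiv_mk]
    constructor
    · rintro ⟨w, hw, hwq⟩
      rw [hπ] at hwq
      have h1 : w - uj ξ ∈ S := (Submodule.Quotient.eq S).mp hwq
      refine ⟨uj.symm w, ?_, ?_⟩
      · show uj.symm w ∈ W
        rw [← hWj, uj.apply_symm_apply]; exact hw
      · rw [hπ]
        apply (Submodule.Quotient.eq S).mpr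
        rw [← hSj, map_sub, uj.apply_symm_apply]; exact h1
    · rintro ⟨w, hw, hwq⟩
      rw [hπ] at hwq
      have h1 : w - ξ ∈ S := (Submodule.Quotient.eq S).mp hwq
      refine ⟨uj w, (hWj w).mpr hw, ?_⟩
      rw [hπ]
      apply (Submodule.Quotient.eq S).mpr
      rw [← map_sub, hSj]; exact h1
  have hperj : ∀ (v : E) (j : ℕ), 0 < j → (⇑Mj)^[j] v = v → v = 0 := by
    intro v j hj hv
    have h2 : (⇑Mj) = (⇑M)^[j0] := funext hMj
    rw [h2, ← Function.iterate_mul] at hv
    exact hper v (j0 * j) (Nat.mul_pos hj0 hj) hv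
  have hih := ih _ hlt (X ⧸ S) hιq (qEquiv S uj hSj) Mj hAq (hrec.pow hj0 hMj) hperj (W.map π)
    hWq rfl
  -- the K'-side
  have hTfd : FiniteDimensional K' (Submodule.span K' (W : Set X)) := fd_span hι W
  have hrk' := finrank_map_add S.mkQ (Submodule.span K' (W : Set X))
  rw [Submodule.ker_mkQ, inf_eq_right.mpr (Submodule.span_mono hNW)] at hrk'
  have hmap : (Submodule.span K' (W : Set X)).map S.mkQ
      = Submodule.span K' ((W.map π : Submodule K (X ⧸ S)) : Set (X ⧸ S)) := by
    rw [Submodule.map_span]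
    congr 1
  rw [hmap] at hrk'
  calc finrank K W = finrank K (W.map π) + finrank K (W ⊓ rs hι S : Submodule K X) := hrk.symm
    _ ≤ finrank K' (Submodule.span K' ((W.map π : Submodule K (X ⧸ S)) : Set (X ⧸ S)))
        + finrank K' S := Nat.add_le_add hih (hint.trans_eq hfS.symm)
    _ = _ := hrk'

end

end Pool.Agent.Helper946.PH3
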