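import Mathlib
import Pool.Agent.Helper294.HX.PHDefs
import Pool.Agent.Helper294.HX.PHCross

set_option autoImplicit false
set_option linter.unusedSectionVars false
set_option linter.unusedVariables false

namespace Pool.Agent.Helper946.PH3

section inl

variable {K K' E : Type} [DivisionRing K] [DivisionRing K'] [AddCommGroup E]
  {ι : K →+* K'} {x : E → K'}

/-- `κ` is a sum `∑ k_v x_v` over `v ∈ T`. -/
def InL (ι : K →+* K') (x : E → K') (T : Set E) (κ : K') : Prop :=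
  ∃ f : E →₀ K, (∀ v ∈ f.support, v ∈ T) ∧ ev ι x f = κ

theorem InL.zero (T : Set E) : InL ι x T 0 := ⟨0, by simp, ev_zero⟩

theorem InL.add {T : Set E} {a b : K'} (ha : InL ι x T a) (hb : InL ι x T b) :
    InL ι x T (a + b) := by
  classical
  obtain ⟨f, hf, rfl⟩ := ha
  obtain ⟨g, hg, rfl⟩ := hb
  refine ⟨f + g, fun v hv => ?_, ev_add f g⟩
  rcases Finset.mem_union.mp (Finsupp.support_add hv) with h | h
  · exact hf v h
  · exact hg v h

theorem ev_neg (f : E →₀ K) : ev ι x (-f) = - ev ι x f := by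
  have : ev ι x (-f) + ev ι x f = 0 := by rw [← ev_add, neg_add_cancel, ev_zero]
  exact eq_neg_of_add_eq_zero_left this

theorem InL.neg {T : Set E} {a : K'} (ha : InL ι x T a) : InL ι x T (-a) := by
  obtain ⟨f, hf, rfl⟩ := ha
  refine ⟨-f, fun v hv => hf v ?_, ev_neg f⟩
  rwa [Finsupp.support_neg] at hv

theorem InL.sub {T : Set E} {a b : K'} (ha : InL ι x T a) (hb : InL ι x T b) :
    InL ι x T (a - b) := by
  rw [sub_eq_add_neg]; exact ha.add hb.neg

theorem InL.sum {α : Type*} {T : Set E} (s : Finset α) (f : α → K')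
    (h : ∀ i ∈ s, InL ι x T (f i)) : InL ι x T (∑ i ∈ s, f i) := by
  classical
  induction s using Finset.induction_on with
  | empty => rw [Finset.sum_empty]; exact InL.zero T
  | insert a s ha ih =>
    rw [Finset.sum_insert ha]
    exact (h a (Finset.mem_insert_self _ _)).add
      (ih fun i hi => h i (Finset.mem_insert_of_mem hi))

theorem InL.mono {S T : Set E} (h : ∀ v ∈ S, v ∈ T) {a : K'} (ha : InL ι x S a) :
    InL ι x T a := by
  obtain ⟨f, hf, rfl⟩ := ha
  exact ⟨f, fun v hv => h v (hf v hv), rfl⟩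

theorem InL.gen {T : Set E} (k : K) {v : E} (hv : v ∈ T) : InL ι x T (ι k * x v) := by
  classical
  refine ⟨Finsupp.single v k, fun w hw => ?_, ev_single v k⟩
  have := Finset.mem_singleton.mp (Finsupp.support_single_subset hw)
  rw [this]; exact hv

theorem InL.xx {T : Set E} {v : E} (hv : v ∈ T) : InL ι x T (x v) := by
  have := InL.gen (ι := ι) (x := x) (T := T) (1 : K) hv
  rwa [map_one, one_mul] at this

theorem InL.mul (hC : Cross ι x) {S T U : Set E} (hU : ∀ s ∈ S, ∀ t ∈ T, s + t ∈ U) {a b : K'}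
    (ha : InL ι x S a) (hb : InL ι x T b) : InL ι x U (a * b) := by
  obtain ⟨f, hf, rfl⟩ := ha
  obtain ⟨g, hg, rfl⟩ := hb
  have e1 : ev ι x f = ∑ a ∈ f.support, ι (f a) * x a := rfl
  have e2 : ev ι x g = ∑ b ∈ g.support, ι (g b) * x b := rfl
  rw [e1, e2, Finset.sum_mul_sum]
  refine InL.sum _ _ fun a ha => InL.sum _ _ fun b hb => ?_
  obtain ⟨k', hk'⟩ := hC.conj a (g b)
  obtain ⟨c, hc⟩ := hC.mul a b
  have : ι (f a) * x a * (ι (g b) * x b) = ι (f a * k' * c) * x (a + b) := by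
    calc ι (f a) * x a * (ι (g b) * x b) = ι (f a) * (x a * ι (g b)) * x b := by
          simp only [mul_assoc]
      _ = ι (f a) * ι k' * (x a * x b) := by rw [hk']; simp only [mul_assoc]
      _ = _ := by rw [hc]; simp only [map_mul, mul_assoc]
  rw [this]
  exact InL.gen _ (hU _ (hf a ha) _ (hg b hb))

theorem ev_inj (hC : Cross ι x) {a b : E →₀ K} (hab : ev ι x a = ev ι x b) : a = b := by
  have : ev ι x (a - b) = 0 := by
    have h5 : ev ι x (a - b) + ev ι x b = ev ι x a := by rw [← ev_add, sub_add_cancel]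
    rw [hab] at h5
    simpa using h5
  exact sub_eq_zero.mp (hC.indep _ this)

theorem InL.disj (hC : Cross ι x) {S T : Set E} (hd : ∀ v ∈ S, v ∉ T) {a : K'}
    (h1 : InL ι x S a) (h2 : InL ι x T a) : a = 0 := by
  obtain ⟨f, hf, hfa⟩ := h1
  obtain ⟨g, hg, hga⟩ := h2
  have hfg : f = g := ev_inj hC (hfa.trans hga.symm)
  have h0 : f = 0 := by
    ext v
    by_contra hne
    have hv : v ∈ f.support := Finsupp.mem_support_iff.mpr hne
    exact hd v (hf v hv) (hg v (hfg ▸ hv))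
  rw [← hfa, h0, ev_zero]

theorem InL.iota (hC : Cross ι x) {T : Set E} (h0 : (0 : E) ∈ T) (k : K) :
    InL ι x T (ι k) := by
  obtain ⟨c, hc, hx⟩ := x_zero hC
  have := InL.gen (ι := ι) (x := x) (T := T) (k * c⁻¹) h0
  rwa [hx, ← map_mul, mul_assoc, inv_mul_cancel₀ hc, mul_one] at this

theorem InL.xinv (hC : Cross ι x) (v : E) : InL ι x {-v} (x v)⁻¹ := by
  obtain ⟨c0, hc0, hx⟩ := x_zero hC
  obtain ⟨c, hc⟩ := hC.mul v (-v)
  rw [add_neg_cancel, hx, ← map_mul] at hc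
  have hcc : ι (c * c0) ≠ 0 := by
    rw [← hc]; exact mul_ne_zero (hC.ne0 _) (hC.ne0 _)
  have h1 : (x v)⁻¹ = x (-v) * ι ((c * c0)⁻¹) := by
    rw [inv_eq_iff_eq_inv, mul_inv_rev, map_inv₀, inv_inv, ← hc, mul_assoc,
      mul_inv_cancel₀ (hC.ne0 _), mul_one]
  obtain ⟨k', hk'⟩ := hC.conj (-v) ((c * c0)⁻¹)
  rw [h1, hk']
  exact InL.gen _ (Set.mem_singleton _)

theorem InL.split (T : Set E) (f : E →₀ K) :
    ∃ a b : K', InL ι x T a ∧ InL ι x Tᶜ b ∧ ev ι x f = a + b := by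
  classical
  refine ⟨ev ι x (f.filter (· ∈ T)), ev ι x (f.filter fun v => ¬ v ∈ T),
    ⟨_, fun v hv => ?_, rfl⟩, ⟨_, fun v hv => ?_, rfl⟩, ?_⟩
  · rw [Finsupp.support_filter, Finset.mem_filter] at hv
    exact hv.2
  · rw [Finsupp.support_filter, Finset.mem_filter] at hv
    exact hv.2
  · rw [← ev_add, Finsupp.filter_add_filter_not]

theorem ore_sub (hC : Cross ι x) (H : AddSubgroup E) {A B : K'} (hA : InL ι x H A)
    (hB : InL ι x H B) (hB0 : B ≠ 0) :
    ∃ s t, InL ι x H s ∧ InL ι x H t ∧ s ≠ 0 ∧ s * A = t * B := by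
  classical
  obtain ⟨f, g, hf, he⟩ := hC.frac (A * B⁻¹)
  have he' : ev ι x f * A = ev ι x g * B := by
    rw [← he, mul_assoc, mul_assoc, inv_mul_cancel₀ hB0, mul_one]
  obtain ⟨v, hv⟩ := Finsupp.support_nonempty_iff.mpr hf
  let T : Set E := {w | w - v ∈ H}
  obtain ⟨f1, f2, hf1, hf2, hf12⟩ := InL.split (ι := ι) (x := x) T f
  obtain ⟨g1, g2, hg1, hg2, hg12⟩ := InL.split (ι := ι) (x := x) T g
  have hT : ∀ s ∈ T, ∀ t ∈ (H : Set E), s + t ∈ T := by
    intro s hs t ht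
    show s + t - v ∈ H
    have : s + t - v = (s - v) + t := by abel
    rw [this]; exact H.add_mem hs ht
  have hT' : ∀ s ∈ Tᶜ, ∀ t ∈ (H : Set E), s + t ∈ Tᶜ := by
    intro s hs t ht h
    apply hs
    show s - v ∈ H
    have h' : s + t - v ∈ H := h
    have : s - v = (s + t - v) - t := by abel
    rw [this]; exact H.sub_mem h' ht
  have h1 : InL ι x T (f1 * A - g1 * B) := (hf1.mul hC hT hA).sub (hg1.mul hC hT hB)
  have h2 : InL ι x Tᶜ (f1 * A - g1 * B) := by
    have : f1 * A - g1 * B = -(f2 * A - g2 * B) := by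
      rw [hf12, hg12, add_mul, add_mul] at he'
      have h3 : f1 * A = g1 * B + g2 * B - f2 * A := eq_sub_of_add_eq he'
      rw [h3]; abel
    rw [this]
    exact ((hf2.mul hC hT' hA).sub (hg2.mul hC hT' hB)).neg
  have h3 : f1 * A - g1 * B = 0 := InL.disj hC (S := T) (T := Tᶜ) (fun w hw hw' => hw' hw) h1 h2
  have hf10 : f1 ≠ 0 := by
    intro h0
    rw [h0, zero_add] at hf12
    obtain ⟨f', hf', hff⟩ := hf2
    have h4 : f = f' := ev_inj hC (hf12.trans hff.symm)
    rw [h4] at hv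
    apply hf' v hv
    show v - v ∈ H
    rw [sub_self]; exact H.zero_mem
  have hT'' : ∀ s ∈ ({-v} : Set E), ∀ t ∈ T, s + t ∈ (H : Set E) := by
    intro s hs t ht
    rw [Set.mem_singleton_iff] at hs
    have : s + t = t - v := by rw [hs]; abel
    rw [this]; exact ht
  refine ⟨x (-v) * f1, x (-v) * g1, InL.mul hC hT'' (InL.xx (Set.mem_singleton _)) hf1,
    InL.mul hC hT'' (InL.xx (Set.mem_singleton _)) hg1, mul_ne_zero (hC.ne0 _) hf10, ?_⟩
  rw [mul_assoc, mul_assoc, sub_eq_zero.mp h3]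

theorem InL.mulH (hC : Cross ι x) {H : AddSubgroup E} {a b : K'} (ha : InL ι x H a)
    (hb : InL ι x H b) : InL ι x H (a * b) :=
  ha.mul hC (fun s hs t ht => H.add_mem hs ht) hb

theorem InL.oneH (hC : Cross ι x) (H : AddSubgroup E) : InL ι x (H : Set E) (1 : K') := by
  have := InL.iota hC (T := (H : Set E)) H.zero_mem 1
  rwa [map_one] at this

/-- the division subring of left fractions of `∑_{v ∈ H} K x_v`. -/
def mid (hC : Cross ι x) (H : AddSubgroup E) : Subfield K' where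
  carrier := {κ | ∃ s t, InL ι x H s ∧ InL ι x H t ∧ s ≠ 0 ∧ s * κ = t}
  mul_mem' := by
    rintro a b ⟨s, t, hs, ht, hs0, hst⟩ ⟨s', t', hs', ht', hs0', hst'⟩
    obtain ⟨p, q, hp, hq, hp0, hpq⟩ := ore_sub hC H ht hs' hs0'
    refine ⟨p * s, q * t', hp.mulH hC hs, hq.mulH hC ht', mul_ne_zero hp0 hs0, ?_⟩
    calc p * s * (a * b) = p * (s * a) * b := by simp only [mul_assoc]
      _ = q * (s' * b) := by rw [hst, hpq, mul_assoc]
      _ = _ := by rw [hst']
  one_mem' := ⟨1, 1, InL.oneH hC H, InL.oneH hC H, one_ne_zero, mul_one 1⟩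
  add_mem' := by
    rintro a b ⟨s, t, hs, ht, hs0, hst⟩ ⟨s', t', hs', ht', hs0', hst'⟩
    obtain ⟨p, q, hp, hq, hp0, hpq⟩ := ore_sub hC H hs hs' hs0'
    refine ⟨p * s, p * t + q * t', hp.mulH hC hs, (hp.mulH hC ht).add (hq.mulH hC ht'),
      mul_ne_zero hp0 hs0, ?_⟩
    rw [mul_add, mul_assoc, hst, hpq, mul_assoc, hst']
  zero_mem' := ⟨1, 0, InL.oneH hC H, InL.zero _, one_ne_zero, mul_zero 1⟩
  neg_mem' := by
    rintro a ⟨s, t, hs, ht, hs0, hst⟩
    exact ⟨s, -t, hs, ht.neg, hs0, by rw [mul_neg, hst]⟩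
  inv_mem' := by
    rintro a ⟨s, t, hs, ht, hs0, hst⟩
    by_cases h0 : a = 0
    · rw [h0, inv_zero]
      exact ⟨1, 0, InL.oneH hC H, InL.zero _, one_ne_zero, mul_zero 1⟩
    · refine ⟨t, s, ht, hs, ?_, ?_⟩
      · rw [← hst]; exact mul_ne_zero hs0 h0
      · rw [← hst, mul_assoc, mul_inv_cancel₀ h0, mul_one]

theorem mem_mid (hC : Cross ι x) (H : AddSubgroup E) (κ : K') :
    κ ∈ mid hC H ↔ ∃ s t, InL ι x H s ∧ InL ι x H t ∧ s ≠ 0 ∧ s * κ = t := Iff.rfl

theorem InL.mem_mid (hC : Cross ι x) {H : AddSubgroup E} {κ : K'} (h : InL ι x H κ) :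
    κ ∈ mid hC H := ⟨1, κ, InL.oneH hC H, h, one_ne_zero, one_mul κ⟩

theorem mid_conj (hC : Cross ι x) {H : AddSubgroup E} {κ : K'} (h : κ ∈ mid hC H) (v : E) :
    x v * κ * (x v)⁻¹ ∈ mid hC H := by
  obtain ⟨s, t, hs, ht, hs0, hst⟩ := h
  have key : ∀ a : K', InL ι x H a → InL ι x H (x v * a * (x v)⁻¹) := by
    intro a ha
    have h1 : InL ι x {w | w - v ∈ H} (x v * a) := by
      refine (InL.xx (Set.mem_singleton v)).mul hC ?_ ha
      intro s hs t ht
      show s + t - v ∈ H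
      rw [Set.mem_singleton_iff] at hs
      rw [hs, add_sub_cancel_left]; exact ht
    refine h1.mul hC ?_ (InL.xinv hC v)
    intro s hs t ht
    rw [Set.mem_singleton_iff] at ht
    rw [ht, ← sub_eq_add_neg]; exact hs
  refine ⟨_, _, key s hs, key t ht, ?_, ?_⟩
  · exact mul_ne_zero (mul_ne_zero (hC.ne0 v) hs0) (inv_ne_zero (hC.ne0 v))
  · rw [← hst]
    have h1 : (x v)⁻¹ * x v = 1 := inv_mul_cancel₀ (hC.ne0 v)
    calc x v * s * (x v)⁻¹ * (x v * κ * (x v)⁻¹) = x v * s * ((x v)⁻¹ * x v) * κ * (x v)⁻¹ := by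
          simp only [mul_assoc]
      _ = _ := by rw [h1]; simp only [mul_assoc, mul_one]

theorem mid_conj' (hC : Cross ι x) {H : AddSubgroup E} {κ : K'} (h : κ ∈ mid hC H) (v : E) :
    (x v)⁻¹ * κ * x v ∈ mid hC H := by
  obtain ⟨s, t, hs, ht, hs0, hst⟩ := h
  have key : ∀ a : K', InL ι x H a → InL ι x H ((x v)⁻¹ * a * x v) := by
    intro a ha
    have h1 : InL ι x {w | w + v ∈ H} ((x v)⁻¹ * a) := by
      refine (InL.xinv hC v).mul hC ?_ ha
      intro s hs t ht
      show s + t + v ∈ H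
      rw [Set.mem_singleton_iff] at hs
      have : s + t + v = t := by rw [hs]; abel
      rw [this]; exact ht
    refine h1.mul hC ?_ (InL.xx (Set.mem_singleton v))
    intro s hs t ht
    rw [Set.mem_singleton_iff] at ht
    rw [ht]; exact hs
  refine ⟨_, _, key s hs, key t ht, ?_, ?_⟩
  · exact mul_ne_zero (mul_ne_zero (inv_ne_zero (hC.ne0 v)) hs0) (hC.ne0 v)
  · rw [← hst]
    have h1 : x v * (x v)⁻¹ = 1 := mul_inv_cancel₀ (hC.ne0 v)
    calc (x v)⁻¹ * s * x v * ((x v)⁻¹ * κ * x v) = (x v)⁻¹ * s * (x v * (x v)⁻¹) * κ * x v := by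
          simp only [mul_assoc]
      _ = _ := by rw [h1]; simp only [mul_assoc, mul_one]

/-- common denominators. -/
theorem common_den (hC : Cross ι x) (H : AddSubgroup E) {α : Type*} (S : Finset α) (f : α → K')
    (h : ∀ i ∈ S, f i ∈ mid hC H) :
    ∃ s, InL ι x H s ∧ s ≠ 0 ∧ ∀ i ∈ S, InL ι x H (s * f i) := by
  classical
  induction S using Finset.induction_on with
  | empty => exact ⟨1, InL.oneH hC H, one_ne_zero, by simp⟩
  | insert a S ha ih =>
    obtain ⟨s, hs, hs0, hsS⟩ := ih fun i hi => h i (Finset.mem_insert_of_mem hi)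
    obtain ⟨s', t', hs', ht', hs0', hst'⟩ := h a (Finset.mem_insert_self _ _)
    obtain ⟨p, q, hp, hq, hp0, hpq⟩ := ore_sub hC H hs hs' hs0'
    refine ⟨p * s, hp.mulH hC hs, mul_ne_zero hp0 hs0, fun i hi => ?_⟩
    rcases Finset.mem_insert.mp hi with h1 | h1
    · rw [h1, hpq, mul_assoc, hst']; exact hq.mulH hC ht'
    · rw [mul_assoc]; exact hp.mulH hC (hsS i h1)

theorem InL.map {σ : K' ≃+* K'} {σ0 : K ≃+* K} {M : E ≃+ E}
    (h0 : ∀ k, σ (ι k) = ι (σ0 k)) (h1 : ∀ v, ∃ c, σ (x v) = ι c * x (M v)) {S T : Set E}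
    (hST : ∀ v ∈ S, M v ∈ T) {a : K'} (ha : InL ι x S a) : InL ι x T (σ a) := by
  obtain ⟨f, hf, rfl⟩ := ha
  have e1 : ev ι x f = ∑ a ∈ f.support, ι (f a) * x a := rfl
  rw [e1, map_sum]
  refine InL.sum _ _ fun v hv => ?_
  obtain ⟨c, hc⟩ := h1 v
  rw [map_mul, h0, hc, ← mul_assoc, ← map_mul]
  exact InL.gen _ (hST v (hf v hv))

theorem mid_map (hC : Cross ι x) {σ : K' ≃+* K'} {σ0 : K ≃+* K} {M : E ≃+ E}
    (h0 : ∀ k, σ (ι k) = ι (σ0 k)) (h1 : ∀ v, ∃ c, σ (x v) = ι c * x (M v)) {H : AddSubgroup E}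
    (hH : ∀ v ∈ H, M v ∈ H) {κ : K'} (h : κ ∈ mid hC H) : σ κ ∈ mid hC H := by
  obtain ⟨s, t, hs, ht, hs0, hst⟩ := h
  refine ⟨σ s, σ t, hs.map h0 h1 hH, ht.map h0 h1 hH, ?_, ?_⟩
  · rw [Ne, map_eq_zero_iff σ σ.injective]; exact hs0
  · rw [← hst, map_mul]

theorem compat_symm (hC : Cross ι x) {σ : K' ≃+* K'} {σ0 : K ≃+* K} {M : E ≃+ E}
    (h2 : ∀ k, σ (ι k) = ι (σ0 k)) (h3 : ∀ v, ∃ c, σ (x v) = ι c * x (M v)) :
    (∀ k, σ.symm (ι k) = ι (σ0.symm k)) ∧ (∀ v, ∃ c, σ.symm (x v) = ι c * x (M.symm v)) := by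
  refine ⟨?_, ?_⟩
  · intro k
    apply σ.injective
    rw [σ.apply_symm_apply, h2, σ0.apply_symm_apply]
  · intro v
    obtain ⟨c, hc⟩ := h3 (M.symm v)
    rw [M.apply_symm_apply] at hc
    have hc0 : c ≠ 0 := by
      intro h0
      rw [h0, map_zero, zero_mul, map_eq_zero_iff σ σ.injective] at hc
      exact hC.ne0 _ hc
    refine ⟨σ0.symm c⁻¹, ?_⟩
    apply σ.injective
    rw [σ.apply_symm_apply, map_mul, h2, σ0.apply_symm_apply, hc, ← mul_assoc, ← map_mul,
      inv_mul_cancel₀ hc0, map_one, one_mul]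

/-- the intermediate division ring. -/
theorem exists_middle (hC : Cross ι x) (H : AddSubgroup E) :
    ∃ (K1 : Type) (_ : DivisionRing K1) (ι1 : K →+* K1) (j : K1 →+* K') (x1 : H → K1)
      (x2 : E ⧸ H → K'),
      (∀ k, j (ι1 k) = ι k) ∧ (∀ v : H, j (x1 v) = x v) ∧ (∀ q, x2 q = x q.out) ∧
      (∀ v : E, ∃ κ : K1, x v = j κ * x2 (QuotientAddGroup.mk v)) ∧
      Cross ι1 x1 ∧ Cross j x2 ∧
      (∀ (σ : K' ≃+* K') (σ0 : K ≃+* K) (M : E ≃+ E), (∀ k, σ (ι k) = ι (σ0 k)) →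
        (∀ v, ∃ c, σ (x v) = ι c * x (M v)) → (∀ v, M v ∈ H ↔ v ∈ H) →
        ∃ σ1 : K1 ≃+* K1, ∀ κ, σ (j κ) = j (σ1 κ)) := by
  classical
  let F := mid hC H
  have hιF : ∀ k, ι k ∈ F := fun k => (InL.iota hC (T := (H : Set E)) H.zero_mem k).mem_mid hC
  have hxF : ∀ v : H, x v ∈ F := fun v => (InL.xx (T := (H : Set E)) v.2).mem_mid hC
  let ι1 : K →+* F := ι.codRestrict F hιF
  let x1 : H → F := fun v => ⟨x v, hxF v⟩
  let x2 : E ⧸ H → K' := fun q => x q.out
  have hj : ∀ k, F.subtype (ι1 k) = ι k := fun k => rfl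
  have hinj : Function.Injective F.subtype := F.subtype.injective
  have hmem : ∀ (v w : E), v - w ∈ H → x v * (x w)⁻¹ ∈ F := by
    intro v w hvw
    refine InL.mem_mid hC ?_
    refine (InL.xx (Set.mem_singleton v)).mul hC ?_ (InL.xinv hC w)
    intro s hs t ht
    rw [Set.mem_singleton_iff] at hs ht
    rw [hs, ht, ← sub_eq_add_neg]; exact hvw
  have hout : ∀ v : E, v - (QuotientAddGroup.mk v : E ⧸ H).out ∈ H := by
    intro v
    have h1 : (QuotientAddGroup.mk ((QuotientAddGroup.mk v : E ⧸ H).out) : E ⧸ H)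
        = QuotientAddGroup.mk v := Quotient.out_eq' _
    have h2 := QuotientAddGroup.eq.mp h1
    rwa [neg_add_eq_sub] at h2
  have hfac : ∀ v : E, ∃ κ : F, x v = F.subtype κ * x2 (QuotientAddGroup.mk v) := by
    intro v
    refine ⟨⟨_, hmem v _ (hout v)⟩, ?_⟩
    show x v = x v * (x _)⁻¹ * x _
    rw [mul_assoc, inv_mul_cancel₀ (hC.ne0 _), mul_one]
  refine ⟨F, inferInstance, ι1, F.subtype, x1, x2, hj, fun v => rfl, fun q => rfl, hfac,
    ?_, ?_, ?_⟩
  · -- Cross ι1 x1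
    have hev : ∀ f : H →₀ K, F.subtype (ev ι1 x1 f) = ev ι x (f.mapDomain Subtype.val) := by
      intro f
      induction f using Finsupp.induction_linear with
      | zero => rw [ev_zero, map_zero, Finsupp.mapDomain_zero, ev_zero]
      | add f g hf hg => rw [ev_add, map_add, hf, hg, Finsupp.mapDomain_add, ev_add]
      | single a b =>
        rw [ev_single, Finsupp.mapDomain_single, ev_single, map_mul]
        rfl
    have hback : ∀ κ : K', InL ι x H κ → ∃ f : H →₀ K, F.subtype (ev ι1 x1 f) = κ := by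
      rintro κ ⟨f, hf, rfl⟩
      refine ⟨f.comapDomain Subtype.val Subtype.val_injective.injOn, ?_⟩
      rw [hev, Finsupp.mapDomain_comapDomain _ Subtype.val_injective]
      intro v hv
      exact ⟨⟨v, hf v hv⟩, rfl⟩
    refine ⟨?_, ?_, ?_, ?_, ?_, ?_⟩
    · intro v h
      exact hC.ne0 v (congrArg F.subtype h)
    · intro v k
      obtain ⟨k', hk'⟩ := hC.conj v k
      exact ⟨k', hinj hk'⟩
    · intro v k
      obtain ⟨k', hk'⟩ := hC.conj' v k
      exact ⟨k', hinj hk'⟩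
    · intro v w
      obtain ⟨c, hc⟩ := hC.mul v w
      exact ⟨c, hinj hc⟩
    · intro f hf
      have h1 : ev ι x (f.mapDomain Subtype.val) = 0 := by rw [← hev, hf, map_zero]
      have h2 := hC.indep _ h1
      rw [← Finsupp.mapDomain_zero (f := (Subtype.val : H → E))] at h2
      exact Finsupp.mapDomain_injective Subtype.val_injective h2
    · intro κ
      obtain ⟨s, t, hs, ht, hs0, hst⟩ := (mem_mid hC H (κ : K')).mp κ.2
      obtain ⟨f, hf⟩ := hback s hs
      obtain ⟨g, hg⟩ := hback t ht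
      refine ⟨f, g, ?_, ?_⟩
      · intro h0
        rw [h0, ev_zero, map_zero] at hf
        exact hs0 hf.symm
      · apply hinj
        rw [map_mul, hf, hg]
        exact hst
  · -- Cross j x2
    have hbig : ∀ f : E →₀ K, ∃ g : (E ⧸ H) →₀ F, ev F.subtype x2 g = ev ι x f := by
      intro f
      induction f using Finsupp.induction_linear with
      | zero => exact ⟨0, by rw [ev_zero, ev_zero]⟩
      | add f g hf hg =>
        obtain ⟨f', hf'⟩ := hf
        obtain ⟨g', hg'⟩ := hg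
        exact ⟨f' + g', by rw [ev_add, ev_add, hf', hg']⟩
      | single a b =>
        obtain ⟨κ, hκ⟩ := hfac a
        refine ⟨Finsupp.single (QuotientAddGroup.mk a) (ι1 b * κ), ?_⟩
        rw [ev_single, ev_single, map_mul, hκ, mul_assoc]
        rfl
    refine ⟨?_, ?_, ?_, ?_, ?_, ?_⟩
    · intro q; exact hC.ne0 _
    · intro q κ
      refine ⟨⟨_, mid_conj hC κ.2 q.out⟩, ?_⟩
      show x q.out * κ = x q.out * κ * (x q.out)⁻¹ * x q.out
      rw [mul_assoc, mul_assoc, inv_mul_cancel₀ (hC.ne0 _), mul_one]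
    · intro q κ
      refine ⟨⟨_, mid_conj' hC κ.2 q.out⟩, ?_⟩
      show κ * x q.out = x q.out * ((x q.out)⁻¹ * κ * x q.out)
      rw [← mul_assoc, ← mul_assoc, mul_inv_cancel₀ (hC.ne0 _), one_mul]
    · intro p q
      obtain ⟨c, hc⟩ := hC.mul p.out q.out
      obtain ⟨κ, hκ⟩ := hfac (p.out + q.out)
      have h1 : (QuotientAddGroup.mk (p.out + q.out) : E ⧸ H) = p + q := by
        rw [QuotientAddGroup.mk_add]
        congr 1
        · exact Quotient.out_eq' _
        · exact Quotient.out_eq' _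
      rw [h1] at hκ
      refine ⟨ι1 c * κ, ?_⟩
      show x p.out * x q.out = _
      rw [hc, hκ, map_mul, mul_assoc]
      rfl
    · intro f hf
      by_contra hne
      obtain ⟨q, hq⟩ := Finsupp.support_nonempty_iff.mpr hne
      obtain ⟨s, hs, hs0, hsf⟩ := common_den hC H f.support (fun q => ((f q : F) : K'))
        (fun q _ => (f q).2)
      have e1 : ev F.subtype x2 f = ∑ a ∈ f.support, ((f a : F) : K') * x a.out := rfl
      have h1 : ∑ a ∈ f.support, s * ((f a : F) : K') * x a.out = 0 := by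
        have : ∑ a ∈ f.support, s * ((f a : F) : K') * x a.out
            = s * ∑ a ∈ f.support, ((f a : F) : K') * x a.out := by
          rw [Finset.mul_sum]
          exact Finset.sum_congr rfl fun i _ => by rw [mul_assoc]
        rw [this, ← e1, hf, mul_zero]
      rw [← Finset.add_sum_erase _ _ hq] at h1
      let T : Set E := {w | w - q.out ∈ H}
      have h2 : InL ι x T (s * ((f q : F) : K') * x q.out) := by
        refine (hsf q hq).mul hC ?_ (InL.xx (Set.mem_singleton q.out))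
        intro a ha t ht
        rw [Set.mem_singleton_iff] at ht
        show a + t - q.out ∈ H
        rw [ht, add_sub_cancel_right]; exact ha
      have h3 : InL ι x Tᶜ (s * ((f q : F) : K') * x q.out) := by
        rw [eq_neg_of_add_eq_zero_left h1]
        refine InL.neg (InL.sum _ _ fun p hp => ?_)
        obtain ⟨hpq, hp⟩ := Finset.mem_erase.mp hp
        refine (hsf p hp).mul hC ?_ (InL.xx (Set.mem_singleton p.out))
        intro a ha t ht hcon
        rw [Set.mem_singleton_iff] at ht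
        have hcon' : a + t - q.out ∈ H := hcon
        apply hpq
        have h5 : -q.out + p.out ∈ H := by
          have : -q.out + p.out = (a + t - q.out) - a := by rw [ht]; abel
          rw [this]; exact H.sub_mem hcon' ha
        have h6 := QuotientAddGroup.eq.mpr h5
        have h7 : (QuotientAddGroup.mk q.out : E ⧸ H) = q := Quotient.out_eq' _
        have h8 : (QuotientAddGroup.mk p.out : E ⧸ H) = p := Quotient.out_eq' _
        rw [h7, h8] at h6
        exact h6.symm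
      have h4 := InL.disj hC (S := T) (T := Tᶜ) (fun w hw hw' => hw' hw) h2 h3
      have h5 : ((f q : F) : K') ≠ 0 := by
        intro h0
        exact (Finsupp.mem_support_iff.mp hq) (Subtype.ext h0)
      exact (mul_ne_zero (mul_ne_zero hs0 h5) (hC.ne0 _)) h4
    · intro κ
      obtain ⟨f, g, hf, hfg⟩ := hC.frac κ
      obtain ⟨f', hf'⟩ := hbig f
      obtain ⟨g', hg'⟩ := hbig g
      refine ⟨f', g', ?_, by rw [hf', hg', hfg]⟩
      intro h0
      rw [h0, ev_zero] at hf'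
      exact hf (hC.indep f hf'.symm)
  · intro σ σ0 M h0 h1 hH
    obtain ⟨h0', h1'⟩ := compat_symm hC h0 h1
    have hm1 : ∀ κ ∈ F, σ κ ∈ F := fun κ hκ =>
      mid_map hC h0 h1 (fun v hv => (hH v).mpr hv) hκ
    have hm2 : ∀ κ ∈ F, σ.symm κ ∈ F := fun κ hκ =>
      mid_map hC h0' h1' (fun v hv => by rw [← hH, M.apply_symm_apply]; exact hv) hκ
    let σ1 : F ≃+* F :=
      { toFun := fun κ => ⟨σ κ, hm1 κ κ.2⟩
        invFun := fun κ => ⟨σ.symm κ, hm2 κ κ.2⟩
        left_inv := fun κ => Subtype.ext (σ.symm_apply_apply _)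
        right_inv := fun κ => Subtype.ext (σ.apply_symm_apply _)
        map_mul' := fun a b => Subtype.ext (map_mul σ _ _)
        map_add' := fun a b => Subtype.ext (map_add σ _ _) }
    exact ⟨σ1, fun κ => rfl⟩

end inl

end Pool.Agent.Helper946.PH3
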