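import Mathlib
set_option autoImplicit false
namespace PHall

theorem rec_rot (u : ℂ) (hu : ‖u‖ = 1) (j1 : ℕ) (hj1 : 0 < j1) (ε : ℝ) (hε : 0 < ε) :
    ∃ j : ℕ, 0 < j ∧ j1 ∣ j ∧ ‖u ^ j - 1‖ < ε := by
  have hb : ∀ n : ℕ, (u ^ (j1 * n)) ∈ Metric.closedBall (0:ℂ) 1 := by
    intro n
    simp [hu]
  obtain ⟨a, -, φ, hφ, hlim⟩ := (isCompact_closedBall (0:ℂ) 1).tendsto_subseq hb
  have hc := hlim.cauchySeq
  rw [Metric.cauchySeq_iff] at hc
  obtain ⟨N, hN⟩ := hc ε hε
  have h1 := hN (N+1) (by omega) N le_rfl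
  have hlt : φ N < φ (N+1) := hφ (Nat.lt_succ_self N)
  refine ⟨j1 * (φ (N+1) - φ N), Nat.mul_pos hj1 (by omega), dvd_mul_right _ _, ?_⟩
  have h2 : u ^ (j1 * φ (N+1)) - u ^ (j1 * φ N) = u ^ (j1 * φ N) * (u ^ (j1 * (φ (N+1) - φ N)) - 1) := by
    rw [mul_sub, ← pow_add, ← mul_add, Nat.add_sub_cancel' hlt.le, mul_one]
  simp only [Function.comp, dist_eq_norm] at h1
  rw [h2, norm_mul, norm_pow, hu, one_pow, one_mul] at h1
  exact h1

theorem exists_generic {E : Type*} [AddCommGroup E] [Countable E] (π : E →+ ℂ)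
    (hπ : Function.Injective π) :
    ∃ c : ℂ, c ≠ 0 ∧ ∀ v : E, v ≠ 0 → (c * π v).re ≠ 0 := by
  have hcount : (Set.range (fun v : E => (π v).re / (π v).im)).Countable := Set.countable_range _
  obtain ⟨t, ht⟩ : ∃ t : ℝ, t ∉ Set.range (fun v : E => (π v).re / (π v).im) := by
    by_contra hcon
    push_neg at hcon
    have : (Set.univ : Set ℝ).Countable := hcount.mono (fun x _ => hcon x)
    exact (Set.not_countable_univ (α := ℝ)) this
  refine ⟨⟨1, t⟩, ?_, ?_⟩
  · intro h
    have := congrArg Complex.re h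
    simp at this
  · intro v hv h0
    have hz : π v ≠ 0 := by
      intro h; exact hv (hπ (by rw [h, map_zero]))
    simp only [Complex.mul_re, one_mul] at h0
    by_cases him : (π v).im = 0
    · rw [him] at h0
      apply hz
      apply Complex.ext
      · simpa using h0
      · simpa using him
    · apply ht
      refine ⟨v, ?_⟩
      simp only
      rw [div_eq_iff him]
      linarith

/-- existence of injective real functional with recurrence of signs -/
theorem exists_rec {E : Type*} [AddCommGroup E] [Countable E] (M : E →+ E) (π : E →+ ℂ)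
    (hπ : Function.Injective π) (lam : ℂ) (hlam : lam ≠ 0) (hM : ∀ v, π (M v) = lam * π v) :
    ∃ φ : E →+ ℝ, Function.Injective φ ∧
      ∀ (Φ : Finset E) (j1 : ℕ), 0 < j1 → ∃ j : ℕ, 0 < j ∧ j1 ∣ j ∧
        ∀ v ∈ Φ, (0 < φ v → 0 < φ (M^[j] v)) ∧ (φ v < 0 → φ (M^[j] v) < 0) := by
  classical
  obtain ⟨c, hc0, hc⟩ := exists_generic π hπ
  let φ : E →+ ℝ :=
    { toFun := fun v => (c * π v).re
      map_zero' := by simp
      map_add' := by intro x y; simp [mul_add] }
  have hφ : ∀ v, φ v = (c * π v).re := fun v => rfl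
  have hit : ∀ (j : ℕ) (v : E), π (M^[j] v) = lam ^ j * π v := by
    intro j
    induction j with
    | zero => intro v; simp
    | succ j ih => intro v; rw [Function.iterate_succ_apply, ih, hM, pow_succ]; ring
  refine ⟨φ, ?_, ?_⟩
  · rw [injective_iff_map_eq_zero]
    intro v hv
    by_contra hne
    exact hc v hne (by rw [← hφ]; exact hv)
  · intro Φ j1 hj1
    -- choose ε
    have hε : ∃ ε : ℝ, 0 < ε ∧ ∀ v ∈ Φ, v ≠ 0 → ε * ‖c * π v‖ < |(c * π v).re| := by
      induction Φ using Finset.induction_on with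
      | empty => exact ⟨1, one_pos, by simp⟩
      | insert a s ha ih =>
        obtain ⟨ε, hε, h⟩ := ih
        by_cases ha0 : a = 0
        · refine ⟨ε, hε, ?_⟩
          intro v hv hv0
          rcases Finset.mem_insert.mp hv with h1 | h1
          · exact absurd (h1.trans ha0) hv0
          · exact h v h1 hv0
        · have h1 : 0 < |(c * π a).re| := abs_pos.mpr (hc a ha0)
          have h2 : 0 < ‖c * π a‖ := by
            rw [norm_pos_iff]
            intro h0
            rw [h0] at h1
            simp at h1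
          refine ⟨min ε (|(c * π a).re| / (2 * ‖c * π a‖)), lt_min hε (by positivity), ?_⟩
          intro v hv hv0
          rcases Finset.mem_insert.mp hv with h3 | h3
          · subst h3
            calc min ε (|(c * π v).re| / (2 * ‖c * π v‖)) * ‖c * π v‖
                ≤ (|(c * π v).re| / (2 * ‖c * π v‖)) * ‖c * π v‖ :=
                  mul_le_mul_of_nonneg_right (min_le_right _ _) h2.le
              _ = |(c * π v).re| / 2 := by field_simp
              _ < |(c * π v).re| := by linarith
          · refine lt_of_le_of_lt ?_ (h v h3 hv0)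
            exact mul_le_mul_of_nonneg_right (min_le_left _ _) (norm_nonneg _)
    obtain ⟨ε, hε, hΦ⟩ := hε
    have hln : ‖lam‖ ≠ 0 := norm_ne_zero_iff.mpr hlam
    have hu : ‖lam / (‖lam‖ : ℂ)‖ = 1 := by
      rw [norm_div, Complex.norm_real, norm_norm, div_self hln]
    obtain ⟨j, hj, hjd, hju⟩ := rec_rot _ hu j1 hj1 ε hε
    refine ⟨j, hj, hjd, ?_⟩
    intro v hv
    by_cases hv0 : v = 0
    · subst hv0
      simp
    have key : φ (M^[j] v) = ‖lam‖ ^ j * ((lam / (‖lam‖ : ℂ)) ^ j * (c * π v)).re := by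
      rw [hφ, hit]
      have : c * (lam ^ j * π v) = ((‖lam‖ ^ j : ℝ) : ℂ) * ((lam / (‖lam‖ : ℂ)) ^ j * (c * π v)) := by
        have h0 : ((‖lam‖ : ℂ)) ≠ 0 := by exact_mod_cast hln
        push_cast
        rw [div_pow]
        field_simp
      rw [this, Complex.re_ofReal_mul]
    have hpos : 0 < ‖lam‖ ^ j := pow_pos (norm_pos_iff.mpr hlam) j
    have hdiff : |((lam / (‖lam‖ : ℂ)) ^ j * (c * π v)).re - (c * π v).re| < |(c * π v).re| := by
      have h1 : ((lam / (‖lam‖ : ℂ)) ^ j * (c * π v)).re - (c * π v).re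
          = (((lam / (‖lam‖ : ℂ)) ^ j - 1) * (c * π v)).re := by
        rw [sub_mul, one_mul, Complex.sub_re]
      rw [h1]
      refine lt_of_le_of_lt (Complex.abs_re_le_norm _) ?_
      rw [norm_mul]
      refine lt_of_le_of_lt ?_ (hΦ v hv hv0)
      exact mul_le_mul_of_nonneg_right hju.le (norm_nonneg _)
    constructor
    · intro h
      rw [hφ] at h
      rw [key]
      apply mul_pos hpos
      rw [abs_of_pos h] at hdiff
      have := (abs_lt.mp hdiff).1
      linarith
    · intro h
      rw [hφ] at h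
      rw [key]
      apply mul_neg_of_pos_of_neg hpos
      rw [abs_of_neg h] at hdiff
      have := (abs_lt.mp hdiff).2
      linarith

/-- injective eigenfunctional for an automorphism without proper isolated stable subgroup -/
theorem exists_eigenfunctional {E : Type*} [AddCommGroup E] [Module.Free ℤ E] [Module.Finite ℤ E]
    [Nontrivial E] (M : E ≃+ E)
    (hmin : ∀ E' : AddSubgroup E, (∀ v ∈ E', M v ∈ E') → (∀ v ∈ E', M.symm v ∈ E') →
      (∀ (n : ℤ) (v : E), n ≠ 0 → n • v ∈ E' → v ∈ E') → E' = ⊥ ∨ E' = ⊤) :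
    ∃ (π : E →+ ℂ) (lam : ℂ), Function.Injective π ∧ lam ≠ 0 ∧ ∀ v, π (M v) = lam * π v := by
  classical
  let V := E →ₗ[ℤ] ℂ
  let ML : E →ₗ[ℤ] E := M.toAddMonoidHom.toIntLinearMap
  let T : Module.End ℂ V :=
    { toFun := fun f => f.comp ML
      map_add' := by intro f g; rfl
      map_smul' := by intro c f; rfl }
  let b := Module.Free.chooseBasis ℤ E
  have hfin : FiniteDimensional ℂ V := by
    have e : (Module.Free.ChooseBasisIndex ℤ E → ℂ) ≃ₗ[ℂ] V := b.constr ℂ
    exact LinearEquiv.finiteDimensional e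
  have hnt : Nontrivial V := by
    have e : (Module.Free.ChooseBasisIndex ℤ E → ℂ) ≃ₗ[ℂ] V := b.constr ℂ
    have : Nonempty (Module.Free.ChooseBasisIndex ℤ E) := by
      by_contra h
      rw [not_nonempty_iff] at h
      have := b.repr.toEquiv.subsingleton
      exact not_subsingleton E this
    exact e.symm.toEquiv.nontrivial
  obtain ⟨lam, hl⟩ := Module.End.exists_eigenvalue T
  obtain ⟨p, hp⟩ := hl.exists_hasEigenvector
  have hp0 : p ≠ 0 := hp.2
  have hpe : T p = lam • p := hp.apply_eq_smul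
  have hpe' : ∀ v, p (M v) = lam * p v := by
    intro v
    have h1 := congrArg (fun f : V => f v) hpe
    exact h1
  have hl0 : lam ≠ 0 := by
    intro h0
    apply hp0
    ext v
    have := hpe' (M.symm v)
    rw [h0, M.apply_symm_apply, zero_mul] at this
    simpa using this
  refine ⟨p.toAddMonoidHom, lam, ?_, hl0, hpe'⟩
  have hk := hmin p.toAddMonoidHom.ker ?_ ?_ ?_
  · rcases hk with hk | hk
    · rw [← AddMonoidHom.ker_eq_bot_iff]; exact hk
    · exfalso
      apply hp0
      ext v
      have : v ∈ p.toAddMonoidHom.ker := by rw [hk]; trivial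
      simpa using this
  · intro v hv
    have hv' : p v = 0 := hv
    show p (M v) = 0
    rw [hpe', hv', mul_zero]
  · intro v hv
    have hv' : p v = 0 := hv
    show p (M.symm v) = 0
    have := hpe' (M.symm v)
    rw [M.apply_symm_apply, hv'] at this
    rcases mul_eq_zero.mp this.symm with h | h
    · exact absurd h hl0
    · exact h
  · intro n v hn hv
    have hv' : p (n • v) = 0 := hv
    show p v = 0
    rw [map_smul] at hv'
    rcases smul_eq_zero.mp hv' with h | h
    · exact absurd h hn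
    · exact h

end PHall
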