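import Mathlib
import Pool.Agent.Helper294.HX.PHDefs
import Pool.Agent.Helper294.HX.PHCross
import Pool.Agent.Helper294.HX.PHFil
import Pool.Agent.Helper294.HX.PHMin
import Pool.Agent.Helper294.HX.HCRad
import Pool.Agent.Helper294.HX.PHOH

set_option autoImplicit false
set_option linter.unusedSectionVars false
set_option linter.unusedVariables false

namespace Pool.Agent.Helper946.PH3

open Module Pool.Agent.Helper946.HC

section

variable {K K' E : Type} [DivisionRing K] [DivisionRing K'] [AddCommGroup E]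
  {ι : K →+* K'} {x : E → K'}

/-- `W` is stable under `ξ ↦ x_w (u ξ)`. -/
def St {X : Type} [AddCommGroup X] [Module K X] [Module K' X] (x : E → K') (u : X → X) (w : E)
    (W : Submodule K X) : Prop :=
  ∀ ξ, x w • u ξ ∈ W ↔ ξ ∈ W

/-- `w + M w + ... + M^(j-1) w`. -/
def orb (M : E ≃+ E) (j : ℕ) (w : E) : E := ∑ i ∈ Finset.range j, (⇑M)^[i] w

theorem iter_map_add (M : E ≃+ E) (i : ℕ) (v w : E) :
    (⇑M)^[i] (v + w) = (⇑M)^[i] v + (⇑M)^[i] w := by
  induction i generalizing v w with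
  | zero => rfl
  | succ i ih => rw [Function.iterate_succ_apply, Function.iterate_succ_apply,
      Function.iterate_succ_apply, map_add, ih]

theorem iter_map_zero (M : E ≃+ E) (i : ℕ) : (⇑M)^[i] (0 : E) = 0 := by
  induction i with
  | zero => rfl
  | succ i ih => rw [Function.iterate_succ_apply, map_zero, ih]

theorem iter_map_neg (M : E ≃+ E) (i : ℕ) (v : E) : (⇑M)^[i] (-v) = - (⇑M)^[i] v := by
  have h := iter_map_add M i v (-v)
  rw [add_neg_cancel, iter_map_zero] at h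
  exact (neg_eq_of_add_eq_zero_right h.symm).symm

theorem iter_map_sub (M : E ≃+ E) (i : ℕ) (v w : E) :
    (⇑M)^[i] (v - w) = (⇑M)^[i] v - (⇑M)^[i] w := by
  rw [sub_eq_add_neg, iter_map_add, iter_map_neg, ← sub_eq_add_neg]

theorem orb_add (M : E ≃+ E) (j : ℕ) (v w : E) : orb M j (v + w) = orb M j v + orb M j w := by
  simp only [orb, iter_map_add, Finset.sum_add_distrib]

theorem orb_sub (M : E ≃+ E) (j : ℕ) (v w : E) : orb M j (v - w) = orb M j v - orb M j w := by
  simp only [orb, iter_map_sub, Finset.sum_sub_distrib]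

theorem orb_succ (M : E ≃+ E) (j : ℕ) (w : E) : orb M (j + 1) w = w + M (orb M j w) := by
  rw [orb, Finset.sum_range_succ', orb, map_sum, add_comm]
  congr 1
  exact Finset.sum_congr rfl fun i _ => by rw [Function.iterate_succ_apply']

/-- telescoping. -/
theorem orb_tele (M : E ≃+ E) (j : ℕ) (v : E) : orb M j (M v - v) = (⇑M)^[j] v - v := by
  induction j with
  | zero => simp [orb]
  | succ j ih =>
    rw [orb, Finset.sum_range_succ]
    have : ∑ i ∈ Finset.range j, (⇑M)^[i] (M v - v) = (⇑M)^[j] v - v := ih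
    rw [this, iter_map_sub, ← Function.iterate_succ_apply]
    abel

theorem orb_mul (M Mm : E ≃+ E) (m k : ℕ) (h : ∀ v, Mm v = (⇑M)^[m] v) (v : E) :
    orb M m (orb Mm k v) = orb M (m * k) v := by
  induction k with
  | zero => simp only [orb, Finset.range_zero, Finset.sum_empty, mul_zero, iter_map_zero,
      Finset.sum_const_zero]
  | succ k ih =>
    have h1 : orb Mm (k + 1) v = orb Mm k v + (⇑Mm)^[k] v := by
      rw [orb, Finset.sum_range_succ]; rfl
    have h2 : (⇑Mm) = (⇑M)^[m] := funext h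
    have h3 : orb M (m * (k + 1)) v = orb M (m * k) v + orb M m ((⇑M)^[m * k] v) := by
      rw [mul_add, mul_one, orb, Finset.sum_range_add]
      congr 1
      exact Finset.sum_congr rfl fun i _ => by
        rw [add_comm, Function.iterate_add_apply]
    rw [h1, orb_add, ih, h3, h2, ← Function.iterate_mul]

/-- no root of unity. -/
def NR (M : E ≃+ E) : Prop := ∀ (v : E) (m : ℕ), 0 < m → orb M m v = 0 → v = 0

theorem NR.pow {M Mm : E ≃+ E} (hM : NR M) {m : ℕ} (hm : 0 < m)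
    (h : ∀ v, Mm v = (⇑M)^[m] v) : NR Mm := by
  intro v k hk h0
  apply hM v (m * k) (Nat.mul_pos hm hk)
  rw [← orb_mul M Mm m k h, h0]
  simp only [orb, iter_map_zero, Finset.sum_const_zero]

theorem smul_mem_iota {X : Type} [AddCommGroup X] [Module K X] [Module K' X]
    (hι : ∀ (k : K) (ξ : X), k • ξ = ι k • ξ) (W : Submodule K X) {c : K} (hc : c ≠ 0) (η : X) :
    ι c • η ∈ W ↔ η ∈ W := by
  rw [← hι]
  exact Submodule.smul_mem_iff W hc

theorem conj_ne (hC : Cross ι x) {v : E} {k k' : K} (h : x v * ι k = ι k' * x v) (hk : k ≠ 0) :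
    k' ≠ 0 := by
  intro h0
  rw [h0, map_zero, zero_mul] at h
  have h1 : ι k ≠ 0 := by rw [Ne, map_eq_zero]; exact hk
  exact mul_ne_zero (hC.ne0 v) h1 h

theorem mul_ne' (hC : Cross ι x) {v w : E} {c : K} (h : x v * x w = ι c * x (v + w)) : c ≠ 0 := by
  intro h0
  rw [h0, map_zero, zero_mul] at h
  exact mul_ne_zero (hC.ne0 v) (hC.ne0 w) h

/-- iterates of `ξ ↦ x_w (u ξ)`. -/
theorem tw_iter (hC : Cross ι x) {X : Type} [AddCommGroup X] [Module K X] [Module K' X]
    {u : X ≃+ X} {M : E ≃+ E} (hA : Act ι x u M) (w : E) (j : ℕ) :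
    ∃ c : K, c ≠ 0 ∧ ∀ ξ, (fun ξ => x w • u ξ)^[j] ξ = (ι c * x (orb M j w)) • (⇑u)^[j] ξ := by
  obtain ⟨σ, σ0, h1, h2, h3⟩ := hA
  induction j with
  | zero =>
    obtain ⟨c, hc, hx⟩ := x_zero hC
    refine ⟨c⁻¹, inv_ne_zero hc, fun ξ => ?_⟩
    have : orb M 0 w = 0 := by simp [orb]
    rw [this, hx, ← map_mul, inv_mul_cancel₀ hc, map_one, one_smul]
    rfl
  | succ j ih =>
    obtain ⟨c, hc, ih⟩ := ih
    obtain ⟨d, hd⟩ := h3 (orb M j w)
    have hd0 : d ≠ 0 := by
      intro h0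
      rw [h0, map_zero, zero_mul, map_eq_zero_iff σ σ.injective] at hd
      exact hC.ne0 _ hd
    have he0 : σ0 c * d ≠ 0 := by
      refine mul_ne_zero ?_ hd0
      rw [Ne, map_eq_zero_iff σ0 σ0.injective]; exact hc
    obtain ⟨e', he'⟩ := hC.conj w (σ0 c * d)
    have he'0 := conj_ne hC he' he0
    obtain ⟨f, hf⟩ := hC.mul w (M (orb M j w))
    have hf0 := mul_ne' hC hf
    refine ⟨e' * f, mul_ne_zero he'0 hf0, fun ξ => ?_⟩
    rw [Function.iterate_succ_apply', ih, Function.iterate_succ_apply']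
    show x w • u ((ι c * x (orb M j w)) • (⇑u)^[j] ξ) = _
    rw [h1, smul_smul, map_mul, h2, hd, orb_succ]
    congr 1
    calc x w * (ι (σ0 c) * (ι d * x (M (orb M j w))))
        = (x w * ι (σ0 c * d)) * x (M (orb M j w)) := by rw [map_mul]; simp only [mul_assoc]
      _ = ι e' * (x w * x (M (orb M j w))) := by rw [he', mul_assoc]
      _ = _ := by rw [hf, map_mul, mul_assoc]

theorem St.iter (hC : Cross ι x) {X : Type} [AddCommGroup X] [Module K X] [Module K' X]
    (hι : ∀ (k : K) (ξ : X), k • ξ = ι k • ξ)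
    {u : X ≃+ X} {M : E ≃+ E} (hA : Act ι x u M) {w : E} {W : Submodule K X} (h : St x (⇑u) w W)
    (j : ℕ) : St x ((⇑u)^[j]) (orb M j w) W := by
  obtain ⟨c, hc, hj⟩ := tw_iter hC hA w j
  intro ξ
  have h1 := iter_stable (fun ξ => x w • u ξ) (W : Set X) (one_dvd j)
    (fun ξ => by simpa using h ξ) ξ
  rw [hj, mul_smul] at h1
  exact (smul_mem_iota hι W hc _).symm.trans h1

/-- multiplication by `x_w`. -/
theorem xw_fe (hC : Cross ι x) {X : Type} [AddCommGroup X] [Module K X] [Module K' X]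
    (hι : ∀ (k : K) (ξ : X), k • ξ = ι k • ξ) {φ : E →+ ℝ} (hφ : Function.Injective φ)
    {p : E} {N : Submodule K X} {ξ : X} (w : E) (h : ξ ∈ Fe ι x φ p N) :
    x w • ξ ∈ Fe ι x φ (w + p) N := by
  induction h using Submodule.span_induction with
  | mem ξ h =>
    obtain ⟨ν, n, hn, hν, rfl⟩ := h
    rw [smul_smul]
    exact fe_gen hn ((leE_x hC φ w).mul hC hφ hν)
  | zero => rw [smul_zero]; exact Submodule.zero_mem _
  | add a b _ _ ha hb => rw [smul_add]; exact Submodule.add_mem _ ha hb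
  | smul k a _ ha =>
    obtain ⟨k', hk'⟩ := hC.conj w k
    rw [hι, smul_smul, hk', mul_smul, ← hι]
    exact Submodule.smul_mem _ _ ha

theorem xw_fl (hC : Cross ι x) {X : Type} [AddCommGroup X] [Module K X] [Module K' X]
    (hι : ∀ (k : K) (ξ : X), k • ξ = ι k • ξ) {φ : E →+ ℝ} (hφ : Function.Injective φ)
    {p : E} {N : Submodule K X} {ξ : X} (w : E) (h : ξ ∈ Fl ι x φ p N) :
    x w • ξ ∈ Fl ι x φ (w + p) N := by
  induction h using Submodule.span_induction with
  | mem ξ h =>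
    obtain ⟨ν, n, hn, hν, rfl⟩ := h
    rw [smul_smul]
    exact fl_gen hn ((leE_x hC φ w).mul_lt hC hφ hν)
  | zero => rw [smul_zero]; exact Submodule.zero_mem _
  | add a b _ _ ha hb => rw [smul_add]; exact Submodule.add_mem _ ha hb
  | smul k a _ ha =>
    obtain ⟨k', hk'⟩ := hC.conj w k
    rw [hι, smul_smul, hk', mul_smul, ← hι]
    exact Submodule.smul_mem _ _ ha

/-- cancelling `x_w`. -/
theorem xw_fl' (hC : Cross ι x) {X : Type} [AddCommGroup X] [Module K X] [Module K' X]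
    (hι : ∀ (k : K) (ξ : X), k • ξ = ι k • ξ) {φ : E →+ ℝ} (hφ : Function.Injective φ)
    {p : E} {N : Submodule K X} {ξ : X} (w : E) (h : x w • ξ ∈ Fl ι x φ (w + p) N) :
    ξ ∈ Fl ι x φ p N := by
  have h1 := xw_fl hC hι hφ (-w) h
  rw [neg_add_cancel_left, smul_smul] at h1
  obtain ⟨c, hc⟩ := hC.mul (-w) w
  have hc0 := mul_ne' hC hc
  obtain ⟨d, hd, hx⟩ := x_zero hC
  rw [hc, neg_add_cancel, hx, ← map_mul] at h1
  exact (smul_mem_iota hι _ (mul_ne_zero hc0 hd) _).mp h1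

/-- the maximal exponent of a stable subspace. -/
theorem mx_tw (hC : Cross ι x) {X : Type} [AddCommGroup X] [Module K X] [Module K' X]
    (hι : ∀ (k : K) (ξ : X), k • ξ = ι k • ξ) {u : X ≃+ X}
    {M : E ≃+ E} (hA : Act ι x u M) {φ : E →+ ℝ} (hφ : Function.Injective φ)
    {N W : Submodule K X} (hN : ∀ ξ, u ξ ∈ N ↔ ξ ∈ N) {w : E} (hW : St x (⇑u) w W) {p : E}
    (h : Mx ι x (φ.comp M.toAddMonoidHom) N W p) : Mx ι x φ N W (w + M p) := by
  refine ⟨?_, ?_⟩
  · intro ξ hξ
    -- ξ = x w • u η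
    set η := u.symm ((x w)⁻¹ • ξ) with hη
    have e1 : x w • u η = ξ := by
      rw [hη, u.apply_symm_apply, smul_smul, mul_inv_cancel₀ (hC.ne0 w), one_smul]
    have h1 : η ∈ W := by rw [← hW, e1]; exact hξ
    have h2 := hA.fe hC hι (N' := N) (fun n hn => (hN n).mpr hn) (h.1 h1)
    rw [← e1]
    exact xw_fe hC hι hφ w h2
  · intro hcon
    apply h.2
    intro ξ hξ
    have h1 : x w • u ξ ∈ Fl ι x φ (w + M p) N := hcon ((hW ξ).mpr hξ)
    have h2 := xw_fl' hC hι hφ w h1
    have h3 : u ξ ∈ Fl ι x ((φ.comp M.toAddMonoidHom).comp M.symm.toAddMonoidHom) (M p) N := by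
      have : (φ.comp M.toAddMonoidHom).comp M.symm.toAddMonoidHom = φ := by
        ext v; simp
      rw [this]; exact h2
    have h4 := (hA.symm hC).fl hC hι (N' := N) (fun n hn => by
      rw [← hN, u.apply_symm_apply]; exact hn) h3
    rwa [u.symm_apply_apply, M.symm_apply_apply] at h4

/-- conjugation by `x_w` on `K`. -/
noncomputable def conjK (hC : Cross ι x) (w : E) : K ≃+* K where
  toFun k := (hC.conj w k).choose
  invFun k := (hC.conj' w k).choose
  left_inv := by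
    intro k
    have h1 := (hC.conj w k).choose_spec
    have h2 := (hC.conj' w (hC.conj w k).choose).choose_spec
    exact ι.injective (mul_left_cancel₀ (hC.ne0 w) (h2.symm.trans h1.symm))
  right_inv := by
    intro k
    have h1 := (hC.conj' w k).choose_spec
    have h2 := (hC.conj w (hC.conj' w k).choose).choose_spec
    exact ι.injective (mul_right_cancel₀ (hC.ne0 w) (h2.symm.trans h1.symm))
  map_mul' := by
    intro a b
    apply ι.injective
    apply mul_right_cancel₀ (hC.ne0 w)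
    rw [← (hC.conj w (a * b)).choose_spec, map_mul, map_mul, mul_assoc (ι _) (ι _) (x w),
      ← (hC.conj w b).choose_spec, ← mul_assoc, ← mul_assoc, ← (hC.conj w a).choose_spec]
  map_add' := by
    intro a b
    apply ι.injective
    apply mul_right_cancel₀ (hC.ne0 w)
    rw [← (hC.conj w (a + b)).choose_spec, map_add, map_add, add_mul, mul_add,
      ← (hC.conj w b).choose_spec, ← (hC.conj w a).choose_spec]

theorem conjK_spec (hC : Cross ι x) (w : E) (k : K) : x w * ι k = ι (conjK hC w k) * x w :=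
  (hC.conj w k).choose_spec

/-- conjugation by a nonzero element of a division ring. -/
def conjD (a : K') (ha : a ≠ 0) : K' ≃+* K' where
  toFun κ := a * κ * a⁻¹
  invFun κ := a⁻¹ * κ * a
  left_inv := by
    intro κ
    show a⁻¹ * (a * κ * a⁻¹) * a = κ
    rw [← mul_assoc, ← mul_assoc, inv_mul_cancel₀ ha, one_mul, mul_assoc, inv_mul_cancel₀ ha,
      mul_one]
  right_inv := by
    intro κ
    show a * (a⁻¹ * κ * a) * a⁻¹ = κ
    rw [← mul_assoc, ← mul_assoc, mul_inv_cancel₀ ha, one_mul, mul_assoc, mul_inv_cancel₀ ha,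
      mul_one]
  map_mul' := by
    intro κ κ'
    show a * (κ * κ') * a⁻¹ = a * κ * a⁻¹ * (a * κ' * a⁻¹)
    have : a⁻¹ * (a * κ' * a⁻¹) = κ' * a⁻¹ := by
      rw [← mul_assoc, ← mul_assoc, inv_mul_cancel₀ ha, one_mul]
    rw [mul_assoc (a * κ), this]
    simp only [mul_assoc]
  map_add' := by
    intro κ κ'
    show a * (κ + κ') * a⁻¹ = a * κ * a⁻¹ + a * κ' * a⁻¹
    rw [mul_add, add_mul]

/-- the twisted map `ξ ↦ x_w (u ξ)`. -/
noncomputable def twE (hC : Cross ι x) {X : Type} [AddCommGroup X] [Module K' X] (u : X ≃+ X)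
    (w : E) : X ≃+ X where
  toFun ξ := x w • u ξ
  invFun η := u.symm ((x w)⁻¹ • η)
  left_inv := by
    intro ξ
    show u.symm ((x w)⁻¹ • (x w • u ξ)) = ξ
    rw [smul_smul, inv_mul_cancel₀ (hC.ne0 w), one_smul, u.symm_apply_apply]
  right_inv := by
    intro η
    show x w • u (u.symm ((x w)⁻¹ • η)) = η
    rw [u.apply_symm_apply, smul_smul, mul_inv_cancel₀ (hC.ne0 w), one_smul]
  map_add' := by intro a b; rw [map_add, smul_add]

theorem twE_act (hC : Cross ι x) {X : Type} [AddCommGroup X] [Module K' X] {u : X ≃+ X}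
    {M : E ≃+ E} (hA : Act ι x u M) (w : E) : Act ι x (twE hC u w) M := by
  obtain ⟨σ, σ0, h1, h2, h3⟩ := hA
  refine ⟨σ.trans (conjD (x w) (hC.ne0 w)), σ0.trans (conjK hC w), ?_, ?_, ?_⟩
  · intro κ ξ
    show x w • u (κ • ξ) = (x w * σ κ * (x w)⁻¹) • x w • u ξ
    rw [h1, smul_smul, smul_smul, mul_assoc, inv_mul_cancel₀ (hC.ne0 w), mul_one]
  · intro k
    show x w * σ (ι k) * (x w)⁻¹ = ι (conjK hC w (σ0 k))
    rw [h2, conjK_spec hC w, mul_assoc, mul_inv_cancel₀ (hC.ne0 w), mul_one]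
  · intro v
    obtain ⟨c, hc⟩ := h3 v
    obtain ⟨d, hd⟩ := hC.mul w (M v)
    obtain ⟨e, he⟩ := hC.mul (M v) w
    have he0 := mul_ne' hC he
    refine ⟨conjK hC w c * (d * e⁻¹), ?_⟩
    show x w * σ (x v) * (x w)⁻¹ = _
    have hd' : x (w + M v) = ι e⁻¹ * (x (M v) * x w) := by
      rw [he, ← mul_assoc, ← map_mul, inv_mul_cancel₀ he0, map_one, one_mul, add_comm]
    rw [hc, ← mul_assoc, conjK_spec hC w, mul_assoc (ι _) (x w), hd, hd', map_mul, map_mul]
    have : ι e⁻¹ * (x (M v) * x w) * (x w)⁻¹ = ι e⁻¹ * x (M v) := by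
      rw [mul_assoc, mul_assoc (x (M v)), mul_inv_cancel₀ (hC.ne0 w), mul_one]
    simp only [mul_assoc] at this ⊢
    rw [mul_inv_cancel₀ (hC.ne0 w), mul_one]

/-- a stable subspace inside `K' N` forces the twist to be a coboundary. -/
theorem bad_tw (hC : Cross ι x) {X : Type} [AddCommGroup X] [Module K X] [Module K' X]
    (hι : ∀ (k : K) (ξ : X), k • ξ = ι k • ξ) {u : X ≃+ X}
    {M : E ≃+ E} (hA : Act ι x u M) {φ : E →+ ℝ} (hφ : Function.Injective φ) (hrec : Rec φ M)
    (hNR : NR M) {N : Submodule K X} [FiniteDimensional K N] (hN : ∀ ξ, u ξ ∈ N ↔ ξ ∈ N)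
    (hd : N ⊓ Fl ι x φ 0 N = ⊥) {w : E} {W : Submodule K X} [FiniteDimensional K W]
    (hW0 : W ≠ ⊥) (hW : St x (⇑u) w W)
    (hWN : ∀ ξ ∈ W, ξ ∈ Submodule.span K' (N : Set X)) : ∃ v, w = M v - v := by
  obtain ⟨p, hp⟩ := mx_exists hC hι hφ hd hW0 hWN
  obtain ⟨Φ, hΦ⟩ := mx_local hC hι hφ hp
  obtain ⟨j, hj, -, hjΦ⟩ := hrec Φ 1 one_pos
  obtain ⟨uj, Mj, hAj, huj, hMj⟩ := hA.iter j
  have hNj : ∀ ξ, uj ξ ∈ N ↔ ξ ∈ N := by
    intro ξ; rw [huj]
    exact iter_stable (⇑u) (N : Set X) (one_dvd j) (fun ξ => by simpa using hN ξ) ξ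
  have hWj : St x (⇑uj) (orb M j w) W := by
    have h := hW.iter hC hι hA j
    intro ξ
    have := h ξ
    rw [← huj] at this
    exact this
  have h1 : Mx ι x (φ.comp Mj.toAddMonoidHom) N W p := by
    apply hΦ _ (comp_injective hφ Mj)
    · intro v hv h
      show 0 < φ (Mj v)
      rw [hMj]; exact hjΦ v hv h
    · rw [eq_bot_iff]
      intro η hη
      have h2 := hAj.fl hC hι (N' := N) (fun n hn => (hNj n).mpr hn) hη.2
      rw [map_zero] at h2
      have h3 : uj η ∈ N ⊓ Fl ι x φ 0 N := ⟨(hNj η).mpr hη.1, h2⟩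
      rw [hd, Submodule.mem_bot] at h3
      rw [Submodule.mem_bot]
      exact (map_eq_zero_iff uj uj.injective).mp h3
  have h2 := mx_tw hC hι hAj hφ hNj hWj h1
  have h3 := mx_unique hφ h2 hp
  rw [hMj] at h3
  have h4 : orb M j (w + (M p - p)) = 0 := by
    rw [orb_add, orb_tele]
    have : orb M j w + ((⇑M)^[j] p - p) = (orb M j w + (⇑M)^[j] p) - p := by abel
    rw [this, h3, sub_self]
  have h5 := hNR _ j hj h4
  refine ⟨-p, ?_⟩
  rw [map_neg]
  have : w = - (M p - p) := eq_neg_of_add_eq_zero_left h5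
  rw [this]; abel

/-- U_BOUND: at most `dim X` twists, pairwise inequivalent, have nonzero finite dimensional
stable subspaces. -/
theorem u_bound (hC : Cross ι x) {φ : E →+ ℝ} (hφ : Function.Injective φ) (n : ℕ) :
    ∀ (X : Type) [AddCommGroup X] [Module K X] [Module K' X]
    (hι : ∀ (k : K) (ξ : X), k • ξ = ι k • ξ) (u : X ≃+ X)
    (M : E ≃+ E) (hA : Act ι x u M) (hrec : Rec φ M) (hNR : NR M)
    (hfd : FiniteDimensional K' X) (hn : finrank K' X = n) (s : Finset E)
    (hs : ∀ w ∈ s, ∀ w' ∈ s, w ≠ w' → ∀ v, w - w' ≠ M v - v)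
    (hW : ∀ w ∈ s, ∃ W : Submodule K X, W ≠ ⊥ ∧ FiniteDimensional K W ∧ St x (⇑u) w W),
    s.card ≤ n := by
  classical
  induction n using Nat.strong_induction_on with
  | _ n ih =>
  intro X _ _ _ hι u M hA hrec hNR hfd hn s hs hW
  rcases s.eq_empty_or_nonempty with rfl | ⟨w0, hw0⟩
  · simp
  -- rebase at w0
  obtain ⟨W0, hW00, hW0fd, hW0st⟩ := hW w0 hw0
  let u0 := twE hC u w0
  have hu0 : ∀ ξ, u0 ξ = x w0 • u ξ := fun ξ => rfl
  have hA0 : Act ι x u0 M := twE_act hC hA w0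
  have hre : ∀ (w : E) (W : Submodule K X), St x (⇑u) w W → St x (⇑u0) (w - w0) W := by
    intro w W h ξ
    obtain ⟨c, hc⟩ := hC.mul (w - w0) w0
    have hc0 := mul_ne' hC hc
    rw [sub_add_cancel] at hc
    rw [hu0, smul_smul, hc, mul_smul, smul_mem_iota hι W hc0]
    exact h ξ
  -- minimal power-stable subspace
  let 𝒮 : Set (Submodule K X) :=
    {P | P ≤ W0 ∧ P ≠ ⊥ ∧ ∃ j, 0 < j ∧ ∀ ξ, (⇑u0)^[j] ξ ∈ P ↔ ξ ∈ P}
  have hne : 𝒮.Nonempty := ⟨W0, le_rfl, hW00, 1, one_pos, fun ξ => hW0st ξ⟩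
  obtain ⟨N, ⟨hNW, hN0, m, hm, hst⟩, hNmin⟩ :=
    (measure (fun P : Submodule K X => finrank K P)).wf.has_min 𝒮 hne
  have hNfd : FiniteDimensional K N := Submodule.finiteDimensional_of_le hNW
  have hmin : ∀ P : Submodule K X, P ≤ N → P ≠ ⊥ →
      (∃ j, 0 < j ∧ ∀ ξ, (⇑u0)^[j] ξ ∈ P ↔ ξ ∈ P) → P = N := by
    intro P hPN hP0 hPst
    by_contra hne'
    have hlt : P < N := lt_of_le_of_ne hPN hne'
    exact hNmin P ⟨hPN.trans hNW, hP0, hPst⟩ (Submodule.finrank_lt_finrank_of_lt hlt)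
  have hd := partA hC hι hA0 hφ hrec hN0 hm hst hmin
  obtain ⟨u1, M1, hA1, hu1, hM1⟩ := hA0.iter m
  have hN1 : ∀ ξ, u1 ξ ∈ N ↔ ξ ∈ N := by intro ξ; rw [hu1]; exact hst ξ
  have hNR1 : NR M1 := hNR.pow hm hM1
  have hrec1 : Rec φ M1 := hrec.pow hm hM1
  set S := Submodule.span K' (N : Set X) with hS
  have hS1 := span_stable hC hA1 hN1
  have hNS : N ≤ rs hι S := fun n hn => Submodule.subset_span hn
  -- quotient
  letI : Module K (X ⧸ S) := Module.compHom (X ⧸ S) ι
  have hιq : ∀ (k : K) (ξ : X ⧸ S), k • ξ = ι k • ξ := fun k ξ => rfl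
  let π : X →ₗ[K] (X ⧸ S) := qmap hι S
  have hπ : ∀ ξ, π ξ = Submodule.Quotient.mk ξ := fun ξ => rfl
  have hker : LinearMap.ker π = rs hι S := by
    ext ξ
    rw [LinearMap.mem_ker, hπ, Submodule.Quotient.mk_eq_zero]
    rfl
  have hSpos : 0 < finrank K' S := by
    rw [Module.finrank_pos_iff]
    apply (Submodule.nontrivial_iff_ne_bot).mpr
    intro h0
    apply hN0
    rw [eq_bot_iff]
    intro n hn
    have : n ∈ S := Submodule.subset_span hn
    rw [h0] at this
    exact this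
  have hfq : finrank K' (X ⧸ S) + finrank K' S = n := by
    rw [← hn]; exact Submodule.finrank_quotient_add_finrank S
  -- the new twists
  let f : E → E := fun w => orb M m (w - w0)
  have hfinj : ∀ w w' v, f w - f w' = M1 v - v → w - w' = M v - v := by
    intro w w' v h
    have h1 : f w - f w' = orb M m (w - w') := by
      show orb M m (w - w0) - orb M m (w' - w0) = _
      rw [← orb_sub]; congr 1; abel
    rw [h1, hM1, ← orb_tele, ← sub_eq_zero, ← orb_sub] at h
    exact sub_eq_zero.mp (hNR _ m hm h)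
  have hfinj' : ∀ w w', f w = f w' → w = w' := by
    intro w w' h
    have h1 := hfinj w w' 0 (by rw [h, map_zero]; abel)
    rw [map_zero, sub_zero] at h1
    exact sub_eq_zero.mp h1
  have hf0 : f w0 = 0 := by
    show orb M m (w0 - w0) = 0
    rw [sub_self, orb]; simp
  have key : ∀ w ∈ s, w ≠ w0 → ∃ W : Submodule K (X ⧸ S), W ≠ ⊥ ∧ FiniteDimensional K W ∧
      St x (⇑(qEquiv S u1 hS1)) (f w) W := by
    intro w hw hne0
    obtain ⟨W, hWne, hWfd, hWst⟩ := hW w hw
    have h1 : St x (⇑u1) (f w) W := by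
      have h := (hre w W hWst).iter hC hι hA0 m
      intro ξ
      have := h ξ
      rw [← hu1] at this
      exact this
    have hint : W ⊓ rs hι S = ⊥ := by
      by_contra hcon
      have hfd1 : FiniteDimensional K (W ⊓ rs hι S : Submodule K X) :=
        Submodule.finiteDimensional_of_le inf_le_left
      have h2 : St x (⇑u1) (f w) (W ⊓ rs hι S) := by
        intro ξ
        constructor
        · rintro ⟨h3, h4⟩
          refine ⟨(h1 ξ).mp h3, ?_⟩
          have h5 : x (f w) • u1 ξ ∈ S := h4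
          have h6 : u1 ξ ∈ S := by
            have := S.smul_mem (x (f w))⁻¹ h5
            rwa [smul_smul, inv_mul_cancel₀ (hC.ne0 _), one_smul] at this
          exact (hS1 ξ).mp h6
        · rintro ⟨h3, h4⟩
          exact ⟨(h1 ξ).mpr h3, S.smul_mem _ ((hS1 ξ).mpr h4)⟩
      obtain ⟨v, hv⟩ := bad_tw hC hι hA1 hφ hrec1 hNR1 hN1 hd hcon h2 (fun ξ hξ => hξ.2)
      have h7 := hfinj w w0 v (by rw [hf0, sub_zero]; exact hv)
      exact hs w hw w0 hw0 hne0 v h7
    refine ⟨W.map π, ?_, inferInstance, ?_⟩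
    · intro h0
      apply hWne
      rw [eq_bot_iff]
      intro ξ hξ
      have h2 : π ξ ∈ W.map π := Submodule.mem_map_of_mem hξ
      rw [h0, Submodule.mem_bot] at h2
      have h3 : ξ ∈ W ⊓ rs hι S := ⟨hξ, by rw [← hker]; exact h2⟩
      rw [hint] at h3
      exact h3
    · intro q
      obtain ⟨ξ, rfl⟩ := Submodule.Quotient.mk_surjective S q
      rw [qEquiv_mk, ← Submodule.Quotient.mk_smul]
      constructor
      · rintro ⟨η, hη, hq⟩
        rw [hπ] at hq
        have h2 : η - x (f w) • u1 ξ ∈ S := (Submodule.Quotient.eq S).mp hq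
        let ζ := u1.symm ((x (f w))⁻¹ • η)
        have hζ : x (f w) • u1 ζ = η := by
          show x (f w) • u1 (u1.symm ((x (f w))⁻¹ • η)) = η
          rw [u1.apply_symm_apply, smul_smul, mul_inv_cancel₀ (hC.ne0 _), one_smul]
        refine ⟨ζ, ?_, ?_⟩
        · show ζ ∈ W
          rw [← h1 ζ, hζ]; exact hη
        · rw [hπ]
          apply (Submodule.Quotient.eq S).mpr
          rw [← hζ, ← smul_sub, ← map_sub] at h2
          have h6 : u1 (ζ - ξ) ∈ S := by
            have := S.smul_mem (x (f w))⁻¹ h2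
            rwa [smul_smul, inv_mul_cancel₀ (hC.ne0 _), one_smul] at this
          exact (hS1 _).mp h6
      · rintro ⟨η, hη, hq⟩
        rw [hπ] at hq
        have h2 : η - ξ ∈ S := (Submodule.Quotient.eq S).mp hq
        refine ⟨x (f w) • u1 η, (h1 η).mpr hη, ?_⟩
        rw [hπ]
        apply (Submodule.Quotient.eq S).mpr
        rw [← smul_sub, ← map_sub]
        exact S.smul_mem _ ((hS1 _).mpr h2)
  have hcard : ((s.erase w0).image f).card = s.card - 1 := by
    rw [Finset.card_image_of_injective _ (fun a b h => hfinj' a b h), Finset.card_erase_of_mem hw0]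
  have hle := ih (finrank K' (X ⧸ S)) (by omega) (X ⧸ S) hιq (qEquiv S u1 hS1) M1
    (hA1.quot S hS1) hrec1 hNR1 inferInstance rfl ((s.erase w0).image f) ?_ ?_
  · have : 0 < s.card := Finset.card_pos.mpr ⟨w0, hw0⟩
    omega
  · intro a ha b hb hab v hv
    obtain ⟨w, hw, rfl⟩ := Finset.mem_image.mp ha
    obtain ⟨w', hw', rfl⟩ := Finset.mem_image.mp hb
    exact hs w (Finset.mem_of_mem_erase hw) w' (Finset.mem_of_mem_erase hw')
      (fun h => hab (by rw [h])) v (hfinj w w' v hv)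
  · intro a ha
    obtain ⟨w, hw, rfl⟩ := Finset.mem_image.mp ha
    exact key w (Finset.mem_of_mem_erase hw) (Finset.ne_of_mem_erase hw)

end

end Pool.Agent.Helper946.PH3
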