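import Mathlib
import Pool.Agent.Helper294.HX.YBound

set_option autoImplicit false
set_option linter.unusedSectionVars false
set_option linter.unusedVariables false

namespace Pool.Agent.Helper946.HY

open Module Pool.Agent.Helper946.PH3

theorem u_bound {K K' E : Type} [DivisionRing K] [DivisionRing K'] [AddCommGroup E]
    {ι : K →+* K'} {x : E → K'} (hC : Cross ι x) {φ : E →+ ℝ} (hφ : Function.Injective φ)
    {J : Type} (n : ℕ) : ∀ (X : Type) [AddCommGroup X] [Module K X] [Module K' X]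
    (_ : ∀ (k : K) (ξ : X), k • ξ = ι k • ξ) (_ : FiniteDimensional K' X)
    (_ : finrank K' X ≤ n) (u : X ≃+ X) (M : E ≃+ E) (_ : Act ι x u M) (_ : Rec φ M)
    (_ : ∀ (m : ℕ) (v : E), 0 < m → ∑ i ∈ Finset.range m, (⇑M)^[i] v = 0 → v = 0)
    (s : Finset J) (w : J → E) (U : J → (X ≃+ X)) (W : J → Submodule K X)
    (_ : ∀ j ∈ s, ∃ c : K, c ≠ 0 ∧ ∀ ξ, U j ξ = ι c • x (w j) • u ξ)
    (_ : ∀ j ∈ s, W j ≠ ⊥ ∧ FiniteDimensional K (W j) ∧ ∀ ξ, U j ξ ∈ W j ↔ ξ ∈ W j)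
    (_ : ∀ i ∈ s, ∀ j ∈ s, i ≠ j → ¬ ∃ p : E, w i - w j = p - M p), s.card ≤ n := by
  classical
  intro X _ _ _ hι hfd hn u M hA hrec hNR s w U W hU hW hne
  have hinj : Set.InjOn w (s : Set J) := by
    intro i hi j hj hij
    by_contra hne'
    refine hne i hi j hj hne' ⟨0, ?_⟩
    rw [hij, map_zero, sub_self, sub_self]
  have hcard : (s.image w).card = s.card := Finset.card_image_of_injOn hinj
  rw [← hcard]
  refine le_trans (Pool.Agent.Helper946.PH3.u_bound hC hφ (finrank K' X) X hι u M hA hrec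
    (fun v m hm h0 => hNR m v hm h0) hfd rfl (s.image w) ?_ ?_) hn
  · intro a ha b hb hab v h
    obtain ⟨i, hi, rfl⟩ := Finset.mem_image.1 ha
    obtain ⟨j, hj, rfl⟩ := Finset.mem_image.1 hb
    refine hne i hi j hj (fun hij => hab (by rw [hij])) ⟨-v, ?_⟩
    rw [h, map_neg]
    abel
  · intro a ha
    obtain ⟨j, hj, rfl⟩ := Finset.mem_image.1 ha
    obtain ⟨h1, h2, h3⟩ := hW j hj
    obtain ⟨c, hc, hUc⟩ := hU j hj
    refine ⟨W j, h1, h2, ?_⟩
    intro ξ
    rw [← h3 ξ, hUc ξ]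
    exact (smul_mem_iota hι (W j) hc _).symm

end Pool.Agent.Helper946.HY
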